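import Pool.Agent.NH62.Thu.Orient

set_option autoImplicit false

/-! Charts of the sphere and holomorphic local coordinates. -/

noncomputable section

namespace Pool.Agent.NH62.Thu

open OnePoint Set Filter Topology

theorem ch_par_same (i : Bool) (z : ℂ) : ch i (par i z) = z := by
  cases i
  · rfl
  · simp [ch, par, inv_inv]

theorem toC_inv_coe (z : ℂ) : toC (inv (z : Sph)) = z⁻¹ := by
  by_cases hz : z = 0
  · subst hz; simp
  · rw [inv_coe_ne hz]; rfl

theorem ch_par_diff (i : Bool) (z : ℂ) : ch i (par (!i) z) = z⁻¹ := by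
  cases i
  · exact toC_inv_coe z
  · exact toC_inv_coe z

theorem par_mem_dom (i : Bool) (z : ℂ) : par i z ∈ dom i := by
  cases i
  · simp [par, dom]
  · simp only [par, dom, if_true, mem_compl_iff, mem_singleton_iff]
    intro h
    have := congrArg inv h
    rw [inv_inv, inv_zero] at this
    exact coe_ne_infty _ this

theorem par_ch (i : Bool) {x : Sph} (hx : x ∈ dom i) : par i (ch i x) = x := by
  cases i
  · have hx' : x ≠ ∞ := hx
    induction x using OnePoint.rec with
    | infty => exact absurd rfl hx'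
    | coe z => rfl
  · have hx' : x ≠ ((0 : ℂ) : Sph) := hx
    have h1 : inv x ≠ ∞ := by
      intro h
      have := congrArg inv h
      rw [inv_inv, inv_infty] at this
      exact hx' this
    obtain ⟨w, hw⟩ := ne_infty_iff_exists.1 h1
    show inv ((toC (inv x) : ℂ) : Sph) = x
    rw [← hw, toC_coe, hw, inv_inv]

theorem isOpen_dom (i : Bool) : IsOpen (dom i) := by
  cases i
  · exact isClosed_infty.isOpen_compl
  · exact isClosed_singleton.isOpen_compl

theorem continuous_par (i : Bool) : Continuous (par i) := by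
  cases i
  · exact OnePoint.continuous_coe
  · exact continuous_inv.comp OnePoint.continuous_coe

theorem isOpenMap_par (i : Bool) : IsOpenMap (par i) := by
  cases i
  · exact OnePoint.isOpenMap_coe
  · exact invH.isOpenMap.comp OnePoint.isOpenMap_coe

theorem continuousAt_toC {x : Sph} (hx : x ≠ ∞) : ContinuousAt toC x := by
  obtain ⟨z, rfl⟩ := ne_infty_iff_exists.1 hx
  rw [OnePoint.continuousAt_coe]
  exact continuousAt_id

theorem continuousAt_ch (i : Bool) {x : Sph} (hx : x ∈ dom i) : ContinuousAt (ch i) x := by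
  cases i
  · exact continuousAt_toC hx
  · have hx' : x ≠ ((0 : ℂ) : Sph) := hx
    have h1 : inv x ≠ ∞ := by
      intro h
      have := congrArg inv h
      rw [inv_inv, inv_infty] at this
      exact hx' this
    exact ContinuousAt.comp (continuousAt_toC h1) continuous_inv.continuousAt

/-- the charts as open partial homeomorphisms -/
def chH (i : Bool) : OpenPartialHomeomorph Sph ℂ where
  toFun := ch i
  invFun := par i
  source := dom i
  target := univ
  map_source' _ _ := mem_univ _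
  map_target' z _ := par_mem_dom i z
  left_inv' _ hx := par_ch i hx
  right_inv' z _ := ch_par_same i z
  open_source := isOpen_dom i
  open_target := isOpen_univ
  continuousOn_toFun _ hx := (continuousAt_ch i hx).continuousWithinAt
  continuousOn_invFun := (continuous_par i).continuousOn

/-- the transition maps -/
theorem trans_hasDerivAt (i j : Bool) {x : Sph} (hi : x ∈ dom i) (hj : x ∈ dom j) :
    ∃ c : ℂ, c ≠ 0 ∧ HasDerivAt (ch i ∘ par j) c (ch j x) ∧
      ∀ᶠ z in 𝓝 (ch j x), HasDerivAt (ch i ∘ par j) (deriv (ch i ∘ par j) z) z := by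
  by_cases hij : i = j
  · subst hij
    have h1 : ch i ∘ par i = id := funext fun z => ch_par_same i z
    rw [h1]
    refine ⟨1, one_ne_zero, hasDerivAt_id _, Eventually.of_forall fun z => ?_⟩
    rw [deriv_id]; exact hasDerivAt_id z
  · have hj' : j = !i := by cases i <;> cases j <;> simp_all
    subst hj'
    have h1 : ch i ∘ par (!i) = fun z => z⁻¹ := funext fun z => ch_par_diff i z
    have h2 : ch (!i) x ≠ 0 := by
      intro h0
      have h3 := par_ch (!i) hj
      rw [h0] at h3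
      rw [← h3] at hi
      cases i
      · simp [par, dom] at hi
      · simp [par, dom] at hi
    rw [h1]
    refine ⟨_, ?_, hasDerivAt_inv h2, ?_⟩
    · exact neg_ne_zero.2 (inv_ne_zero (pow_ne_zero 2 h2))
    · filter_upwards [isOpen_ne.mem_nhds h2] with z hz
      exact (hasDerivAt_inv hz).differentiableAt.hasDerivAt

theorem ch_eq_iff (i : Bool) {x y : Sph} (hx : x ∈ dom i) (hy : y ∈ dom i) :
    ch i x = ch i y ↔ x = y := by
  constructor
  · intro h
    rw [← par_ch i hx, h, par_ch i hy]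
  · rintro rfl; rfl

theorem orientPres_holo (i : Bool) (Φ : ℂ → ℂ) (U : Set Sph) (hU : U ⊆ dom i)
    (hΦ : ∀ x ∈ U, AnalyticAt ℂ Φ (ch i x) ∧ deriv Φ (ch i x) ≠ 0) :
    OrientPres (Φ ∘ ch i) U := by
  intro x hx j hj
  obtain ⟨c, hc, hd, hev⟩ := trans_hasDerivAt i j (hU hx) hj
  obtain ⟨h1, h2⟩ := hΦ x hx
  have hval : (ch i ∘ par j) (ch j x) = ch i x := by
    show ch i (par j (ch j x)) = ch i x
    rw [par_ch j hj]
  have h3 : HasDerivAt (Φ ∘ (ch i ∘ par j)) (deriv Φ (ch i x) * c) (ch j x) := by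
    refine HasDerivAt.comp _ ?_ hd
    rw [hval]
    exact h1.differentiableAt.hasDerivAt
  have h4 : (Φ ∘ ch i) ∘ par j = Φ ∘ (ch i ∘ par j) := rfl
  rw [h4]
  refine opAt_of_hasDerivAt h3 (mul_ne_zero h2 hc) ?_
  have h5 : ∀ᶠ z in 𝓝 (ch j x), AnalyticAt ℂ Φ ((ch i ∘ par j) z) := by
    have h6 : ∀ᶠ w in 𝓝 ((ch i ∘ par j) (ch j x)), AnalyticAt ℂ Φ w := by
      rw [hval]; exact h1.eventually_analyticAt
    exact hd.continuousAt.eventually h6
  filter_upwards [h5, hev] with z hz1 hz2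
  exact ContinuousAt.comp (f := ch i ∘ par j) hz1.continuousAt hz2.continuousAt

/-- Local coordinates from holomorphic functions. -/
theorem exists_coord (i : Bool) (p : Sph) (hp : p ∈ dom i) (Φ : ℂ → ℂ)
    (hΦ : AnalyticAt ℂ Φ (ch i p)) (hd : deriv Φ (ch i p) ≠ 0) (h0 : Φ (ch i p) = 0)
    (P : Sph → Prop) (hP : ∀ᶠ x in 𝓝 p, P x) :
    ∃ φ : OpenPartialHomeomorph Sph ℂ, OrientPres φ φ.source ∧ p ∈ φ.source ∧ φ p = 0 ∧
      ∀ x ∈ φ.source, x ∈ dom i ∧ φ x = Φ (ch i x) ∧ P x := by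
  classical
  let e : ℂ ≃L[ℂ] ℂ := ContinuousLinearEquiv.unitsEquivAut ℂ (Units.mk0 _ hd)
  have hstrict : HasStrictFDerivAt Φ (e : ℂ →L[ℂ] ℂ) (ch i p) := by
    have h1 : HasStrictDerivAt Φ (deriv Φ (ch i p)) (ch i p) := hΦ.hasStrictDerivAt
    have h2 := h1.hasStrictFDerivAt
    have h3 : (e : ℂ →L[ℂ] ℂ) = ContinuousLinearMap.toSpanSingleton ℂ (deriv Φ (ch i p)) := by
      ext
      simp [e]
    rw [h3]
    exact h2
  let E := hstrict.toOpenPartialHomeomorph Φ
  have hE : (E : ℂ → ℂ) = Φ := hstrict.toOpenPartialHomeomorph_coe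
  have hpE : ch i p ∈ E.source := hstrict.mem_toOpenPartialHomeomorph_source
  let φ₀ := (chH i).trans E
  have hφ₀ : (φ₀ : Sph → ℂ) = Φ ∘ ch i := by
    show E ∘ ch i = Φ ∘ ch i
    rw [hE]
  have hp₀ : p ∈ φ₀.source := by
    rw [OpenPartialHomeomorph.trans_source]
    exact ⟨hp, hpE⟩
  have hev : ∀ᶠ x in 𝓝 p, (x ∈ dom i ∧ (AnalyticAt ℂ Φ (ch i x) ∧ deriv Φ (ch i x) ≠ 0)) ∧ P x := by
    have e1 : ∀ᶠ x in 𝓝 p, x ∈ dom i := (isOpen_dom i).mem_nhds hp
    have e2 : ∀ᶠ x in 𝓝 p, AnalyticAt ℂ Φ (ch i x) :=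
      (continuousAt_ch i hp).eventually hΦ.eventually_analyticAt
    have e3 : ∀ᶠ x in 𝓝 p, deriv Φ (ch i x) ≠ 0 := by
      have h1 : ContinuousAt (deriv Φ) (ch i p) := hΦ.deriv.continuousAt
      exact (continuousAt_ch i hp).eventually (h1.eventually_ne hd)
    filter_upwards [e1, e2, e3, hP] with x h1 h2 h3 h4 using ⟨⟨h1, h2, h3⟩, h4⟩
  obtain ⟨V, hV, hVo, hpV⟩ := _root_.eventually_nhds_iff.1 hev
  let φ := φ₀.restrOpen V hVo
  have hφ : (φ : Sph → ℂ) = Φ ∘ ch i := hφ₀
  have hsrc : φ.source = φ₀.source ∩ V := OpenPartialHomeomorph.restrOpen_source _ _ _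
  refine ⟨φ, ?_, ?_, ?_, ?_⟩
  · rw [hφ]
    refine orientPres_holo i Φ _ ?_ ?_
    · intro x hx
      rw [hsrc] at hx
      exact (hV x hx.2).1.1
    · intro x hx
      rw [hsrc] at hx
      exact (hV x hx.2).1.2
  · rw [hsrc]; exact ⟨hp₀, hpV⟩
  · rw [hφ]; exact h0
  · intro x hx
    rw [hsrc] at hx
    refine ⟨(hV x hx.2).1.1, ?_, (hV x hx.2).2⟩
    rw [hφ]; rfl

end Pool.Agent.NH62.Thu
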