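import Mathlib

set_option autoImplicit false

/-!
# Thurston maps of the Riemann sphere: definitions
-/

noncomputable section

namespace Pool.Agent.NH62.Thu

open OnePoint Set Filter Topology

/-- The Riemann sphere `ℂ ∪ {∞}`. -/
abbrev Sph : Type := OnePoint ℂ

/-- The inversion `z ↦ 1 / z` of the Riemann sphere. -/
def inv (x : Sph) : Sph := x.elim ((0 : ℂ) : Sph) (fun z => if z = 0 then ∞ else ((z⁻¹ : ℂ) : Sph))

/-- The complex number underlying a point different from `∞`. -/
def toC (x : Sph) : ℂ := x.elim 0 id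

/-- The two standard charts of the sphere: `z` (for `false`) and `1 / z` (for `true`). -/
def ch (i : Bool) (x : Sph) : ℂ := if i then toC (inv x) else toC x

/-- The domains of the two charts: the complement of `∞` and the complement of `0`. -/
def dom (i : Bool) : Set Sph := if i then {((0 : ℂ) : Sph)}ᶜ else {∞}ᶜ

/-- The inverses of the two charts. -/
def par (i : Bool) (z : ℂ) : Sph := if i then inv (z : Sph) else (z : Sph)

/-- The closed path `γ : [0, 2π] → ℂ` misses `0` and winds exactly once, counterclockwise,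
around `0`: it has a continuous argument which increases by `2π`. -/
def WindsOnce (γ : ℝ → ℂ) : Prop :=
  ∃ a : ℝ → ℝ, ContinuousOn a (Icc 0 (2 * Real.pi)) ∧ a (2 * Real.pi) = a 0 + 2 * Real.pi ∧
    ∀ s ∈ Icc 0 (2 * Real.pi), γ s ≠ 0 ∧ γ s = ‖γ s‖ * Complex.exp (a s * Complex.I)

/-- `M` preserves the orientation at `p`: the images of all small circles around `p` wind once,
counterclockwise, around `M p`. -/
def OPAt (M : ℂ → ℂ) (p : ℂ) : Prop :=
  ∀ᶠ r : ℝ in 𝓝[>] 0, WindsOnce fun s => M (p + r * Complex.exp (s * Complex.I)) - M p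

/-- The local homeomorphism `φ` from the open subset `U` of the sphere to `ℂ` preserves the
orientation. -/
def OrientPres (φ : Sph → ℂ) (U : Set Sph) : Prop :=
  ∀ x ∈ U, ∀ i, x ∈ dom i → OPAt (φ ∘ par i) (ch i x)

/-- The local degree of `f` at `p` is `d`: in suitable orientation preserving local coordinates
centred at `p` and `f p`, the map `f` is `z ↦ z ^ d`. -/
def LocalDegree (f : Sph → Sph) (p : Sph) (d : ℕ) : Prop :=
  ∃ φ ψ : OpenPartialHomeomorph Sph ℂ, OrientPres φ φ.source ∧ OrientPres ψ ψ.source ∧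
    p ∈ φ.source ∧ φ p = 0 ∧ f p ∈ ψ.source ∧ ψ (f p) = 0 ∧
    ∀ x ∈ φ.source, f x ∈ ψ.source ∧ ψ (f x) = φ x ^ d

/-- `f` is a branched covering map. -/
def IsBranchedCovering (f : Sph → Sph) : Prop :=
  Continuous f ∧ ∀ p, ∃ d, 1 ≤ d ∧ LocalDegree f p d

/-- The critical points. -/
def crit (f : Sph → Sph) : Set Sph := {p | ∃ d, 2 ≤ d ∧ LocalDegree f p d}

/-- The postcritical points. -/
def post (f : Sph → Sph) : Set Sph := {y | ∃ n, 1 ≤ n ∧ ∃ c ∈ crit f, f^[n] c = y}

/-- Thurston maps. (A branched covering map of the sphere has topological degree at least `2` if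
and only if it is not injective.) -/
def IsThurston (f : Sph → Sph) : Prop :=
  IsBranchedCovering f ∧ ¬ Function.Injective f ∧ (post f).Finite

/-- Jordan curves in the sphere. -/
def IsJordanCurve (C : Set Sph) : Prop :=
  ∃ γ : Circle → Sph, Continuous γ ∧ Function.Injective γ ∧ range γ = C

/-- The mesh of the pullbacks of `Cᶜ` under `f ^ n` tends to `0`: for every open cover of the
sphere, for all large `n`, every component of the preimage of `Cᶜ` under `f ^ n` is contained in a
member of the cover. -/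
def MeshTendsToZero (f : Sph → Sph) (C : Set Sph) : Prop :=
  ∀ 𝒰 : Set (Set Sph), (∀ U ∈ 𝒰, IsOpen U) → ⋃₀ 𝒰 = univ →
    ∃ N : ℕ, ∀ n ≥ N, ∀ x ∈ f^[n] ⁻¹' Cᶜ, ∃ U ∈ 𝒰, connectedComponentIn (f^[n] ⁻¹' Cᶜ) x ⊆ U

/-- Expanding maps. -/
def IsExpanding (f : Sph → Sph) : Prop :=
  ∃ C : Set Sph, IsJordanCurve C ∧ post f ⊆ C ∧ MeshTendsToZero f C

/-- `g` is of class `C^k` with respect to the standard smooth structure of the sphere. -/
def IsCk (k : WithTop ℕ∞) (g : Sph → Sph) : Prop :=
  ∀ x, ∀ i j, x ∈ dom i → g x ∈ dom j → ContDiffAt ℝ k (ch j ∘ g ∘ par i) (ch i x)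

/-- `f` and `g` are topologically conjugate. -/
def TopConj (f g : Sph → Sph) : Prop := ∃ h : Sph ≃ₜ Sph, ∀ x, h (f x) = g (h x)

/-! Basic facts. -/

@[simp] theorem inv_infty : inv ∞ = ((0 : ℂ) : Sph) := rfl
theorem inv_coe (z : ℂ) : inv (z : Sph) = if z = 0 then ∞ else ((z⁻¹ : ℂ) : Sph) := rfl
@[simp] theorem inv_zero : inv ((0 : ℂ) : Sph) = ∞ := by simp [inv_coe]
theorem inv_coe_ne {z : ℂ} (hz : z ≠ 0) : inv (z : Sph) = ((z⁻¹ : ℂ) : Sph) := by simp [inv_coe, hz]
@[simp] theorem toC_coe (z : ℂ) : toC (z : Sph) = z := rfl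
@[simp] theorem toC_infty : toC ∞ = 0 := rfl

theorem inv_inv (x : Sph) : inv (inv x) = x := by
  induction x using OnePoint.rec with
  | infty => simp
  | coe z =>
    by_cases hz : z = 0
    · subst hz; simp
    · rw [inv_coe_ne hz, inv_coe_ne (inv_ne_zero hz), _root_.inv_inv]

theorem tendsto_inv_zero : Tendsto (fun z : ℂ => inv (z : Sph)) (𝓝[≠] 0) (𝓝 ∞) := by
  have h1 : Tendsto (fun z : ℂ => ((z⁻¹ : ℂ) : Sph)) (𝓝[≠] 0) (𝓝 ∞) := by
    have h2 : Tendsto (fun z : ℂ => z⁻¹) (𝓝[≠] 0) (cocompact ℂ) := by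
      rw [← Metric.cobounded_eq_cocompact]; exact Filter.tendsto_inv₀_nhdsNE_zero
    have h3 : Tendsto ((↑) : ℂ → Sph) (cocompact ℂ) (𝓝 ∞) := by
      rw [← coclosedCompact_eq_cocompact]; exact OnePoint.tendsto_coe_infty
    exact h3.comp h2
  refine h1.congr' ?_
  filter_upwards [self_mem_nhdsWithin] with z hz
  rw [inv_coe_ne hz]

theorem continuous_inv : Continuous inv := by
  rw [OnePoint.continuous_iff, coclosedCompact_eq_cocompact]
  constructor
  · rw [inv_infty]
    have h1 : Tendsto (fun z : ℂ => ((z⁻¹ : ℂ) : Sph)) (cocompact ℂ) (𝓝 ((0 : ℂ) : Sph)) :=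
      (OnePoint.continuous_coe.tendsto (0 : ℂ)).comp (by
        rw [← Metric.cobounded_eq_cocompact]; exact Filter.tendsto_inv₀_cobounded)
    refine h1.congr' ?_
    have h2 : ∀ᶠ z : ℂ in cocompact ℂ, z ≠ 0 := by
      have : ({(0 : ℂ)} : Set ℂ)ᶜ ∈ cocompact ℂ := isCompact_singleton.compl_mem_cocompact
      exact this
    filter_upwards [h2] with z hz
    rw [inv_coe_ne hz]
  · rw [continuous_iff_continuousAt]
    intro z
    by_cases hz : z = 0
    · subst hz
      rw [ContinuousAt, inv_zero]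
      rw [← nhdsNE_sup_pure]
      exact tendsto_inv_zero.sup (by rw [tendsto_pure_left]; intro s hs; simpa using mem_of_mem_nhds hs)
    · have h1 : ContinuousAt (fun z : ℂ => ((z⁻¹ : ℂ) : Sph)) z :=
        OnePoint.continuous_coe.continuousAt.comp (continuousAt_inv₀ hz)
      refine h1.congr ?_
      filter_upwards [isOpen_ne.mem_nhds hz] with w hw
      rw [inv_coe_ne hw]

/-- the inversion as a homeomorphism -/
def invH : Sph ≃ₜ Sph where
  toFun := inv
  invFun := inv
  left_inv := inv_inv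
  right_inv := inv_inv
  continuous_toFun := continuous_inv
  continuous_invFun := continuous_inv

end Pool.Agent.NH62.Thu
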