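import Pool.Agent.NH62.Thu.Thur

set_option autoImplicit false

/-! The barycentric subdivision map is expanding. -/

noncomputable section

namespace Pool.Agent.NH62.Thu

open OnePoint Set Filter Topology

/-- the unit circle in the sphere -/
def UC : Set Sph := range fun z : Circle => ((z : ℂ) : Sph)

theorem UC_jordan : IsJordanCurve UC :=
  ⟨fun z : Circle => ((z : ℂ) : Sph), OnePoint.continuous_coe.comp continuous_subtype_val,
    fun _ _ h => Subtype.ext (OnePoint.coe_injective h), rfl⟩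

theorem mem_UC {x : Sph} : x ∈ UC ↔ (Xi x).2.2.2 = 0 := by
  constructor
  · rintro ⟨z, rfl⟩
    show tt (z : ℂ) = 0
    have h : ‖(z : ℂ)‖ = 1 := Circle.norm_coe z
    rw [(gt_le h.le).2, h]; norm_num
  · intro h
    induction x using OnePoint.rec with
    | infty => rw [Xi_infty] at h; norm_num at h
    | coe z =>
      have h' : tt z = 0 := h
      have h1 : ‖z‖ = 1 := by
        rcases le_total ‖z‖ 1 with g | g
        · rw [(gt_le g).2] at h'; linarith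
        · rw [(gt_ge g).2] at h'
          have : ‖z‖⁻¹ = 1 := by linarith
          exact inv_eq_one.1 this
      exact ⟨⟨z, mem_sphere_zero_iff_norm.2 h1⟩, rfl⟩

theorem PP_subset_UC : PP ⊆ UC := by
  rintro x (rfl | rfl | rfl)
  · rw [mem_UC, Xi_one]
  · rw [mem_UC, Xi_om]
  · rw [mem_UC, Xi_om2]

theorem mn_eq (x : Sph) : |(Xi x).2.2.2| = mn (Xi x) := (Xi_mem x).2

theorem ff_UC {x : Sph} (hx : x ∈ UC) : ff x ∈ UC := by
  rw [mem_UC] at hx ⊢
  have h1 := mn_eq (ff x)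
  have h2 := mn_eq x
  rw [hx, abs_zero] at h2
  rw [Xi_ff, mn_bary] at h1
  have h3 : nM (Xi x) ≤ 0 := by
    refine (min_le_right _ _).trans ?_
    unfold nC; rw [← h2]; simp
  rw [Xi_ff, ← abs_nonpos_iff, h1]
  exact h3

theorem ff_iter_UC (n : ℕ) {x : Sph} (hx : x ∈ UC) : ff^[n] x ∈ UC := by
  induction n with
  | zero => exact hx
  | succ n ih => rw [Function.iterate_succ_apply']; exact ff_UC ih

/-- closeness in the oscillation norm -/
def Cl (δ : ℝ) (p p' : Quad) : Prop :=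
  |(p.1 - p'.1) - (p.2.1 - p'.2.1)| ≤ δ ∧ |(p.2.1 - p'.2.1) - (p.2.2.1 - p'.2.2.1)| ≤ δ ∧
    |(p.1 - p'.1) - (p.2.2.1 - p'.2.2.1)| ≤ δ ∧ |p.2.2.2 - p'.2.2.2| ≤ δ

theorem vd_ne {x : Sph} (hx : ff x ∉ UC) : (Xi x).2.2.2 * vd (Xi x) ≠ 0 := by
  intro h
  apply hx
  rw [mem_UC, ← abs_nonpos_iff, mn_eq, Xi_ff, mn_bary, nM_zero (Xi_mem x) h]

theorem contract {p p' : Quad} (hp : p ∈ Tri) (hp' : p' ∈ Tri)
    (h1 : 0 < (p.1 - p.2.1) * (p'.1 - p'.2.1)) (h2 : 0 < (p.2.1 - p.2.2.1) * (p'.2.1 - p'.2.2.1))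
    (h3 : 0 < (p.1 - p.2.2.1) * (p'.1 - p'.2.2.1)) (h4 : 0 < p.2.2.2 * p'.2.2.2)
    {δ : ℝ} (hc : Cl δ (bary p) (bary p')) : Cl (2 / 3 * δ) p p' := by
  obtain ⟨c1, c2, c3, -⟩ := hc
  have hs := (bary_mem hp).1
  have hs' := (bary_mem hp').1
  have e1 : (bary p).1 = mx p - md p := rfl
  have e2 : (bary p).2.1 = 2 * (md p - mn p) := rfl
  have e3 : (bary p).2.2.1 = 3 * mn p := rfl
  have e1' : (bary p').1 = mx p' - md p' := rfl
  have e2' : (bary p').2.1 = 2 * (md p' - mn p') := rfl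
  have e3' : (bary p').2.2.1 = 3 * mn p' := rfl
  rw [e1, e2, e3] at hs
  rw [e1', e2', e3'] at hs'
  rw [e1, e2, e1', e2'] at c1
  rw [e2, e3, e2', e3'] at c2
  rw [e1, e3, e1', e3'] at c3
  rw [abs_le] at c1 c2 c3
  have ht : |p.2.2.2 - p'.2.2.2| = |mn p - mn p'| := by
    rw [← hp.2, ← hp'.2]
    rcases pos_and_pos_or_neg_and_neg_of_mul_pos h4 with ⟨g1, g2⟩ | ⟨g1, g2⟩
    · rw [abs_of_pos g1, abs_of_pos g2]
    · rw [abs_of_neg g1, abs_of_neg g2]
      rw [show -p.2.2.2 - -p'.2.2.2 = -(p.2.2.2 - p'.2.2.2) by ring, abs_neg]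
  have hmd : md p = p.1 + p.2.1 + p.2.2.1 - mx p - mn p := rfl
  have hmd' : md p' = p'.1 + p'.2.1 + p'.2.2.1 - mx p' - mn p' := rfl
  have key : ∀ u v w : ℝ, (u, v, w) = (mx p - mx p', md p - md p', mn p - mn p') →
      |u - v| ≤ 2 / 3 * δ ∧ |v - w| ≤ 2 / 3 * δ ∧ |u - w| ≤ 2 / 3 * δ ∧ |w| ≤ 2 / 3 * δ := by
    intro u v w h
    simp only [Prod.mk.injEq] at h
    obtain ⟨rfl, rfl, rfl⟩ := h
    refine ⟨?_, ?_, ?_, ?_⟩ <;> rw [abs_le] <;> constructor <;> linarith [c1.1, c1.2, c2.1, c2.2, c3.1, c3.2]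
  obtain ⟨k1, k2, k3, k4⟩ := key _ _ _ rfl
  unfold Cl
  rw [ht]
  rcases pos_and_pos_or_neg_and_neg_of_mul_pos h1 with ⟨a1, b1⟩ | ⟨a1, b1⟩ <;>
  rcases pos_and_pos_or_neg_and_neg_of_mul_pos h2 with ⟨a2, b2⟩ | ⟨a2, b2⟩ <;>
  rcases pos_and_pos_or_neg_and_neg_of_mul_pos h3 with ⟨a3, b3⟩ | ⟨a3, b3⟩
  · have x1 : mx p = p.1 := by unfold mx; simp only [max_def]; split_ifs <;> linarith
    have x2 : mn p = p.2.2.1 := by unfold mn; simp only [min_def]; split_ifs <;> linarith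
    have x1' : mx p' = p'.1 := by unfold mx; simp only [max_def]; split_ifs <;> linarith
    have x2' : mn p' = p'.2.2.1 := by unfold mn; simp only [min_def]; split_ifs <;> linarith
    have x3 : md p = p.2.1 := by rw [hmd, x1, x2]; ring
    have x3' : md p' = p'.2.1 := by rw [hmd', x1', x2']; ring
    rw [x1, x3, x1', x3'] at k1
    rw [x3, x2, x3', x2'] at k2
    rw [x1, x2, x1', x2'] at k3
    exact ⟨k1, k2, k3, k4⟩
  · exfalso; linarith
  · have x1 : mx p = p.1 := by unfold mx; simp only [max_def]; split_ifs <;> linarith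
    have x2 : mn p = p.2.1 := by unfold mn; simp only [min_def]; split_ifs <;> linarith
    have x1' : mx p' = p'.1 := by unfold mx; simp only [max_def]; split_ifs <;> linarith
    have x2' : mn p' = p'.2.1 := by unfold mn; simp only [min_def]; split_ifs <;> linarith
    have x3 : md p = p.2.2.1 := by rw [hmd, x1, x2]; ring
    have x3' : md p' = p'.2.2.1 := by rw [hmd', x1', x2']; ring
    rw [x1, x3, x1', x3'] at k1
    rw [x3, x2, x3', x2'] at k2
    rw [x1, x2, x1', x2'] at k3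
    exact ⟨k3, (abs_sub_comm _ _).trans_le k2, k1, k4⟩
  · have x1 : mx p = p.2.2.1 := by unfold mx; simp only [max_def]; split_ifs <;> linarith
    have x2 : mn p = p.2.1 := by unfold mn; simp only [min_def]; split_ifs <;> linarith
    have x1' : mx p' = p'.2.2.1 := by unfold mx; simp only [max_def]; split_ifs <;> linarith
    have x2' : mn p' = p'.2.1 := by unfold mn; simp only [min_def]; split_ifs <;> linarith
    have x3 : md p = p.1 := by rw [hmd, x1, x2]; ring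
    have x3' : md p' = p'.1 := by rw [hmd', x1', x2']; ring
    rw [x1, x3, x1', x3'] at k1
    rw [x3, x2, x3', x2'] at k2
    rw [x1, x2, x1', x2'] at k3
    exact ⟨k2, (abs_sub_comm _ _).trans_le k3, (abs_sub_comm _ _).trans_le k1, k4⟩
  · have x1 : mx p = p.2.1 := by unfold mx; simp only [max_def]; split_ifs <;> linarith
    have x2 : mn p = p.2.2.1 := by unfold mn; simp only [min_def]; split_ifs <;> linarith
    have x1' : mx p' = p'.2.1 := by unfold mx; simp only [max_def]; split_ifs <;> linarith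
    have x2' : mn p' = p'.2.2.1 := by unfold mn; simp only [min_def]; split_ifs <;> linarith
    have x3 : md p = p.1 := by rw [hmd, x1, x2]; ring
    have x3' : md p' = p'.1 := by rw [hmd', x1', x2']; ring
    rw [x1, x3, x1', x3'] at k1
    rw [x3, x2, x3', x2'] at k2
    rw [x1, x2, x1', x2'] at k3
    exact ⟨(abs_sub_comm _ _).trans_le k1, k3, k2, k4⟩
  · have x1 : mx p = p.2.1 := by unfold mx; simp only [max_def]; split_ifs <;> linarith
    have x2 : mn p = p.1 := by unfold mn; simp only [min_def]; split_ifs <;> linarith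
    have x1' : mx p' = p'.2.1 := by unfold mx; simp only [max_def]; split_ifs <;> linarith
    have x2' : mn p' = p'.1 := by unfold mn; simp only [min_def]; split_ifs <;> linarith
    have x3 : md p = p.2.2.1 := by rw [hmd, x1, x2]; ring
    have x3' : md p' = p'.2.2.1 := by rw [hmd', x1', x2']; ring
    rw [x1, x3, x1', x3'] at k1
    rw [x3, x2, x3', x2'] at k2
    rw [x1, x2, x1', x2'] at k3
    exact ⟨(abs_sub_comm _ _).trans_le k3, k1, (abs_sub_comm _ _).trans_le k2, k4⟩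
  · exfalso; linarith
  · have x1 : mx p = p.2.2.1 := by unfold mx; simp only [max_def]; split_ifs <;> linarith
    have x2 : mn p = p.1 := by unfold mn; simp only [min_def]; split_ifs <;> linarith
    have x1' : mx p' = p'.2.2.1 := by unfold mx; simp only [max_def]; split_ifs <;> linarith
    have x2' : mn p' = p'.1 := by unfold mn; simp only [min_def]; split_ifs <;> linarith
    have x3 : md p = p.2.1 := by rw [hmd, x1, x2]; ring
    have x3' : md p' = p'.2.1 := by rw [hmd', x1', x2']; ring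
    rw [x1, x3, x1', x3'] at k1
    rw [x3, x2, x3', x2'] at k2
    rw [x1, x2, x1', x2'] at k3
    exact ⟨(abs_sub_comm _ _).trans_le k2, (abs_sub_comm _ _).trans_le k1, (abs_sub_comm _ _).trans_le k3, k4⟩

theorem sign_const {K : Set Sph} (hK : IsPreconnected K) {g : Sph → ℝ} (hg : Continuous g)
    (h0 : ∀ x ∈ K, g x ≠ 0) {x y : Sph} (hx : x ∈ K) (hy : y ∈ K) : 0 < g x * g y := by
  by_contra hcon
  have hxn := h0 x hx
  have hyn := h0 y hy
  have key : ∀ x ∈ K, ∀ y ∈ K, ¬ (g x < 0 ∧ 0 < g y) := by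
    rintro x hx y hy ⟨h1, h2⟩
    obtain ⟨z, hz, hz0⟩ := hK.intermediate_value hx hy hg.continuousOn (show (0 : ℝ) ∈ Icc (g x) (g y) from ⟨h1.le, h2.le⟩)
    exact h0 z hz hz0
  rcases lt_or_gt_of_ne hxn with h1 | h1 <;> rcases lt_or_gt_of_ne hyn with h2 | h2
  · exact hcon (mul_pos_of_neg_of_neg h1 h2)
  · exact key x hx y hy ⟨h1, h2⟩
  · exact key y hy x hx ⟨h2, h1⟩
  · exact hcon (mul_pos h1 h2)

theorem vd_factors {x : Sph} (hx : ff x ∉ UC) : (Xi x).2.2.2 ≠ 0 ∧ (Xi x).1 - (Xi x).2.1 ≠ 0 ∧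
    (Xi x).2.1 - (Xi x).2.2.1 ≠ 0 ∧ (Xi x).1 - (Xi x).2.2.1 ≠ 0 := by
  have h := vd_ne hx
  have h1 := left_ne_zero_of_mul h
  have h2 := right_ne_zero_of_mul h
  unfold vd at h2
  have h3 := left_ne_zero_of_mul h2
  exact ⟨h1, left_ne_zero_of_mul h3, right_ne_zero_of_mul h3, right_ne_zero_of_mul h2⟩

theorem tri_bounds {p : Quad} (hp : p ∈ Tri) : (0 ≤ p.1 ∧ p.1 ≤ 1) ∧ (0 ≤ p.2.1 ∧ p.2.1 ≤ 1) ∧
    (0 ≤ p.2.2.1 ∧ p.2.2.1 ≤ 1) ∧ |p.2.2.2| ≤ 1 / 3 := by
  obtain ⟨h1, h2, h3⟩ := coord_nonneg hp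
  have hs := hp.1
  refine ⟨⟨h1, by linarith⟩, ⟨h2, by linarith⟩, ⟨h3, by linarith⟩, ?_⟩
  rw [hp.2]
  have e1 : mn p ≤ p.1 := (min_le_left _ _).trans (min_le_left _ _)
  have e2 : mn p ≤ p.2.1 := (min_le_left _ _).trans (min_le_right _ _)
  have e3 : mn p ≤ p.2.2.1 := min_le_right _ _
  linarith

theorem diam_bound (n : ℕ) : ∀ K : Set Sph, IsPreconnected K → K ⊆ ff^[n] ⁻¹' UCᶜ →
    ∀ x ∈ K, ∀ y ∈ K, Cl (2 * (2 / 3) ^ n) (Xi x) (Xi y) := by
  induction n with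
  | zero =>
    intro K _ _ x _ y _
    obtain ⟨a1, a2, a3, a4⟩ := tri_bounds (Xi_mem x)
    obtain ⟨b1, b2, b3, b4⟩ := tri_bounds (Xi_mem y)
    rw [abs_le] at a4 b4
    unfold Cl
    simp only [pow_zero, mul_one]
    refine ⟨?_, ?_, ?_, ?_⟩ <;> rw [abs_le] <;> constructor <;> linarith [a1.1, a1.2, a2.1, a2.2, a3.1, a3.2, b1.1, b1.2, b2.1, b2.2, b3.1, b3.2, a4.1, a4.2, b4.1, b4.2]
  | succ n ih =>
    intro K hK hKn x hx y hy
    have hK' : IsPreconnected (ff '' K) := hK.image ff continuous_ff.continuousOn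
    have hKn' : ff '' K ⊆ ff^[n] ⁻¹' UCᶜ := by
      rintro _ ⟨z, hz, rfl⟩
      have := hKn hz
      rwa [mem_preimage, Function.iterate_succ_apply] at this
    have h1 := ih _ hK' hKn' (ff x) (mem_image_of_mem _ hx) (ff y) (mem_image_of_mem _ hy)
    rw [Xi_ff, Xi_ff] at h1
    have hne : ∀ z ∈ K, ff z ∉ UC := by
      intro z hz hzU
      exact hKn' (mem_image_of_mem ff hz) (ff_iter_UC n hzU)
    have hXc : Continuous fun x => Xi x := continuous_Xi
    have h2 := contract (Xi_mem x) (Xi_mem y)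
      (sign_const hK (g := fun x => (Xi x).1 - (Xi x).2.1) (by fun_prop) (fun z hz => (vd_factors (hne z hz)).2.1) hx hy)
      (sign_const hK (g := fun x => (Xi x).2.1 - (Xi x).2.2.1) (by fun_prop) (fun z hz => (vd_factors (hne z hz)).2.2.1) hx hy)
      (sign_const hK (g := fun x => (Xi x).1 - (Xi x).2.2.1) (by fun_prop) (fun z hz => (vd_factors (hne z hz)).2.2.2) hx hy)
      (sign_const hK (g := fun x => (Xi x).2.2.2) (by fun_prop) (fun z hz => (vd_factors (hne z hz)).1) hx hy) h1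
    have e : 2 / 3 * (2 * (2 / 3) ^ n) = 2 * (2 / 3 : ℝ) ^ (n + 1) := by ring
    rwa [e] at h2

theorem dist_of_Cl {p p' : Quad} (hp : p ∈ Tri) (hp' : p' ∈ Tri) {δ : ℝ} (h : Cl δ p p') :
    dist p p' ≤ δ := by
  obtain ⟨h1, h2, h3, h4⟩ := h
  have hs := hp.1
  have hs' := hp'.1
  have hδ : 0 ≤ δ := (abs_nonneg _).trans h1
  rw [abs_le] at h1 h2 h3
  rw [Prod.dist_eq, Prod.dist_eq, Prod.dist_eq, Real.dist_eq, Real.dist_eq, Real.dist_eq, Real.dist_eq]
  refine max_le ?_ (max_le ?_ (max_le ?_ h4)) <;> rw [abs_le] <;> constructor <;>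
    linarith [h1.1, h1.2, h2.1, h2.2, h3.1, h3.2]

theorem ff_mesh : MeshTendsToZero ff UC := by
  intro 𝒰 hU hcov
  let c : Set (Set Tri) := {V | ∃ U ∈ 𝒰, V = XiH.symm ⁻¹' U}
  have : CompactSpace Tri := XiH.compactSpace
  have hc1 : ∀ V ∈ c, IsOpen V := by
    rintro V ⟨U, hU', rfl⟩
    exact (hU U hU').preimage XiH.symm.continuous
  have hc2 : (univ : Set Tri) ⊆ ⋃₀ c := by
    intro p _
    have : XiH.symm p ∈ ⋃₀ 𝒰 := by rw [hcov]; trivial
    obtain ⟨U, hU1, hU2⟩ := this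
    exact ⟨_, ⟨U, hU1, rfl⟩, hU2⟩
  obtain ⟨δ, hδ, hleb⟩ := lebesgue_number_lemma_of_metric_sUnion isCompact_univ hc1 hc2
  obtain ⟨N, hN⟩ := exists_pow_lt_of_lt_one (show (0 : ℝ) < δ / 2 by positivity) (show (2 / 3 : ℝ) < 1 by norm_num)
  refine ⟨N, fun n hn x hx => ?_⟩
  obtain ⟨V, ⟨U, hU1, rfl⟩, hV⟩ := hleb (XiH x) (mem_univ _)
  refine ⟨U, hU1, fun y hy => ?_⟩
  have h1 := diam_bound n _ isPreconnected_connectedComponentIn
    (connectedComponentIn_subset (ff^[n] ⁻¹' UCᶜ) x) y hy x (mem_connectedComponentIn hx)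
  have h2 := dist_of_Cl (Xi_mem y) (Xi_mem x) h1
  have h3 : dist (XiH y) (XiH x) < δ := by
    have h4 : (2 / 3 : ℝ) ^ n ≤ (2 / 3) ^ N := pow_le_pow_of_le_one (by norm_num) (by norm_num) hn
    have h5 : dist (XiH y) (XiH x) = dist (Xi y) (Xi x) := rfl
    rw [h5]; linarith
  have h6 : XiH y ∈ XiH.symm ⁻¹' U := hV (Metric.mem_ball.2 h3)
  simpa using h6

theorem ff_expanding : IsExpanding ff :=
  ⟨UC, UC_jordan, post_subset.trans PP_subset_UC, ff_mesh⟩

end Pool.Agent.NH62.Thu
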