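import Mathlib

set_option autoImplicit false

/-!
A `C¹` map of the plane which is not injective near a point, but is locally injective at all other
nearby points, has derivative zero at the point.
-/

noncomputable section

namespace Pool.Agent.NH62.Thu

open Set Filter Topology

/-- A continuous locally injective function on an open interval has no local maximum. -/
theorem no_max {k : ℝ → ℝ} {a b M : ℝ} (hk : ContinuousOn k (Ioo a b)) (hM : M ∈ Ioo a b)
    {t1 t2 : ℝ} (h1 : t1 < M) (h2 : M < t2) (hmax : ∀ t ∈ Icc t1 t2, k t ≤ k M)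
    (hloc : ∃ ε > 0, InjOn k (Ioo (M - ε) (M + ε))) : False := by
  obtain ⟨ε, hε, hinj⟩ := hloc
  obtain ⟨δ, hδ, hδ1, hδ2, hδ3, hδ4, hδ5⟩ : ∃ δ > 0, δ < ε ∧ a < M - δ ∧ M + δ < b ∧ t1 ≤ M - δ ∧
      M + δ ≤ t2 := by
    refine ⟨min (ε / 2) (min (min ((M - a) / 2) ((b - M) / 2)) (min (M - t1) (t2 - M))), ?_, ?_, ?_, ?_, ?_, ?_⟩
    · refine lt_min (by positivity) (lt_min (lt_min ?_ ?_) (lt_min ?_ ?_)) <;>
        linarith [hM.1, hM.2]
    · have := min_le_left (ε / 2) (min (min ((M - a) / 2) ((b - M) / 2)) (min (M - t1) (t2 - M)))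
      linarith
    · have := (min_le_right (ε / 2) (min (min ((M - a) / 2) ((b - M) / 2)) (min (M - t1) (t2 - M)))).trans
        ((min_le_left _ _).trans (min_le_left _ _))
      linarith [hM.1]
    · have := (min_le_right (ε / 2) (min (min ((M - a) / 2) ((b - M) / 2)) (min (M - t1) (t2 - M)))).trans
        ((min_le_left _ _).trans (min_le_right _ _))
      linarith [hM.2]
    · have := (min_le_right (ε / 2) (min (min ((M - a) / 2) ((b - M) / 2)) (min (M - t1) (t2 - M)))).trans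
        ((min_le_right _ _).trans (min_le_left _ _))
      linarith
    · have := (min_le_right (ε / 2) (min (min ((M - a) / 2) ((b - M) / 2)) (min (M - t1) (t2 - M)))).trans
        ((min_le_right _ _).trans (min_le_right _ _))
      linarith
  have hc : ContinuousOn k (Icc (M - δ) (M + δ)) :=
    hk.mono fun t ht => ⟨by linarith [ht.1], by linarith [ht.2]⟩
  have hi : InjOn k (Icc (M - δ) (M + δ)) := hinj.mono (by
    intro t ht
    exact ⟨by linarith [ht.1], by linarith [ht.2]⟩)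
  have e1 : M - δ ∈ Icc (M - δ) (M + δ) := ⟨le_rfl, by linarith⟩
  have e2 : M ∈ Icc (M - δ) (M + δ) := ⟨by linarith, by linarith⟩
  have e3 : M + δ ∈ Icc (M - δ) (M + δ) := ⟨by linarith, le_rfl⟩
  rcases ContinuousOn.strictMonoOn_of_injOn_Icc' (show M - δ ≤ M + δ by linarith) hc hi with h | h
  · have h3 := h e2 e3 (by linarith)
    have h4 := hmax (M + δ) ⟨by linarith, hδ5⟩
    linarith
  · have h3 := h e1 e2 (by linarith)
    have h4 := hmax (M - δ) ⟨hδ4, by linarith⟩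
    linarith

/-- A continuous locally injective function on an open interval is injective. -/
theorem inj_of_loc {k : ℝ → ℝ} {a b : ℝ} (hk : ContinuousOn k (Ioo a b))
    (hloc : ∀ t ∈ Ioo a b, ∃ ε > 0, InjOn k (Ioo (t - ε) (t + ε))) : InjOn k (Ioo a b) := by
  have key : ∀ t1 ∈ Ioo a b, ∀ t2 ∈ Ioo a b, t1 < t2 → k t1 ≠ k t2 := by
    intro t1 ht1 t2 ht2 h12 heq
    have hsub : Icc t1 t2 ⊆ Ioo a b := fun t ht => ⟨lt_of_lt_of_le ht1.1 ht.1, lt_of_le_of_lt ht.2 ht2.2⟩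
    have hne : (Icc t1 t2).Nonempty := ⟨t1, le_rfl, h12.le⟩
    obtain ⟨M, hM, hMax⟩ := isCompact_Icc.exists_isMaxOn hne (hk.mono hsub)
    obtain ⟨m, hm, hMin⟩ := isCompact_Icc.exists_isMinOn hne (hk.mono hsub)
    by_cases hMi : M = t1 ∨ M = t2
    · by_cases hmi : m = t1 ∨ m = t2
      · -- constant
        have hc : ∀ t ∈ Icc t1 t2, k t = k t1 := by
          intro t ht
          have e1 : k t ≤ k M := hMax ht
          have e2 : k m ≤ k t := hMin ht
          have e3 : k M = k t1 := by rcases hMi with h | h <;> rw [h]; exact heq.symm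
          have e4 : k m = k t1 := by rcases hmi with h | h <;> rw [h]; exact heq.symm
          linarith
        have hmid : (t1 + t2) / 2 ∈ Icc t1 t2 := ⟨by linarith, by linarith⟩
        obtain ⟨ε, hε, hinj⟩ := hloc _ (hsub hmid)
        set δ := min (ε / 2) ((t2 - t1) / 2) with hδ
        have hδ0 : 0 < δ := lt_min (by positivity) (by linarith)
        have hδ1 : δ ≤ ε / 2 := min_le_left _ _
        have hδ2 : δ ≤ (t2 - t1) / 2 := min_le_right _ _
        have hx : (t1 + t2) / 2 + δ ∈ Icc t1 t2 := ⟨by linarith, by linarith⟩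
        have g1 : (t1 + t2) / 2 ∈ Ioo ((t1 + t2) / 2 - ε) ((t1 + t2) / 2 + ε) :=
          ⟨by linarith, by linarith⟩
        have g2 : (t1 + t2) / 2 + δ ∈ Ioo ((t1 + t2) / 2 - ε) ((t1 + t2) / 2 + ε) :=
          ⟨by linarith, by linarith⟩
        have := hinj g1 g2 (by rw [hc _ hmid, hc _ hx])
        linarith
      · rw [not_or] at hmi
        have h1 : t1 < m := lt_of_le_of_ne hm.1 (Ne.symm hmi.1)
        have h2 : m < t2 := lt_of_le_of_ne hm.2 hmi.2
        refine no_max (k := fun t => -k t) hk.neg (hsub hm) h1 h2 (fun t ht => neg_le_neg (hMin ht)) ?_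
        obtain ⟨ε, hε, hinj⟩ := hloc _ (hsub hm)
        exact ⟨ε, hε, fun x hx y hy h => hinj hx hy (neg_injective h)⟩
    · rw [not_or] at hMi
      have h1 : t1 < M := lt_of_le_of_ne hM.1 (Ne.symm hMi.1)
      have h2 : M < t2 := lt_of_le_of_ne hM.2 hMi.2
      exact no_max hk (hsub hM) h1 h2 (fun t ht => hMax ht) (hloc _ (hsub hM))
  intro t1 ht1 t2 ht2 h
  rcases lt_trichotomy t1 t2 with h' | h' | h'
  · exact absurd h (key t1 ht1 t2 ht2 h')
  · exact h'
  · exact absurd h.symm (key t2 ht2 t1 ht1 h')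

/-- The box lemma. -/
theorem box_inj {κ : ℝ → ℝ → ℝ} {s0 t0 r : ℝ} (hr : 0 < r)
    (hc : ∀ s, |s - s0| < r → ContinuousOn (κ s) (Ioo (t0 - r) (t0 + r)))
    (hs : ∀ t ∈ Ioo (t0 - r) (t0 + r), ContinuousAt (fun s => κ s t) s0)
    (hloc : ∀ s, |s - s0| < r → ∀ t ∈ Ioo (t0 - r) (t0 + r), (s ≠ s0 ∨ t ≠ t0) →
      ∃ ε > 0, InjOn (κ s) (Ioo (t - ε) (t + ε))) :
    ∀ s, |s - s0| < r → InjOn (κ s) (Ioo (t0 - r) (t0 + r)) := by
  have h1 : ∀ s, |s - s0| < r → s ≠ s0 → InjOn (κ s) (Ioo (t0 - r) (t0 + r)) :=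
    fun s hs hne => inj_of_loc (hc s hs) fun t ht => hloc s hs t ht (Or.inl hne)
  intro s hsr
  by_cases hne : s = s0
  swap
  · exact h1 s hsr hne
  subst hne
  -- strict monotonicity for the neighbours
  have hmono : ∀ s', |s' - s| < r → s' ≠ s → ∀ t1 ∈ Ioo (t0 - r) (t0 + r), ∀ t2 ∈ Ioo (t0 - r) (t0 + r),
      ∀ t3, t1 < t3 → t3 < t2 → ¬ (κ s' t1 < κ s' t3 ∧ κ s' t2 < κ s' t3) ∧
        ¬ (κ s' t3 < κ s' t1 ∧ κ s' t3 < κ s' t2) := by
    intro s' hs' hne' t1 ht1 t2 ht2 t3 h13 h32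
    have hsub : Icc t1 t2 ⊆ Ioo (t0 - r) (t0 + r) := fun t ht => ⟨lt_of_lt_of_le ht1.1 ht.1, lt_of_le_of_lt ht.2 ht2.2⟩
    have e1 : t1 ∈ Icc t1 t2 := ⟨le_rfl, by linarith⟩
    have e2 : t2 ∈ Icc t1 t2 := ⟨by linarith, le_rfl⟩
    have e3 : t3 ∈ Icc t1 t2 := ⟨h13.le, h32.le⟩
    rcases ContinuousOn.strictMonoOn_of_injOn_Icc' (show t1 ≤ t2 by linarith) ((hc s' hs').mono hsub)
      ((h1 s' hs' hne').mono hsub) with h | h
    · have g1 := h e1 e3 h13
      have g2 := h e3 e2 h32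
      exact ⟨fun h' => by linarith [h'.2], fun h' => by linarith [h'.1]⟩
    · have g1 := h e1 e3 h13
      have g2 := h e3 e2 h32
      exact ⟨fun h' => by linarith [h'.1], fun h' => by linarith [h'.2]⟩
  have hfreq : ∃ᶠ s' in 𝓝 s, |s' - s| < r ∧ s' ≠ s := by
    have h2 : ∀ᶠ s' in 𝓝[≠] s, |s' - s| < r ∧ s' ≠ s := by
      have h3 : ∀ᶠ s' in 𝓝 s, |s' - s| < r := by
        have := Metric.ball_mem_nhds s hr
        filter_upwards [this] with x hx
        rwa [Metric.mem_ball, Real.dist_eq] at hx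
      exact (h3.filter_mono nhdsWithin_le_nhds).and self_mem_nhdsWithin
    exact h2.frequently.filter_mono nhdsWithin_le_nhds
  have key : ∀ t1 ∈ Ioo (t0 - r) (t0 + r), ∀ t2 ∈ Ioo (t0 - r) (t0 + r), t1 < t2 → κ s t1 ≠ κ s t2 := by
    intro t1 ht1 t2 ht2 h12 heq
    have hsub : Icc t1 t2 ⊆ Ioo (t0 - r) (t0 + r) := fun t ht => ⟨lt_of_lt_of_le ht1.1 ht.1, lt_of_le_of_lt ht.2 ht2.2⟩
    have hconst : ∀ t3, t1 < t3 → t3 < t2 → κ s t3 = κ s t1 := by
      intro t3 h13 h32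
      have ht3 : t3 ∈ Ioo (t0 - r) (t0 + r) := hsub ⟨h13.le, h32.le⟩
      by_contra hne3
      have c1 := hs t1 ht1
      have c2 := hs t2 ht2
      have c3 := hs t3 ht3
      rcases lt_or_gt_of_ne hne3 with h | h
      · have g1 : ∀ᶠ s' in 𝓝 s, κ s' t3 < κ s' t1 := c3.eventually_lt c1 h
        have g2 : ∀ᶠ s' in 𝓝 s, κ s' t3 < κ s' t2 := c3.eventually_lt c2 (by rw [← heq]; exact h)
        obtain ⟨s', ⟨hs1, hs2⟩, hs3, hs4⟩ := (hfreq.and_eventually (g1.and g2)).exists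
        exact (hmono s' hs1 hs2 t1 ht1 t2 ht2 t3 h13 h32).2 ⟨hs3, hs4⟩
      · have g1 : ∀ᶠ s' in 𝓝 s, κ s' t1 < κ s' t3 := c1.eventually_lt c3 h
        have g2 : ∀ᶠ s' in 𝓝 s, κ s' t2 < κ s' t3 := c2.eventually_lt c3 (by rw [← heq]; exact h)
        obtain ⟨s', ⟨hs1, hs2⟩, hs3, hs4⟩ := (hfreq.and_eventually (g1.and g2)).exists
        exact (hmono s' hs1 hs2 t1 ht1 t2 ht2 t3 h13 h32).1 ⟨hs3, hs4⟩
    obtain ⟨t, ht1', ht2', htne⟩ : ∃ t, t1 < t ∧ t < t2 ∧ t ≠ t0 := by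
      by_cases h : (t1 + t2) / 2 = t0
      · exact ⟨(t1 + 2 * t2) / 3, by linarith, by linarith, by rw [← h]; intro h'; linarith⟩
      · exact ⟨(t1 + t2) / 2, by linarith, by linarith, h⟩
    obtain ⟨ε, hε, hinj⟩ := hloc s hsr t (hsub ⟨ht1'.le, ht2'.le⟩) (Or.inr htne)
    set δ := min (ε / 2) ((t2 - t) / 2) with hδ
    have hδ0 : 0 < δ := lt_min (by positivity) (by linarith)
    have hδ1 : δ ≤ ε / 2 := min_le_left _ _
    have hδ2 : δ ≤ (t2 - t) / 2 := min_le_right _ _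
    have g1 : t ∈ Ioo (t - ε) (t + ε) := ⟨by linarith, by linarith⟩
    have g2 : t + δ ∈ Ioo (t - ε) (t + ε) := ⟨by linarith, by linarith⟩
    have := hinj g1 g2 (by rw [hconst t ht1' ht2', hconst (t + δ) (by linarith) (by linarith)])
    linarith
  intro t1 ht1 t2 ht2 h
  rcases lt_trichotomy t1 t2 with h' | h' | h'
  · exact absurd h (key t1 ht1 t2 ht2 h')
  · exact h'
  · exact absurd h.symm (key t2 ht2 t1 ht1 h')

theorem box_mem {w0 w : ℂ} {r : ℝ} (h1 : |w.re - w0.re| < r) (h2 : |w.im - w0.im| < r) :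
    w ∈ Metric.ball w0 (2 * r) := by
  rw [Metric.mem_ball, dist_eq_norm]
  have := Complex.norm_le_abs_re_add_abs_im (w - w0)
  rw [Complex.sub_re, Complex.sub_im] at this
  linarith

/-- A `C¹` map of the plane which is not injective near a point, but locally injective at all
other nearby points, has derivative zero at the point. -/
theorem deriv_zero {G : ℂ → ℂ} {z0 : ℂ} {L : ℂ →L[ℝ] ℂ} (hG : HasStrictFDerivAt G L z0)
    (hcont : ∀ᶠ z in 𝓝 z0, ContinuousAt G z)
    (h1 : ∀ U ∈ 𝓝 z0, ∃ x ∈ U, ∃ y ∈ U, x ≠ y ∧ G x = G y)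
    (h2 : ∀ᶠ z in 𝓝 z0, z ≠ z0 → ∃ V ∈ 𝓝 z, InjOn G V) : L = 0 := by
  by_contra hL
  -- a suitable rotation
  obtain ⟨α, c, hα, hc, hαc⟩ : ∃ α c : ℂ, α ≠ 0 ∧ c ≠ 0 ∧ ∀ v, (α * L v).re = (c * v).re := by
    have hlin : ∀ v : ℂ, L v = v.re * L 1 + v.im * L Complex.I := by
      intro v
      have h1 : v = v.re • (1 : ℂ) + v.im • Complex.I := by
        apply Complex.ext <;> simp
      conv_lhs => rw [h1]
      rw [map_add, _root_.map_smul, _root_.map_smul]
      simp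
    have hgen : ∀ α v : ℂ, (α * L v).re = ((⟨(α * L 1).re, -(α * L Complex.I).re⟩ : ℂ) * v).re := by
      intro α v
      rw [hlin v]
      simp only [Complex.mul_re, Complex.add_re, Complex.add_im, Complex.mul_im, Complex.ofReal_re,
        Complex.ofReal_im]
      ring
    by_cases hre : (⟨((1 : ℂ) * L 1).re, -((1 : ℂ) * L Complex.I).re⟩ : ℂ) = 0
    · by_cases him : (⟨(-Complex.I * L 1).re, -(-Complex.I * L Complex.I).re⟩ : ℂ) = 0
      · exfalso
        apply hL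
        have a1 : (L 1).re = 0 := by simpa using congrArg Complex.re hre
        have a2 : (L Complex.I).re = 0 := by simpa using congrArg Complex.im hre
        have a3 : (L 1).im = 0 := by simpa using congrArg Complex.re him
        have a4 : (L Complex.I).im = 0 := by simpa using congrArg Complex.im him
        have b1 : L 1 = 0 := Complex.ext a1 a3
        have b2 : L Complex.I = 0 := Complex.ext a2 a4
        ext v
        rw [hlin v, b1, b2]; simp
      · exact ⟨-Complex.I, _, neg_ne_zero.2 Complex.I_ne_zero, him, hgen _⟩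
    · exact ⟨1, _, one_ne_zero, hre, hgen _⟩
  -- the new coordinate
  let Φ : ℂ → ℂ := fun z => ((α * G z).re : ℂ) + Complex.I * ((c * z).im : ℂ)
  have hΦre : ∀ z, (Φ z).re = (α * G z).re := fun z => by simp [Φ]
  have hΦim : ∀ z, (Φ z).im = (c * z).im := fun z => by simp [Φ]
  let e : ℂ ≃L[ℝ] ℂ := (ContinuousLinearEquiv.unitsEquivAut ℂ (Units.mk0 c hc)).restrictScalars ℝ
  have he : ∀ v, e v = c * v := fun v => by
    show v * c = c * v
    ring
  have hΦ : HasStrictFDerivAt Φ (e : ℂ →L[ℝ] ℂ) z0 := by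
    have d1 : HasStrictFDerivAt (fun z => α * G z) (α • L) z0 := hG.const_mul α
    have d2 : HasStrictFDerivAt (fun z => (((α * G z).re : ℝ) : ℂ))
        (Complex.ofRealCLM.comp (Complex.reCLM.comp (α • L))) z0 :=
      Complex.ofRealCLM.hasStrictFDerivAt.comp z0 (Complex.reCLM.hasStrictFDerivAt.comp z0 d1)
    have d3 : HasStrictFDerivAt (fun z : ℂ => c * z) (c • ContinuousLinearMap.id ℝ ℂ) z0 :=
      (hasStrictFDerivAt_id z0).const_mul c
    have d4 : HasStrictFDerivAt (fun z => (((c * z).im : ℝ) : ℂ))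
        (Complex.ofRealCLM.comp (Complex.imCLM.comp (c • ContinuousLinearMap.id ℝ ℂ))) z0 :=
      Complex.ofRealCLM.hasStrictFDerivAt.comp z0 (Complex.imCLM.hasStrictFDerivAt.comp z0 d3)
    have d5 := d2.add (d4.const_mul Complex.I)
    refine d5.congr_fderiv ?_
    ext v
    have hv := hαc v
    show ((α * L v).re : ℂ) + Complex.I * ((c * v).im : ℂ) = e v
    rw [he, hv, mul_comm Complex.I]
    exact Complex.re_add_im _
  let E := hΦ.toOpenPartialHomeomorph Φ
  have hE : (E : ℂ → ℂ) = Φ := hΦ.toOpenPartialHomeomorph_coe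
  have hz0 : z0 ∈ E.source := hΦ.mem_toOpenPartialHomeomorph_source
  have hright : ∀ w ∈ E.target, Φ (E.symm w) = w := fun w hw => by
    have := E.right_inv hw
    rwa [hE] at this
  have hleft : ∀ z ∈ E.source, E.symm (Φ z) = z := fun z hz => by
    have := E.left_inv hz
    rwa [hE] at this
  have hw0t : Φ z0 ∈ E.target := by
    have := E.map_source hz0
    rwa [hE] at this
  obtain ⟨S, hS, hSo, hzS⟩ := _root_.eventually_nhds_iff.1 (hcont.and h2)
  have hnb : E.symm ⁻¹' S ∩ E.target ∈ 𝓝 (Φ z0) := by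
    refine inter_mem ?_ (E.open_target.mem_nhds hw0t)
    have hcs : ContinuousAt E.symm (Φ z0) := E.continuousAt_symm hw0t
    refine hcs ?_
    rw [hleft z0 hz0]
    exact hSo.mem_nhds hzS
  obtain ⟨ρ, hρ, hball⟩ := Metric.mem_nhds_iff.1 hnb
  set s0 := (Φ z0).re with hs0
  set t0 := (Φ z0).im with ht0
  set r := ρ / 2 with hr
  have hr0 : 0 < r := by positivity
  have hbox : ∀ s t : ℝ, |s - s0| < r → t ∈ Ioo (t0 - r) (t0 + r) →
      E.symm ⟨s, t⟩ ∈ S ∧ (⟨s, t⟩ : ℂ) ∈ E.target := by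
    intro s t hs ht
    have h3 : |t - t0| < r := by rw [abs_lt]; exact ⟨by linarith [ht.1], by linarith [ht.2]⟩
    have h4 : (⟨s, t⟩ : ℂ) ∈ Metric.ball (Φ z0) (2 * r) := box_mem hs h3
    have h5 : 2 * r = ρ := by rw [hr]; ring
    rw [h5] at h4
    exact hball h4
  let κ : ℝ → ℝ → ℝ := fun s t => (α * G (E.symm ⟨s, t⟩)).im
  have hmk : Continuous fun q : ℝ × ℝ => (⟨q.1, q.2⟩ : ℂ) := by
    have : (fun q : ℝ × ℝ => (⟨q.1, q.2⟩ : ℂ)) = fun q : ℝ × ℝ => (q.1 : ℂ) + (q.2 : ℂ) * Complex.I := by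
      funext q; apply Complex.ext <;> simp
    rw [this]; fun_prop
  have hGc : ∀ w, E.symm w ∈ S → w ∈ E.target → ContinuousAt (fun w => (α * G (E.symm w)).im) w := by
    intro w hw hwt
    have c1 : ContinuousAt E.symm w := E.continuousAt_symm hwt
    have c2 : ContinuousAt G (E.symm w) := (hS _ hw).1
    have c3 : ContinuousAt (fun w => G (E.symm w)) w := ContinuousAt.comp (f := E.symm) c2 c1
    exact Complex.continuous_im.continuousAt.comp (continuousAt_const.mul c3)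
  have hinj := box_inj (κ := κ) (s0 := s0) (t0 := t0) hr0 (by
      intro s hs t ht
      obtain ⟨b1, b2⟩ := hbox s t hs ht
      have c1 : ContinuousAt (fun t : ℝ => (⟨s, t⟩ : ℂ)) t :=
        (hmk.comp (by fun_prop : Continuous fun t : ℝ => (s, t))).continuousAt
      exact (ContinuousAt.comp (f := fun t : ℝ => (⟨s, t⟩ : ℂ)) (hGc _ b1 b2) c1).continuousWithinAt) (by
      intro t ht
      obtain ⟨b1, b2⟩ := hbox s0 t (by simpa using hr0) ht
      have c1 : ContinuousAt (fun s : ℝ => (⟨s, t⟩ : ℂ)) s0 :=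
        (hmk.comp (by fun_prop : Continuous fun s : ℝ => (s, t))).continuousAt
      exact ContinuousAt.comp (f := fun s : ℝ => (⟨s, t⟩ : ℂ)) (hGc _ b1 b2) c1) (by
      intro s hs t ht hne
      obtain ⟨b1, b2⟩ := hbox s t hs ht
      have hzne : E.symm ⟨s, t⟩ ≠ z0 := by
        intro h0
        have h3 := hright _ b2
        rw [h0] at h3
        rcases hne with h4 | h4
        · exact h4 (by rw [hs0, h3])
        · exact h4 (by rw [ht0, h3])
      obtain ⟨V, hV, hVinj⟩ := (hS _ b1).2 hzne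
      have c1 : ContinuousAt (fun t : ℝ => (⟨s, t⟩ : ℂ)) t :=
        (hmk.comp (by fun_prop : Continuous fun t : ℝ => (s, t))).continuousAt
      have c2 : ContinuousAt (fun t : ℝ => E.symm (⟨s, t⟩ : ℂ)) t :=
        ContinuousAt.comp (f := fun t : ℝ => (⟨s, t⟩ : ℂ)) (E.continuousAt_symm b2) c1
      have hev : ∀ᶠ t' in 𝓝 t, E.symm (⟨s, t'⟩ : ℂ) ∈ V ∧ (⟨s, t'⟩ : ℂ) ∈ E.target :=
        Filter.Eventually.and (c2 hV) (c1 (E.open_target.mem_nhds b2))
      obtain ⟨ε, hε, hεb⟩ := Metric.eventually_nhds_iff.1 hev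
      refine ⟨ε, hε, ?_⟩
      intro t1 ht1 t2 ht2 heq
      have d1 : dist t1 t < ε := by
        rw [Real.dist_eq, abs_lt]; exact ⟨by linarith [ht1.1], by linarith [ht1.2]⟩
      have d2 : dist t2 t < ε := by
        rw [Real.dist_eq, abs_lt]; exact ⟨by linarith [ht2.1], by linarith [ht2.2]⟩
      obtain ⟨v1, w1⟩ := hεb d1
      obtain ⟨v2, w2⟩ := hεb d2
      have r1 : (α * G (E.symm ⟨s, t1⟩)).re = s := by rw [← hΦre, hright _ w1]
      have r2 : (α * G (E.symm ⟨s, t2⟩)).re = s := by rw [← hΦre, hright _ w2]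
      have e1 : α * G (E.symm ⟨s, t1⟩) = α * G (E.symm ⟨s, t2⟩) :=
        Complex.ext (r1.trans r2.symm) heq
      have e2 := mul_left_cancel₀ hα e1
      have e3 := hVinj v1 v2 e2
      have e4 : (⟨s, t1⟩ : ℂ) = ⟨s, t2⟩ := by rw [← hright _ w1, ← hright _ w2, e3]
      exact congrArg Complex.im e4)
  -- conclusion
  have hU : E.source ∩ (Φ ⁻¹' {w | |w.re - s0| < r ∧ |w.im - t0| < r}) ∈ 𝓝 z0 := by
    refine inter_mem (E.open_source.mem_nhds hz0) ?_
    have hΦc : ContinuousAt Φ z0 := hΦ.continuousAt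
    refine hΦc ?_
    have g1 : ∀ᶠ w in 𝓝 (Φ z0), |w.re - s0| < r := by
      have hcc : ContinuousAt (fun w : ℂ => |w.re - s0|) (Φ z0) := by fun_prop
      refine hcc.eventually_lt continuousAt_const ?_
      rw [hs0, sub_self, abs_zero]; exact hr0
    have g2 : ∀ᶠ w in 𝓝 (Φ z0), |w.im - t0| < r := by
      have hcc : ContinuousAt (fun w : ℂ => |w.im - t0|) (Φ z0) := by fun_prop
      refine hcc.eventually_lt continuousAt_const ?_
      rw [ht0, sub_self, abs_zero]; exact hr0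
    exact g1.and g2
  obtain ⟨x, ⟨hx1, hx2, hx3⟩, y, ⟨hy1, hy2, hy3⟩, hne, hGxy⟩ := h1 _ hU
  apply hne
  have hre : (Φ x).re = (Φ y).re := by rw [hΦre, hΦre, hGxy]
  have hkx : κ (Φ x).re (Φ x).im = (α * G x).im := by
    show (α * G (E.symm ⟨(Φ x).re, (Φ x).im⟩)).im = _
    rw [Complex.eta, hleft x hx1]
  have hky : κ (Φ y).re (Φ y).im = (α * G y).im := by
    show (α * G (E.symm ⟨(Φ y).re, (Φ y).im⟩)).im = _
    rw [Complex.eta, hleft y hy1]
  have him : (Φ x).im = (Φ y).im := by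
    rw [abs_lt] at hx3 hy3
    refine hinj (Φ x).re hx2 ⟨by linarith [hx3.1], by linarith [hx3.2]⟩
      ⟨by linarith [hy3.1], by linarith [hy3.2]⟩ ?_
    rw [hkx, hre, hky, hGxy]
  have : Φ x = Φ y := Complex.ext hre him
  rw [← hleft x hx1, ← hleft y hy1, this]

end Pool.Agent.NH62.Thu
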