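import Pool.Agent.NH62.Thu.Expa
import Pool.Agent.NH62.Thu.Rank

set_option autoImplicit false

/-! The barycentric subdivision map is not conjugate to a `C¹` map. -/

noncomputable section

namespace Pool.Agent.NH62.Thu

open OnePoint Set Filter Topology

theorem local_inj_near {f : Sph → Sph} {p : Sph} (h : LocalDegree f p 2) :
    ∀ᶠ x in 𝓝 p, x ≠ p → ∃ V ∈ 𝓝 x, InjOn f V := by
  obtain ⟨φ, ψ, -, -, hp, hφ0, hfp, hψ0, hx⟩ := h
  filter_upwards [φ.open_source.mem_nhds hp] with x hxs hne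
  have hφx : φ x ≠ 0 := by
    intro h0
    apply hne
    exact φ.injOn hxs hp (h0.trans hφ0.symm)
  refine ⟨φ.source ∩ φ ⁻¹' Metric.ball (φ x) ‖φ x‖, ?_, ?_⟩
  · refine inter_mem (φ.open_source.mem_nhds hxs) ?_
    exact (φ.continuousAt hxs) (Metric.ball_mem_nhds _ (norm_pos_iff.2 hφx))
  · rintro a ⟨ha1, ha2⟩ b ⟨hb1, hb2⟩ hab
    have h1 := (hx a ha1).2
    have h2 := (hx b hb1).2
    rw [hab, h2] at h1
    have h3 : (φ b - φ a) * (φ b + φ a) = 0 := by linear_combination h1
    rcases mul_eq_zero.1 h3 with h4 | h4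
    · exact φ.injOn ha1 hb1 (sub_eq_zero.1 h4).symm
    · exfalso
      have h5 : φ b = -φ a := by linear_combination h4
      rw [mem_preimage, Metric.mem_ball, dist_eq_norm] at ha2 hb2
      rw [h5] at hb2
      have h6 : ‖φ a - φ x + (-φ a - φ x)‖ ≤ ‖φ a - φ x‖ + ‖-φ a - φ x‖ := norm_add_le _ _
      have h7 : φ a - φ x + (-φ a - φ x) = (-2 : ℂ) * φ x := by ring
      rw [h7, norm_mul] at h6
      have h8 : ‖(-2 : ℂ)‖ = 2 := by simp
      rw [h8] at h6
      linarith

theorem ff_degree_one : LocalDegree ff ((1 : ℂ) : Sph) 2 := localDegree_of_locQ locQ_one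

/-- The repelling estimate. -/
theorem repel {x : Sph} (h : 1 / 2 ≤ (Xi x).1) :
    3 / 2 * (1 - (Xi x).1) ≤ 1 - (Xi (ff x)).1 := by
  rw [Xi_ff]
  show 3 / 2 * (1 - (Xi x).1) ≤ 1 - (mx (Xi x) - md (Xi x))
  have hT := Xi_mem x
  obtain ⟨h1, h2, h3⟩ := coord_nonneg hT
  have hs := hT.1
  have e1 : mx (Xi x) = (Xi x).1 := by
    unfold mx; simp only [max_def]; split_ifs <;> linarith
  have e2 : md (Xi x) = (Xi x).1 + (Xi x).2.1 + (Xi x).2.2.1 - mx (Xi x) - mn (Xi x) := rfl
  have e3 := (sorted (Xi x)).2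
  rw [e1] at e2 ⊢
  linarith

theorem Xi_one_iff {x : Sph} (h : (Xi x).1 = 1) : x = ((1 : ℂ) : Sph) := by
  apply Xi_injective
  rw [Xi_one]
  have hT := Xi_mem x
  obtain ⟨h1, h2, h3⟩ := coord_nonneg hT
  have hs := hT.1
  have e2 : (Xi x).2.1 = 0 := by linarith
  have e3 : (Xi x).2.2.1 = 0 := by linarith
  have e4 : (Xi x).2.2.2 = 0 := by
    rw [← abs_nonpos_iff, hT.2]
    refine (min_le_right _ _).trans e3.le
  ext
  · exact h
  · exact e2
  · exact e3
  · exact e4

/-- No neighbourhood of the fixed point `1` is mapped into itself. -/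
theorem no_trap {U : Set Sph} (hU : ∀ x ∈ U, ff x ∈ U ∧ 1 / 2 ≤ (Xi x).1) {x : Sph} (hx : x ∈ U) :
    x = ((1 : ℂ) : Sph) := by
  have h1 : ∀ n : ℕ, ff^[n] x ∈ U ∧ (3 / 2) ^ n * (1 - (Xi x).1) ≤ 1 - (Xi (ff^[n] x)).1 := by
    intro n
    induction n with
    | zero => exact ⟨hx, by simp⟩
    | succ n ih =>
      rw [Function.iterate_succ_apply']
      refine ⟨(hU _ ih.1).1, ?_⟩
      have h2 := repel (hU _ ih.1).2
      calc (3 / 2 : ℝ) ^ (n + 1) * (1 - (Xi x).1) = 3 / 2 * ((3 / 2) ^ n * (1 - (Xi x).1)) := by ring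
        _ ≤ 3 / 2 * (1 - (Xi (ff^[n] x)).1) := mul_le_mul_of_nonneg_left ih.2 (by norm_num)
        _ ≤ _ := h2
  have h2 : ∀ n : ℕ, (3 / 2 : ℝ) ^ n * (1 - (Xi x).1) ≤ 1 := by
    intro n
    have h3 := (h1 n).2
    have h4 := (coord_nonneg (Xi_mem (ff^[n] x))).1
    linarith
  have h3 : (Xi x).1 ≤ 1 := (tri_bounds (Xi_mem x)).1.2
  apply Xi_one_iff
  by_contra hne
  have h4 : 0 < 1 - (Xi x).1 := by
    have := lt_of_le_of_ne h3 hne
    linarith
  obtain ⟨n, hn⟩ := pow_unbounded_of_one_lt (1 / (1 - (Xi x).1)) (show (1 : ℝ) < 3 / 2 by norm_num)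
  have h5 := h2 n
  rw [div_lt_iff₀ h4] at hn
  linarith

theorem main (g : Sph → Sph) (hg : IsCk 1 g) : ¬ TopConj ff g := by
  rintro ⟨h, hh⟩
  set p : Sph := h ((1 : ℂ) : Sph) with hp
  obtain ⟨i, hi⟩ : ∃ i, p ∈ dom i := by
    by_cases h0 : p = ∞
    · refine ⟨true, ?_⟩
      show p ≠ ((0 : ℂ) : Sph)
      rw [h0]; exact (coe_ne_infty _).symm
    · exact ⟨false, h0⟩
  have hgp : g p = p := by rw [hp, ← hh, ff_one]
  have hgc : Continuous g := by
    have : g = fun x => h (ff (h.symm x)) := by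
      funext x; rw [hh, h.apply_symm_apply]
    rw [this]
    exact h.continuous.comp (continuous_ff.comp h.symm.continuous)
  set G : ℂ → ℂ := ch i ∘ g ∘ par i with hG
  set z0 : ℂ := ch i p with hz0
  have hpz : par i z0 = p := par_ch i hi
  have hGz0 : G z0 = z0 := by
    show ch i (g (par i z0)) = z0
    rw [hpz, hgp]
  have hgpc : Continuous fun z => g (par i z) := hgc.comp (continuous_par i)
  -- the good neighbourhood
  have hev : ∀ᶠ z in 𝓝 z0, g (par i z) ∈ dom i := by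
    refine ((isOpen_dom i).preimage hgpc).mem_nhds ?_
    show g (par i z0) ∈ dom i
    rw [hpz, hgp]; exact hi
  have hstrict : HasStrictFDerivAt G (fderiv ℝ G z0) z0 := by
    have h1 : ContDiffAt ℝ 1 G z0 := hg p i i hi (by rw [hgp]; exact hi)
    exact h1.hasStrictFDerivAt (by norm_num)
  have hcx : Continuous fun z => h.symm (par i z) := h.symm.continuous.comp (continuous_par i)
  have hx0 : h.symm (par i z0) = ((1 : ℂ) : Sph) := by rw [hpz, hp, h.symm_apply_apply]
  have hzero : fderiv ℝ G z0 = 0 := by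
    refine deriv_zero hstrict ?_ ?_ ?_
    · filter_upwards [hev] with z hz
      exact ContinuousAt.comp (f := fun z => g (par i z)) (continuousAt_ch i hz) hgpc.continuousAt
    · intro U hU
      have hU' : {x : Sph | h x ∈ dom i ∧ ch i (h x) ∈ U} ∈ 𝓝 ((1 : ℂ) : Sph) := by
        have g1 : ∀ᶠ y in 𝓝 p, y ∈ dom i ∧ ch i y ∈ U :=
          Filter.Eventually.and ((isOpen_dom i).mem_nhds hi) ((continuousAt_ch i hi) hU)
        exact h.continuous.continuousAt.eventually g1
      obtain ⟨x, ⟨hx1, hx2⟩, y, ⟨hy1, hy2⟩, hne, hxy⟩ := two_preimages le_rfl ff_degree_one hU'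
      refine ⟨_, hx2, _, hy2, ?_, ?_⟩
      · intro h0
        exact hne (h.injective ((ch_eq_iff i hx1 hy1).1 h0))
      · show ch i (g (par i (ch i (h x)))) = ch i (g (par i (ch i (h y))))
        rw [par_ch i hx1, par_ch i hy1, ← hh, ← hh, hxy]
    · have g1 : ∀ᶠ z in 𝓝 z0, h.symm (par i z) ≠ ((1 : ℂ) : Sph) →
          ∃ V ∈ 𝓝 (h.symm (par i z)), InjOn ff V := by
        have g0 := local_inj_near ff_degree_one
        rw [← hx0] at g0
        have := hcx.continuousAt.eventually g0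
        rwa [hx0] at this
      filter_upwards [g1, hev.eventually_nhds] with z hz1 hz2 hne
      obtain ⟨V, hV, hVi⟩ := hz1 (by
        intro h0
        apply hne
        have : par i z = par i z0 := by
          rw [← hx0] at h0
          exact h.symm.injective h0
        exact par_injective i this)
      refine ⟨{z' | h.symm (par i z') ∈ V ∧ g (par i z') ∈ dom i}, ?_, ?_⟩
      · exact Filter.Eventually.and (hcx.continuousAt hV) hz2
      · rintro a ⟨ha1, ha2⟩ b ⟨hb1, hb2⟩ hab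
        have e1 : g (par i a) = g (par i b) := (ch_eq_iff i ha2 hb2).1 hab
        have e2 : ff (h.symm (par i a)) = ff (h.symm (par i b)) := by
          apply h.injective
          rw [hh, hh, h.apply_symm_apply, h.apply_symm_apply, e1]
        exact par_injective i (h.symm.injective (hVi ha1 hb1 e2))
  -- the fixed point is attracting
  have hd : HasFDerivAt G (0 : ℂ →L[ℝ] ℂ) z0 := by
    have := hstrict.hasFDerivAt
    rwa [hzero] at this
  have hlip : ∀ᶠ z in 𝓝 z0, ‖G z - z0‖ ≤ 1 / 2 * ‖z - z0‖ := by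
    have := hd.isLittleO.bound (show (0 : ℝ) < 1 / 2 by norm_num)
    filter_upwards [this] with z hz
    simpa [hGz0] using hz
  have hhalf : ∀ᶠ z in 𝓝 z0, 1 / 2 ≤ (Xi (h.symm (par i z))).1 := by
    have c1 : Continuous fun z => (Xi (h.symm (par i z))).1 := (continuous_Xi.comp hcx).fst
    have : ∀ᶠ z in 𝓝 z0, 1 / 2 < (Xi (h.symm (par i z))).1 := by
      refine continuousAt_const.eventually_lt c1.continuousAt ?_
      rw [hx0, Xi_one]; norm_num
    exact this.mono fun z hz => hz.le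
  obtain ⟨r, hr, hball⟩ := Metric.eventually_nhds_iff.1 ((hev.and hlip).and hhalf)
  let U : Set Sph := {x | h x ∈ dom i ∧ dist (ch i (h x)) z0 < r}
  have hU : ∀ x ∈ U, ff x ∈ U ∧ 1 / 2 ≤ (Xi x).1 := by
    rintro x ⟨hx1, hx2⟩
    obtain ⟨⟨h1, h2⟩, h3⟩ := hball hx2
    rw [par_ch i hx1] at h1 h3
    refine ⟨⟨?_, ?_⟩, ?_⟩
    · rw [hh]; exact h1
    · rw [hh]
      have h4 : G (ch i (h x)) = ch i (g (h x)) := by
        show ch i (g (par i (ch i (h x)))) = _
        rw [par_ch i hx1]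
      rw [h4] at h2
      rw [dist_eq_norm] at hx2 ⊢
      have := norm_nonneg (ch i (h x) - z0)
      linarith
    · rwa [h.symm_apply_apply] at h3
  have hz1 : dist (z0 + ((r / 2 : ℝ) : ℂ)) z0 < r := by
    rw [dist_eq_norm, add_sub_cancel_left, Complex.norm_real, Real.norm_of_nonneg (by positivity)]
    linarith
  have hx1U : h.symm (par i (z0 + ((r / 2 : ℝ) : ℂ))) ∈ U := by
    refine ⟨?_, ?_⟩
    · rw [h.apply_symm_apply]; exact par_mem_dom i _
    · rw [h.apply_symm_apply, ch_par_same]; exact hz1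
  have h1 := no_trap hU hx1U
  rw [← hx0] at h1
  have h2 := par_injective i (h.symm.injective h1)
  have h3 : ((r / 2 : ℝ) : ℂ) = 0 := by linear_combination h2
  have h4 : r / 2 = 0 := by exact_mod_cast h3
  linarith

/-- There is an expanding Thurston map which is not topologically conjugate to any `C¹` map. -/
theorem exists_not_smooth : ∃ f : Sph → Sph, IsThurston f ∧ IsExpanding f ∧
    ∀ g : Sph → Sph, IsCk 1 g → ¬ TopConj f g :=
  ⟨ff, ff_thurston, ff_expanding, main⟩

end Pool.Agent.NH62.Thu
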