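import Pool.Agent.NH62.Thu.Quo

set_option autoImplicit false

/-! Local normal forms of the quotient map. -/

noncomputable section

namespace Pool.Agent.NH62.Thu

open OnePoint Set Filter Topology

/-- a local normal form of `q` at `p`, of degree `d` -/
def LocQ (p : Sph) (d : ℕ) : Prop :=
  ∃ (j : Bool) (φ : OpenPartialHomeomorph Sph ℂ), OrientPres φ φ.source ∧ p ∈ φ.source ∧
    φ p = 0 ∧ q p ∈ dom j ∧
    ∀ x ∈ φ.source, q x ∈ dom j ∧ ch j (q x) - ch j (q p) = φ x ^ d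

theorem coe_mem_dom_false (z : ℂ) : (z : Sph) ∈ dom false := coe_ne_infty z

theorem ch_false_coe (z : ℂ) : ch false (z : Sph) = z := rfl

theorem ch_true_inv_coe (z : ℂ) : ch true (inv (z : Sph)) = z := by
  show toC (inv (inv (z : Sph))) = z
  rw [inv_inv]; rfl

theorem inv_coe_mem_dom (z : ℂ) : inv (z : Sph) ∈ dom true := by
  show inv (z : Sph) ≠ ((0 : ℂ) : Sph)
  intro h
  have := congrArg inv h
  rw [inv_inv, inv_zero] at this
  exact coe_ne_infty _ this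

/-- The local model at nonzero complex numbers: `q x - q p = Φ x ^ d`. -/
theorem locQ_coe {z₀ : ℂ} (hz₀ : z₀ ≠ 0) (Φ : ℂ → ℂ) (d : ℕ) (hΦ : AnalyticAt ℂ Φ z₀)
    (hd : deriv Φ z₀ ≠ 0) (h0 : Φ z₀ = 0)
    (h : ∀ᶠ z in 𝓝 z₀, rr z - rr z₀ = Φ z ^ d) : LocQ (z₀ : Sph) d := by
  have hP : ∀ᶠ x in 𝓝 (z₀ : Sph), x ≠ ((0 : ℂ) : Sph) ∧ x ≠ ∞ ∧ rr (ch false x) - rr z₀ = Φ (ch false x) ^ d := by
    have e1 : ∀ᶠ x in 𝓝 (z₀ : Sph), x ≠ ((0 : ℂ) : Sph) := by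
      refine isClosed_singleton.isOpen_compl.mem_nhds ?_
      simpa using hz₀
    have e2 : ∀ᶠ x in 𝓝 (z₀ : Sph), x ≠ ∞ := isClosed_infty.isOpen_compl.mem_nhds (coe_ne_infty _)
    have e3 : ∀ᶠ x in 𝓝 (z₀ : Sph), rr (ch false x) - rr z₀ = Φ (ch false x) ^ d :=
      (continuousAt_ch false (coe_mem_dom_false z₀)).eventually h
    filter_upwards [e1, e2, e3] with x h1 h2 h3 using ⟨h1, h2, h3⟩
  obtain ⟨φ, h1, h2, h3, h4⟩ := exists_coord false (z₀ : Sph) (coe_mem_dom_false z₀) Φ hΦ hd h0 _ hP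
  refine ⟨false, φ, h1, h2, h3, ?_, ?_⟩
  · rw [q_coe hz₀]; exact coe_mem_dom_false _
  · intro x hx
    obtain ⟨-, h5, h6, h7, h8⟩ := h4 x hx
    obtain ⟨z, rfl⟩ := ne_infty_iff_exists.1 h7
    have hz : z ≠ 0 := fun h => h6 (by rw [h])
    rw [q_coe hz, q_coe hz₀, h5]
    exact ⟨coe_mem_dom_false _, h8⟩

theorem rr_hasDerivAt {z : ℂ} (hz : z ≠ 0) : HasDerivAt rr (3 * (z ^ 6 - 1) / (2 * z ^ 4)) z := by
  have h3 : z ^ 3 ≠ 0 := pow_ne_zero 3 hz
  have h1 : HasDerivAt (fun z : ℂ => z ^ 3) (3 * z ^ 2) z := by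
    simpa using hasDerivAt_pow 3 z
  have h2 := h1.add (h1.inv h3)
  have h4 := h2.div_const 2
  refine h4.congr_deriv ?_
  field_simp
  ring

theorem rr_analyticAt {z : ℂ} (hz : z ≠ 0) : AnalyticAt ℂ rr z := by
  have h3 : z ^ 3 ≠ 0 := pow_ne_zero 3 hz
  have h1 : AnalyticAt ℂ (fun z : ℂ => z ^ 3) z := analyticAt_id.pow 3
  exact (h1.add (h1.inv h3)).div analyticAt_const two_ne_zero

theorem locQ_generic {z₀ : ℂ} (hz₀ : z₀ ≠ 0) (h6 : z₀ ^ 6 ≠ 1) : LocQ (z₀ : Sph) 1 := by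
  refine locQ_coe hz₀ (fun z => rr z - rr z₀) 1 ((rr_analyticAt hz₀).sub analyticAt_const) ?_
    (by simp) (Eventually.of_forall fun z => by simp)
  have h1 := (rr_hasDerivAt hz₀).sub_const (rr z₀)
  rw [h1.deriv]
  refine div_ne_zero (mul_ne_zero (by norm_num) (sub_ne_zero.2 h6)) ?_
  exact mul_ne_zero two_ne_zero (pow_ne_zero 4 hz₀)

/-- an analytic square root of `1 / (2 e z³)`, where `e z₀³ = 1` -/
theorem locQ_double {z₀ e : ℂ} (he : e ^ 2 = 1) (hz₀ : z₀ ^ 3 = e) (t : ℂ) (ht : t ^ 2 = e) :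
    LocQ (z₀ : Sph) 2 := by
  have he0 : e ≠ 0 := by
    intro h; rw [h] at he; norm_num at he
  have hz0 : z₀ ≠ 0 := by
    intro h; rw [h] at hz₀; exact he0 (by rw [← hz₀]; norm_num)
  have hval : 2 * e * z₀ ^ 3 = 2 := by rw [hz₀]; linear_combination 2 * he
  have hsl : 2 * e * z₀ ^ 3 ∈ Complex.slitPlane := by
    rw [hval]; exact Complex.ofNat_mem_slitPlane 2
  let s : ℂ → ℂ := fun z => Complex.exp (-(1 / 2) * Complex.log (2 * e * z ^ 3))
  have hs_an : AnalyticAt ℂ s z₀ := by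
    have h1 : AnalyticAt ℂ (fun z : ℂ => 2 * e * z ^ 3) z₀ :=
      analyticAt_const.mul (analyticAt_id.pow 3)
    exact (analyticAt_const.mul (h1.clog hsl)).cexp
  have hs_sq : ∀ z : ℂ, z ≠ 0 → s z ^ 2 = (2 * e * z ^ 3)⁻¹ := by
    intro z hz
    have h1 : 2 * e * z ^ 3 ≠ 0 := mul_ne_zero (mul_ne_zero two_ne_zero he0) (pow_ne_zero 3 hz)
    show Complex.exp _ ^ 2 = _
    rw [← Complex.exp_nat_mul]
    have : ((2 : ℕ) : ℂ) * (-(1 / 2) * Complex.log (2 * e * z ^ 3)) = -Complex.log (2 * e * z ^ 3) := by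
      push_cast; ring
    rw [this, Complex.exp_neg, Complex.exp_log h1]
  have hs0 : s z₀ ≠ 0 := Complex.exp_ne_zero _
  have hpoly : AnalyticAt ℂ (fun z : ℂ => z ^ 3 - e) z₀ := (analyticAt_id.pow 3).sub analyticAt_const
  refine locQ_coe hz0 (fun z => t * ((z ^ 3 - e) * s z)) 2
    (analyticAt_const.mul (hpoly.mul hs_an)) ?_ ?_ ?_
  · have h1 : HasDerivAt (fun z : ℂ => z ^ 3 - e) (3 * z₀ ^ 2) z₀ := by
      simpa using (hasDerivAt_pow 3 z₀).sub_const e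
    have h2 := (h1.mul hs_an.differentiableAt.hasDerivAt).const_mul t
    have h3 : deriv (fun z => t * ((z ^ 3 - e) * s z)) z₀
        = t * (3 * z₀ ^ 2 * s z₀ + (z₀ ^ 3 - e) * deriv s z₀) := h2.deriv
    rw [h3, hz₀, sub_self, zero_mul, add_zero]
    have ht0 : t ≠ 0 := by
      intro h; rw [h] at ht; exact he0 (by rw [← ht]; norm_num)
    exact mul_ne_zero ht0 (mul_ne_zero (mul_ne_zero (by norm_num) (pow_ne_zero 2 hz0)) hs0)
  · simp [hz₀]
  · filter_upwards [isOpen_ne.mem_nhds hz0] with z hz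
    have hz3 : z ^ 3 ≠ 0 := pow_ne_zero 3 hz
    have e1 : (t * ((z ^ 3 - e) * s z)) ^ 2 = e * ((z ^ 3 - e) ^ 2 * s z ^ 2) := by
      rw [← ht]; ring
    rw [e1, hs_sq z hz]
    unfold rr
    rw [hz₀]
    have he' : e⁻¹ = e := inv_eq_of_mul_eq_one_right (by rw [← pow_two]; exact he)
    rw [mul_inv, mul_inv, he']
    field_simp
    linear_combination (-(e ^ 2 + 1) + 2 * z ^ 3 * e - z ^ 6) * he

theorem locQ_infty_aux : ∃ Φ : ℂ → ℂ, AnalyticAt ℂ Φ 0 ∧ deriv Φ 0 ≠ 0 ∧ Φ 0 = 0 ∧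
    ∀ z : ℂ, ‖z‖ < 1 → uu z = Φ z ^ 3 := by
  let g : ℂ → ℂ := fun z => Complex.exp ((1 / 3) * Complex.log (2 / (1 + z ^ 6)))
  have hg : AnalyticAt ℂ g 0 := by
    have h0 : (1 : ℂ) + 0 ^ 6 ≠ 0 := by norm_num
    have h1 : AnalyticAt ℂ (fun z : ℂ => 2 / (1 + z ^ 6)) 0 :=
      analyticAt_const.div (analyticAt_const.add (analyticAt_id.pow 6)) h0
    have h2 : (fun z : ℂ => 2 / (1 + z ^ 6)) 0 ∈ Complex.slitPlane := by
      simp only [ne_eq, OfNat.ofNat_ne_zero, not_false_eq_true, zero_pow, add_zero, div_one]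
      exact Complex.ofNat_mem_slitPlane 2
    exact (analyticAt_const.mul (h1.clog h2)).cexp
  refine ⟨fun z => z * g z, analyticAt_id.mul hg, ?_, by simp, ?_⟩
  · have h1 := (hasDerivAt_id (0 : ℂ)).mul hg.differentiableAt.hasDerivAt
    have h2 : deriv (fun z => z * g z) 0 = 1 * g 0 + id (0 : ℂ) * deriv g 0 := h1.deriv
    rw [h2]
    simp only [one_mul, id, zero_mul, add_zero]
    exact Complex.exp_ne_zero _
  · intro z hz
    have h1 := one_add_pow_ne hz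
    have h2 : (2 : ℂ) / (1 + z ^ 6) ≠ 0 := div_ne_zero two_ne_zero h1
    rw [mul_pow]
    show uu z = z ^ 3 * Complex.exp _ ^ 3
    rw [← Complex.exp_nat_mul]
    have : ((3 : ℕ) : ℂ) * (1 / 3 * Complex.log (2 / (1 + z ^ 6))) = Complex.log (2 / (1 + z ^ 6)) := by
      push_cast; ring
    rw [this, Complex.exp_log h2]
    unfold uu; ring

theorem locQ_zero : LocQ ((0 : ℂ) : Sph) 3 := by
  obtain ⟨Φ, h1, h2, h3, h4⟩ := locQ_infty_aux
  have hP : ∀ᶠ x in 𝓝 ((0 : ℂ) : Sph), x ≠ ∞ ∧ ‖ch false x‖ < 1 := by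
    have e2 : ∀ᶠ x in 𝓝 ((0 : ℂ) : Sph), x ≠ ∞ :=
      isClosed_infty.isOpen_compl.mem_nhds (coe_ne_infty _)
    have e3 : ∀ᶠ x in 𝓝 ((0 : ℂ) : Sph), ‖ch false x‖ < 1 := by
      have h5 := (continuousAt_ch false (coe_mem_dom_false 0)).norm
      refine h5.eventually (gt_mem_nhds ?_)
      show ‖ch false ((0 : ℂ) : Sph)‖ < 1
      rw [ch_false_coe]; simp
    filter_upwards [e2, e3] with x h1 h2 using ⟨h1, h2⟩
  obtain ⟨φ, a1, a2, a3, a4⟩ := exists_coord false ((0 : ℂ) : Sph) (coe_mem_dom_false 0) Φ h1 h2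
    (by rw [ch_false_coe]; exact h3) _ hP
  have hq0 : q ((0 : ℂ) : Sph) = inv ((0 : ℂ) : Sph) := by rw [q_zero, inv_zero]
  refine ⟨true, φ, a1, a2, a3, ?_, ?_⟩
  · rw [hq0]; exact inv_coe_mem_dom 0
  · intro x hx
    obtain ⟨-, h5, h6, h7⟩ := a4 x hx
    obtain ⟨z, rfl⟩ := ne_infty_iff_exists.1 h6
    rw [ch_false_coe] at h7 h5
    rw [q_eq_inv_uu h7, hq0, ch_true_inv_coe, ch_true_inv_coe, h5, sub_zero]
    exact ⟨inv_coe_mem_dom _, h4 z h7⟩

theorem locQ_infty : LocQ ∞ 3 := by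
  obtain ⟨Φ, h1, h2, h3, h4⟩ := locQ_infty_aux
  have hdom : (∞ : Sph) ∈ dom true := by rw [← inv_zero]; exact inv_coe_mem_dom 0
  have hch : ch true ∞ = 0 := by rw [← inv_zero, ch_true_inv_coe]
  have hP : ∀ᶠ x in 𝓝 (∞ : Sph), x ≠ ((0 : ℂ) : Sph) ∧ ‖ch true x‖ < 1 := by
    have e2 : ∀ᶠ x in 𝓝 (∞ : Sph), x ≠ ((0 : ℂ) : Sph) :=
      isClosed_singleton.isOpen_compl.mem_nhds (infty_ne_coe _)
    have e3 : ∀ᶠ x in 𝓝 (∞ : Sph), ‖ch true x‖ < 1 := by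
      have h5 := (continuousAt_ch true hdom).norm
      refine h5.eventually (gt_mem_nhds ?_)
      show ‖ch true ∞‖ < 1
      rw [hch]; simp
    filter_upwards [e2, e3] with x h1 h2 using ⟨h1, h2⟩
  obtain ⟨φ, a1, a2, a3, a4⟩ := exists_coord true ∞ hdom Φ (by rw [hch]; exact h1)
    (by rw [hch]; exact h2) (by rw [hch]; exact h3) _ hP
  have hq0 : q ∞ = inv ((0 : ℂ) : Sph) := by rw [q_infty, inv_zero]
  refine ⟨true, φ, a1, a2, a3, ?_, ?_⟩
  · rw [hq0]; exact inv_coe_mem_dom 0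
  · intro x hx
    obtain ⟨-, h5, h6, h7⟩ := a4 x hx
    have hx' : inv x ≠ ∞ := by
      intro h
      have := congrArg inv h
      rw [inv_inv, inv_infty] at this
      exact h6 this
    obtain ⟨z, hz⟩ := ne_infty_iff_exists.1 hx'
    have hxz : x = inv (z : Sph) := by rw [hz, inv_inv]
    rw [hxz, ch_true_inv_coe] at h7 h5
    rw [hxz, q_inv, q_eq_inv_uu h7, hq0, ch_true_inv_coe, ch_true_inv_coe, h5, sub_zero]
    exact ⟨inv_coe_mem_dom _, h4 z h7⟩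

/-- the eight critical points -/
def Sing : Set Sph := {x | x = ∞ ∨ ∃ z : ℂ, x = (z : Sph) ∧ (z = 0 ∨ z ^ 6 = 1)}

theorem locQ_all (p : Sph) : (p ∉ Sing ∧ LocQ p 1) ∨ ∃ d, 1 ≤ d ∧ LocQ p d := by
  induction p using OnePoint.rec with
  | infty => exact Or.inr ⟨3, by norm_num, locQ_infty⟩
  | coe z =>
    by_cases hz : z = 0
    · subst hz; exact Or.inr ⟨3, by norm_num, locQ_zero⟩
    · by_cases h6 : z ^ 6 = 1
      · right
        have h1 : (z ^ 3 - 1) * (z ^ 3 + 1) = 0 := by linear_combination h6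
        rcases mul_eq_zero.1 h1 with h2 | h2
        · exact ⟨2, by norm_num, locQ_double (e := 1) (by norm_num) (sub_eq_zero.1 h2) 1 (by norm_num)⟩
        · exact ⟨2, by norm_num, locQ_double (e := -1) (by norm_num) (eq_neg_of_add_eq_zero_left h2)
            Complex.I (by simp)⟩
      · left
        refine ⟨?_, locQ_generic hz h6⟩
        rintro (h | ⟨w, hw, h⟩)
        · exact coe_ne_infty _ h
        · have := OnePoint.coe_injective hw
          subst this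
          rcases h with h | h
          · exact hz h
          · exact h6 h

theorem locQ_one : LocQ ((1 : ℂ) : Sph) 2 :=
  locQ_double (e := 1) (by norm_num) (by norm_num) 1 (by norm_num)

end Pool.Agent.NH62.Thu
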