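import Pool.Agent.NH62.Thu.Xi
import Pool.Agent.NH62.Thu.QLoc

set_option autoImplicit false

/-! The barycentric subdivision map of the sphere, and its factorisation. -/

noncomputable section

namespace Pool.Agent.NH62.Thu

open OnePoint Set Filter Topology

/-- The barycentric subdivision map of the sphere. -/
def ff (x : Sph) : Sph := zeta (bary (Xi x))

theorem Xi_ff (x : Sph) : Xi (ff x) = bary (Xi x) := Xi_zeta (bary_mem (Xi_mem x))

theorem Xi_injective : Function.Injective Xi := fun x y h => by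
  rw [← zeta_Xi x, h, zeta_Xi]

theorem ff_rot (x : Sph) : ff (rot x) = ff x := by
  unfold ff; rw [Xi_rot, bary_cyc]

theorem ff_inv (x : Sph) : ff (inv x) = ff x := by
  unfold ff; rw [Xi_inv, bary_tau]

/-- the section -/
def sect (y : Sph) : Sph := zeta (sec (Xi y))

theorem Xi_sect (y : Sph) : Xi (sect y) = sec (Xi y) := Xi_zeta (sec_mem (Xi_mem y))

theorem ff_sect (y : Sph) : ff (sect y) = y := by
  unfold ff
  rw [Xi_sect, bary_sec (Xi_mem y), zeta_Xi]

theorem ff_surjective : Function.Surjective ff := fun y => ⟨_, ff_sect y⟩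

theorem continuous_ff : Continuous ff := by
  have h1 : Continuous fun p : Tri => (⟨bary p.1, bary_mem p.2⟩ : Tri) :=
    continuous_bary.subtype_mk _
  exact XiH.symm.continuous.comp (h1.comp XiH.continuous)

theorem exists_rep (x : Sph) : ∃ x', q x' = q x ∧ ff x' = ff x ∧ Srt (Xi x') := by
  rcases exists_srt (Xi x) with h | h | h | h | h | h
  · exact ⟨x, rfl, rfl, h⟩
  · exact ⟨rot x, q_rot x, ff_rot x, by rw [Xi_rot]; exact h⟩
  · exact ⟨rot (rot x), by rw [q_rot, q_rot], by rw [ff_rot, ff_rot], by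
      rw [Xi_rot, Xi_rot]; exact h⟩
  · exact ⟨inv x, q_inv x, ff_inv x, by rw [Xi_inv]; exact h⟩
  · exact ⟨rot (inv x), by rw [q_rot, q_inv], by rw [ff_rot, ff_inv], by
      rw [Xi_rot, Xi_inv]; exact h⟩
  · exact ⟨rot (rot (inv x)), by rw [q_rot, q_rot, q_inv], by rw [ff_rot, ff_rot, ff_inv], by
      rw [Xi_rot, Xi_rot, Xi_inv]; exact h⟩

theorem q_of_ff {x y : Sph} (h : ff x = ff y) : q x = q y := by
  obtain ⟨x', hx1, hx2, hx3⟩ := exists_rep x
  obtain ⟨y', hy1, hy2, hy3⟩ := exists_rep y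
  have h1 : bary (Xi x') = bary (Xi y') := by
    rw [← Xi_ff, ← Xi_ff, hx2, hy2, h]
  rcases bary_eq (Xi_mem x') (Xi_mem y') hx3 hy3 h1 with h2 | h2 | h2
  · have := Xi_injective h2
    rw [← hx1, ← hy1, this]
  · rw [← Xi_inv] at h2
    have := Xi_injective h2
    rw [← hx1, ← hy1, this, q_inv]
  · rw [← Xi_inv, ← Xi_rot] at h2
    have := Xi_injective h2
    rw [← hx1, ← hy1, this, q_rot, q_inv]

theorem ff_of_q {x y : Sph} (h : q x = q y) : ff x = ff y := by
  rcases q_eq h with (h | h | h) | (h | h | h) <;> rw [h] <;> simp [ff_rot, ff_inv]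

/-- the homeomorphism `ν` with `ν ∘ ff = q` -/
def nu (y : Sph) : Sph := q (sect y)

theorem nu_ff (x : Sph) : nu (ff x) = q x := q_of_ff (ff_sect (ff x))

theorem nu_injective : Function.Injective nu := fun y y' h => by
  rw [← ff_sect y, ← ff_sect y']; exact ff_of_q h

theorem nu_surjective : Function.Surjective nu := fun z => by
  obtain ⟨x, rfl⟩ := q_surjective z
  exact ⟨ff x, nu_ff x⟩

theorem continuous_nu : Continuous nu := by
  have h1 : Topology.IsQuotientMap ff :=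
    Topology.IsQuotientMap.of_surjective_continuous ff_surjective continuous_ff
  rw [h1.continuous_iff]
  have : nu ∘ ff = q := funext nu_ff
  rw [this]; exact continuous_q

/-- `nu` as a homeomorphism -/
def nuH : Sph ≃ₜ Sph :=
  Continuous.homeoOfEquivCompactToT2 (f := Equiv.ofBijective nu ⟨nu_injective, nu_surjective⟩)
    continuous_nu

theorem nuH_apply (x : Sph) : nuH x = nu x := rfl

/-! ### The orientation -/

theorem radial {k : ℂ → ℝ} {y : ℂ} (hk : DifferentiableAt ℝ k y)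
    (hh : ∀ s : ℝ, 0 < s → k ((s : ℂ) * y) = k y) (h0 : k y ≠ 0) :
    ∃ L : ℂ →L[ℝ] ℂ, HasFDerivAt (fun z => (k z : ℂ) * z) L y ∧ 0 < det2 L := by
  have hD := hk.hasFDerivAt
  set D := fderiv ℝ k y with hDdef
  have hDy : D y = 0 := by
    have h1 : HasDerivAt (fun s : ℝ => (s : ℂ) * y) y 1 := by
      have := (Complex.ofRealCLM.hasDerivAt (x := (1 : ℝ))).mul_const y
      simpa using this
    have hD' : HasFDerivAt k D (((1 : ℝ) : ℂ) * y) := by simpa using hD
    have h2 : HasDerivAt (k ∘ fun s : ℝ => (s : ℂ) * y) (D y) 1 := hD'.comp_hasDerivAt 1 h1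
    have h3 : HasDerivAt (k ∘ fun s : ℝ => (s : ℂ) * y) 0 1 := by
      refine (hasDerivAt_const (1 : ℝ) (k y)).congr_of_eventuallyEq ?_
      filter_upwards [lt_mem_nhds (zero_lt_one' ℝ)] with s hs
      exact hh s hs
    exact h2.unique h3
  have h4 : HasFDerivAt (fun z => (k z : ℂ)) (Complex.ofRealCLM.comp D) y :=
    (Complex.ofRealCLM.hasFDerivAt).comp y hD
  have h5 := h4.mul (hasFDerivAt_id (𝕜 := ℝ) y)
  refine ⟨_, h5, ?_⟩
  have hDy' : y.re * D 1 + y.im * D Complex.I = 0 := by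
    have : y = y.re • (1 : ℂ) + y.im • Complex.I := by apply Complex.ext <;> simp
    rw [this, map_add, _root_.map_smul, _root_.map_smul] at hDy
    simpa using hDy
  unfold det2
  simp only [_root_.add_apply, _root_.smul_apply, ContinuousLinearMap.comp_apply,
    ContinuousLinearMap.id_apply, smul_eq_mul, Complex.ofRealCLM_apply, id, Complex.add_re,
    Complex.add_im, Complex.mul_re, Complex.mul_im, Complex.ofReal_re, Complex.ofReal_im,
    Complex.one_re, Complex.one_im, Complex.I_re, Complex.I_im]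
  have : 0 < k y ^ 2 := by positivity
  nlinarith [hDy', congrArg (fun r => k y * r) hDy']

/-- the linear part of the subdivision -/
def LB : ℂ →L[ℝ] ℂ :=
  (⟨5 / 12, -(Real.sqrt 3 / 12)⟩ : ℂ) • (ContinuousLinearMap.id ℝ ℂ)
    + (1 / 6 : ℂ) • (Complex.conjCLE : ℂ →L[ℝ] ℂ)

theorem LB_apply (w : ℂ) : LB w = ⟨7 / 12 * w.re + Real.sqrt 3 / 12 * w.im,
    -(Real.sqrt 3 / 12) * w.re + 1 / 4 * w.im⟩ := by
  have e1 : ((1 / 6 : ℂ)).re = 1 / 6 := by norm_num
  have e2 : ((1 / 6 : ℂ)).im = 0 := by norm_num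
  apply Complex.ext
  · simp only [LB, _root_.add_apply, _root_.smul_apply,
      ContinuousLinearMap.id_apply, smul_eq_mul, Complex.add_re, Complex.mul_re, e1, e2,
      ContinuousLinearEquiv.coe_coe, Complex.conjCLE_apply, Complex.conj_re, Complex.conj_im]
    ring
  · simp only [LB, _root_.add_apply, _root_.smul_apply,
      ContinuousLinearMap.id_apply, smul_eq_mul, Complex.add_im, Complex.mul_im, e1, e2,
      ContinuousLinearEquiv.coe_coe, Complex.conjCLE_apply, Complex.conj_re, Complex.conj_im]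
    ring

theorem det2_LB : 0 < det2 LB := by
  unfold det2
  rw [LB_apply, LB_apply]
  simp only [Complex.one_re, Complex.one_im, Complex.I_re, Complex.I_im]
  have := s3
  nlinarith

/-- the subdivision in the complex coordinate -/
def BB (w : ℂ) : ℂ := LB w + ⟨5 / 12, Real.sqrt 3 / 12⟩

theorem BB_ww {p : Quad} (h : p.1 + p.2.1 + p.2.2.1 = 1) : BB (ww p) = ww (sec p) := by
  have h3 := s3
  unfold BB
  rw [LB_apply]
  apply Complex.ext
  · rw [ww_re (sec p), Complex.add_re]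
    simp only [ww_re, ww_im, sec]
    linear_combination ((p.2.1 - p.2.2.1) / 24) * h3 - (5 / 12) * h
  · rw [ww_im (sec p), Complex.add_im]
    simp only [ww_re, ww_im, sec]
    linear_combination (-(Real.sqrt 3) / 12) * h

def k1 (y : ℂ) : ℝ := ‖y‖ / (-2 * X2 y)
def k2 (y : ℂ) : ℝ := -2 * X2 y / ‖y‖

/-- an open tile -/
def Tile : Set ℂ := {y | X1 y < X0 y ∧ X2 y < X1 y ∧ ‖y‖ < 1}

theorem isOpen_Tile : IsOpen Tile := by
  obtain ⟨h0, h1, h2⟩ := continuous_X
  exact (isOpen_lt h1 h0).inter ((isOpen_lt h2 h1).inter (isOpen_lt continuous_norm continuous_const))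

theorem tile_vals {y : ℂ} (hy : y ∈ Tile) : mm y = -X2 y ∧ X2 y < 0 ∧ y ≠ 0 := by
  obtain ⟨h1, h2, -⟩ := hy
  have h := X_sum y
  refine ⟨?_, by linarith, ?_⟩
  · unfold mm
    rw [min_eq_right h1.le, min_eq_right h2.le]
  · rintro rfl
    simp [X0, X1] at h1

theorem nu_tile {y : ℂ} (hy : y ∈ Tile) :
    ∃ w z : ℂ, w = BB (k1 y * y) ∧ z = k2 w * w ∧ X2 w < 0 ∧ w ≠ 0 ∧ z ≠ 0 ∧ ‖z‖ < 1 ∧
      nu (y : Sph) = (rr z : Sph) := by
  obtain ⟨hm, hX, hy0⟩ := tile_vals hy
  obtain ⟨hy1, hy2, hy3⟩ := hy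
  have hn := norm_pos_iff.2 hy0
  set p := xi y with hp
  have hpT : p ∈ Tri := Xi_mem (y : Sph)
  have hc : p.2.2.1 = (1 - ‖y‖) / 3 := by
    show 1 / 3 + gg y / 3 * (X2 y / mm y) = _
    rw [(gt_le hy3.le).1, hm, div_neg, div_self hX.ne]; ring
  have ht : p.2.2.2 = (1 - ‖y‖) / 3 := by
    show tt y = _
    rw [(gt_le hy3.le).2]
  have hwp : ww p = k1 y * y := by
    rw [hp, ww_xi, (gt_le hy3.le).1, hm]
    congr 2
    unfold k1; ring
  have hw : ww (sec p) = BB (k1 y * y) := by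
    rw [← hwp, BB_ww hpT.1]
  have hsm := sec_mem hpT
  have hX2 : X2 (ww (sec p)) = (p.2.2.1 - 1) / 2 := by
    rw [(X_ww hsm.1).2.2]
    show (3 * (p.2.2.1 / 3) - 1) / 2 = _
    ring
  have hX2neg : X2 (ww (sec p)) < 0 := by rw [hX2, hc]; linarith
  have hw0 : ww (sec p) ≠ 0 := by
    intro h0
    rw [h0] at hX2neg
    simp [X2] at hX2neg
  have hwn := norm_pos_iff.2 hw0
  have hz : sect (y : Sph) = ((k2 (ww (sec p)) * ww (sec p) : ℂ) : Sph) := by
    show zeta (sec p) = _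
    unfold zeta
    rw [if_neg hw0]
    have e : (sec p).2.2.2 = p.2.2.1 / 3 := by
      show (if p.2.2.2 ≤ 0 then -(p.2.2.1 / 3) else p.2.2.1 / 3) = _
      rw [if_neg]
      rw [ht]; linarith
    have e2 : rho (sec p).2.2.2 = -2 * X2 (ww (sec p)) := by
      rw [e, hX2]
      unfold rho
      rw [if_pos (by rw [hc]; linarith)]; ring
    rw [e2]; rfl
  have hzn : ‖(k2 (ww (sec p)) * ww (sec p) : ℂ)‖ = -2 * X2 (ww (sec p)) := by
    have hk : 0 ≤ k2 (ww (sec p)) := by
      unfold k2; exact div_nonneg (by linarith) hwn.le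
    rw [norm_mul, Complex.norm_real, Real.norm_of_nonneg hk]
    unfold k2; field_simp
  have hz0 : (k2 (ww (sec p)) * ww (sec p) : ℂ) ≠ 0 := by
    rw [← norm_pos_iff, hzn]; linarith
  refine ⟨ww (sec p), _, hw, rfl, hX2neg, hw0, hz0, ?_, ?_⟩
  · rw [hzn, hX2, hc]; linarith
  · unfold nu
    rw [hz, q_coe hz0]

theorem y0_mem : (⟨1 / 5, 1 / 10⟩ : ℂ) ∈ Tile := by
  have h3 := s3
  have h0 : 0 ≤ Real.sqrt 3 := Real.sqrt_nonneg 3
  have h4 : Real.sqrt 3 < 2 := by nlinarith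
  have h5 : 1 < Real.sqrt 3 := by nlinarith
  refine ⟨?_, ?_, ?_⟩
  · show -(1 / 5) / 2 + Real.sqrt 3 / 2 * (1 / 10) < 1 / 5
    linarith
  · show -(1 / 5) / 2 - Real.sqrt 3 / 2 * (1 / 10) < -(1 / 5) / 2 + Real.sqrt 3 / 2 * (1 / 10)
    linarith
  · have h : ‖(⟨1 / 5, 1 / 10⟩ : ℂ)‖ ^ 2 = 1 / 20 := by
      rw [← Complex.normSq_eq_norm_sq, Complex.normSq_apply]; norm_num
    have h' := norm_nonneg (⟨1 / 5, 1 / 10⟩ : ℂ)
    nlinarith

theorem k1_smul {s : ℝ} (hs : 0 < s) (y : ℂ) : k1 ((s : ℂ) * y) = k1 y := by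
  unfold k1
  rw [X2_smul, norm_mul, Complex.norm_real, Real.norm_of_nonneg hs.le]
  have : -2 * (s * X2 y) = s * (-2 * X2 y) := by ring
  rw [this, mul_div_mul_left _ _ hs.ne']

theorem k2_smul {s : ℝ} (hs : 0 < s) (y : ℂ) : k2 ((s : ℂ) * y) = k2 y := by
  unfold k2
  rw [X2_smul, norm_mul, Complex.norm_real, Real.norm_of_nonneg hs.le]
  have : -2 * (s * X2 y) = s * (-2 * X2 y) := by ring
  rw [this, mul_div_mul_left _ _ hs.ne']

theorem differentiable_X2 : Differentiable ℝ X2 := by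
  unfold X2
  have h1 : Differentiable ℝ fun z : ℂ => z.re := Complex.reCLM.differentiable
  have h2 : Differentiable ℝ fun z : ℂ => z.im := Complex.imCLM.differentiable
  have h3 : Differentiable ℝ fun z : ℂ => (-1 / 2 : ℝ) * z.re := h1.const_mul _
  have h4 : Differentiable ℝ fun z : ℂ => (Real.sqrt 3 / 2) * z.im := h2.const_mul _
  have h5 : (fun z : ℂ => -z.re / 2 - Real.sqrt 3 / 2 * z.im)
      = fun z : ℂ => (-1 / 2 : ℝ) * z.re - (Real.sqrt 3 / 2) * z.im := by
    funext z; ring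
  rw [h5]
  exact h3.sub h4

theorem diff_norm {y : ℂ} (hy : y ≠ 0) : DifferentiableAt ℝ (fun z : ℂ => ‖z‖) y :=
  DifferentiableAt.norm ℝ (f := fun z : ℂ => z) differentiableAt_id hy

theorem diff_div {a b : ℂ → ℝ} {y : ℂ} (ha : DifferentiableAt ℝ a y) (hb : DifferentiableAt ℝ b y)
    (h : b y ≠ 0) : DifferentiableAt ℝ (fun z => a z / b z) y := by
  have h1 : DifferentiableAt ℝ (fun z => (b z)⁻¹) y := hb.inv h
  have h2 : DifferentiableAt ℝ (fun z => a z * (b z)⁻¹) y := ha.mul h1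
  exact h2

theorem rr_ne_zero {z : ℂ} (hz : z ≠ 0) (h : ‖z‖ < 1) : rr z ≠ 0 := by
  have h1 := one_add_pow_ne h
  intro h0
  apply h1
  unfold rr at h0
  have h3 : z ^ 3 ≠ 0 := pow_ne_zero 3 hz
  field_simp at h0
  linear_combination h0

theorem det2_hasDerivAt {G : ℂ → ℂ} {c z : ℂ} (h : HasDerivAt G c z) (hc : c ≠ 0) :
    ∃ L : ℂ →L[ℝ] ℂ, HasFDerivAt G L z ∧ 0 < det2 L := by
  refine ⟨_, h.hasFDerivAt.restrictScalars ℝ, ?_⟩
  unfold det2
  simp only [ContinuousLinearMap.coe_restrictScalars', ContinuousLinearMap.toSpanSingleton_apply,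
    smul_eq_mul, one_mul, Complex.mul_re, Complex.mul_im, Complex.I_re, Complex.I_im]
  have : 0 < Complex.normSq c := Complex.normSq_pos.2 hc
  rw [Complex.normSq_apply] at this
  linarith

theorem det2_chain {G F : ℂ → ℂ} {z : ℂ}
    (hG : ∃ L : ℂ →L[ℝ] ℂ, HasFDerivAt G L (F z) ∧ 0 < det2 L)
    (hF : ∃ L : ℂ →L[ℝ] ℂ, HasFDerivAt F L z ∧ 0 < det2 L) :
    ∃ L : ℂ →L[ℝ] ℂ, HasFDerivAt (G ∘ F) L z ∧ 0 < det2 L := by
  obtain ⟨L, h1, h2⟩ := hG
  obtain ⟨K, h3, h4⟩ := hF
  refine ⟨L.comp K, h1.comp z h3, ?_⟩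
  rw [det2_comp]; exact mul_pos h2 h4

theorem nu_deriv : ∃ y : ℂ, y ≠ 0 ∧ nu (y : Sph) ∈ dom false ∧ nu (y : Sph) ∈ dom true ∧
    ∃ L : ℂ →L[ℝ] ℂ, HasFDerivAt (ch false ∘ nu ∘ par false) L y ∧ 0 < det2 L := by
  set y : ℂ := ⟨1 / 5, 1 / 10⟩ with hy
  have hyT : y ∈ Tile := y0_mem
  obtain ⟨hm, hX, hy0⟩ := tile_vals hyT
  obtain ⟨w, z, hw, hz, hXw, hw0, hz0, hz1, hnu⟩ := nu_tile hyT
  refine ⟨y, hy0, ?_, ?_, ?_⟩
  · rw [hnu]; exact coe_mem_dom_false _
  · rw [hnu]
    show ((rr z : ℂ) : Sph) ≠ ((0 : ℂ) : Sph)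
    intro h
    exact rr_ne_zero hz0 hz1 (OnePoint.coe_injective h)
  · have hM : (ch false ∘ nu ∘ par false) =ᶠ[𝓝 y]
        (rr ∘ (fun w => (k2 w : ℂ) * w) ∘ BB ∘ (fun y => (k1 y : ℂ) * y)) := by
      filter_upwards [isOpen_Tile.mem_nhds hyT] with y' hy'
      obtain ⟨w', z', hw', hz', -, -, -, -, hnu'⟩ := nu_tile hy'
      show toC (nu (y' : Sph)) = rr (k2 (BB (k1 y' * y')) * BB (k1 y' * y'))
      rw [hnu', ← hw', ← hz']; rfl
    have hn := norm_pos_iff.2 hy0
    have hwn := norm_pos_iff.2 hw0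
    have d1 : ∃ L : ℂ →L[ℝ] ℂ, HasFDerivAt (fun y => (k1 y : ℂ) * y) L y ∧ 0 < det2 L := by
      refine radial ?_ (fun s hs => k1_smul hs y) ?_
      · unfold k1
        have e1 : DifferentiableAt ℝ (fun z : ℂ => ‖z‖) y := diff_norm hy0
        have e2 : DifferentiableAt ℝ (fun z : ℂ => -2 * X2 z) y :=
          (differentiable_X2 y).const_mul (-2 : ℝ)
        have : -2 * X2 y > 0 := by linarith
        exact diff_div e1 e2 this.ne'
      · unfold k1
        have : -2 * X2 y > 0 := by linarith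
        exact (div_pos hn this).ne'
    have d2 : ∃ L : ℂ →L[ℝ] ℂ, HasFDerivAt BB L ((fun y : ℂ => (k1 y : ℂ) * y) y) ∧ 0 < det2 L :=
      ⟨LB, LB.hasFDerivAt.add_const _, det2_LB⟩
    have d3 : ∃ L : ℂ →L[ℝ] ℂ, HasFDerivAt (fun w => (k2 w : ℂ) * w) L w ∧ 0 < det2 L := by
      refine radial ?_ (fun s hs => k2_smul hs w) ?_
      · unfold k2
        have e1 : DifferentiableAt ℝ (fun z : ℂ => ‖z‖) w := diff_norm hw0
        have e2 : DifferentiableAt ℝ (fun z : ℂ => -2 * X2 z) w :=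
          (differentiable_X2 w).const_mul (-2 : ℝ)
        exact diff_div e2 e1 hwn.ne'
      · unfold k2
        have : -2 * X2 w > 0 := by linarith
        exact (div_pos this hwn).ne'
    have d4 : ∃ L : ℂ →L[ℝ] ℂ, HasFDerivAt rr L z ∧ 0 < det2 L := by
      refine det2_hasDerivAt (rr_hasDerivAt hz0) ?_
      refine div_ne_zero (mul_ne_zero (by norm_num) ?_) (mul_ne_zero two_ne_zero (pow_ne_zero 4 hz0))
      intro h
      have h1 : z ^ 6 = 1 := sub_eq_zero.1 h
      have h2 : ‖z‖ ^ 6 = 1 := by rw [← norm_pow, h1, norm_one]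
      have h3 : ‖z‖ ^ 6 < 1 := pow_lt_one₀ (norm_nonneg _) hz1 (by norm_num)
      linarith
    have d12 := det2_chain (G := BB) (F := fun y : ℂ => (k1 y : ℂ) * y) d2 d1
    have d3' : ∃ L : ℂ →L[ℝ] ℂ, HasFDerivAt (fun w => (k2 w : ℂ) * w) L
        ((BB ∘ fun y : ℂ => (k1 y : ℂ) * y) y) ∧ 0 < det2 L := by
      have : (BB ∘ fun y : ℂ => (k1 y : ℂ) * y) y = w := hw.symm
      rw [this]; exact d3
    have d123 := det2_chain (G := fun w => (k2 w : ℂ) * w)
      (F := BB ∘ fun y : ℂ => (k1 y : ℂ) * y) d3' d12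
    have d4' : ∃ L : ℂ →L[ℝ] ℂ, HasFDerivAt rr L
        (((fun w => (k2 w : ℂ) * w) ∘ (BB ∘ fun y : ℂ => (k1 y : ℂ) * y)) y) ∧ 0 < det2 L := by
      have : ((fun w => (k2 w : ℂ) * w) ∘ (BB ∘ fun y : ℂ => (k1 y : ℂ) * y)) y = z := by
        rw [hz, hw]; rfl
      rw [this]; exact d4
    obtain ⟨L, hL, hpos⟩ := det2_chain d4' d123
    exact ⟨L, hL.congr_of_eventuallyEq hM, hpos⟩

theorem par_injective (i : Bool) : Function.Injective (par i) := fun z w h => by
  rw [← ch_par_same i z, h, ch_par_same]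

theorem coe_mem_dom {y : ℂ} (hy : y ≠ 0) (i : Bool) : (y : Sph) ∈ dom i := by
  cases i
  · exact coe_ne_infty _
  · show (y : Sph) ≠ ((0 : ℂ) : Sph)
    intro h; exact hy (OnePoint.coe_injective h)

theorem dom_compl (i : Bool) : ∃ c : Sph, dom i = {c}ᶜ := by
  cases i
  · exact ⟨_, rfl⟩
  · exact ⟨_, rfl⟩

theorem nu_op (i j : Bool) {x : Sph} (hx : x ∈ dom i) (hy : nu x ∈ dom j) :
    OPAt (ch j ∘ nu ∘ par i) (ch i x) := by
  set W : Set ℂ := {z | nu (par i z) ∈ dom j} with hWdef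
  have hcont : Continuous fun z => nu (par i z) := continuous_nu.comp (continuous_par i)
  have hW : IsOpen W := (isOpen_dom j).preimage hcont
  have hWc : IsPreconnected W := by
    obtain ⟨c, hc⟩ := dom_compl j
    obtain ⟨x', hx'⟩ := nu_surjective c
    by_cases h1 : x' ∈ dom i
    · have : W = {ch i x'}ᶜ := by
        ext z
        simp only [hWdef, mem_ofPred_eq, hc, mem_compl_iff, mem_singleton_iff]
        rw [← hx']
        refine not_congr ⟨fun h => ?_, fun h => ?_⟩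
        · rw [← nu_injective h, ch_par_same]
        · rw [h, par_ch i h1]
      rw [this]
      exact (isConnected_compl_singleton_of_one_lt_rank (by
        rw [Complex.rank_real_complex]; exact Cardinal.one_lt_two) _).isPreconnected
    · have : W = univ := by
        ext z
        simp only [hWdef, mem_ofPred_eq, hc, mem_compl_iff, mem_singleton_iff, mem_univ, iff_true]
        rw [← hx']
        intro h
        apply h1
        rw [← nu_injective h]
        exact par_mem_dom i z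
      rw [this]; exact isPreconnected_univ
  have hMc : ContinuousOn (ch j ∘ nu ∘ par i) W := fun z hz =>
    (ContinuousAt.comp (f := fun z => nu (par i z)) (continuousAt_ch j hz)
      hcont.continuousAt).continuousWithinAt
  have hinj : InjOn (ch j ∘ nu ∘ par i) W := by
    intro z hz w hw h
    exact par_injective i (nu_injective ((ch_eq_iff j hz hw).1 h))
  obtain ⟨y, hy0, hn1, hn2, hL⟩ := nu_deriv
  have hnj : ∀ j, nu (y : Sph) ∈ dom j := fun j => by cases j <;> assumption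
  have hyi := coe_mem_dom hy0
  have hcW : ch i (y : Sph) ∈ W := by
    show nu (par i (ch i (y : Sph))) ∈ dom j
    rw [par_ch i (hyi i)]; exact hnj j
  refine opAt_of_opAt hW hWc hMc hinj hcW (by
    show nu (par i (ch i x)) ∈ dom j
    rw [par_ch i hx]; exact hy) ?_
  -- the derivative at the base point
  obtain ⟨c1, hc1, hd1, -⟩ := trans_hasDerivAt j false (hnj j) (hnj false)
  obtain ⟨c2, hc2, hd2, -⟩ := trans_hasDerivAt false i (hyi false) (hyi i)
  have e2 := det2_hasDerivAt hd2 hc2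
  have e1 := det2_hasDerivAt hd1 hc1
  have hv2 : (ch false ∘ par i) (ch i (y : Sph)) = y := by
    show ch false (par i (ch i (y : Sph))) = y
    rw [par_ch i (hyi i)]; rfl
  have e3 : ∃ L : ℂ →L[ℝ] ℂ, HasFDerivAt ((ch false ∘ nu ∘ par false) ∘ (ch false ∘ par i)) L
      (ch i (y : Sph)) ∧ 0 < det2 L := by
    refine det2_chain ?_ e2
    rw [hv2]; exact hL
  have e4 : ∃ L : ℂ →L[ℝ] ℂ, HasFDerivAt ((ch j ∘ par false) ∘
      ((ch false ∘ nu ∘ par false) ∘ (ch false ∘ par i))) L (ch i (y : Sph)) ∧ 0 < det2 L := by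
    refine det2_chain ?_ e3
    have : ((ch false ∘ nu ∘ par false) ∘ (ch false ∘ par i)) (ch i (y : Sph))
        = ch false (nu (y : Sph)) := by
      show ch false (nu (par false ((ch false ∘ par i) (ch i (y : Sph))))) = _
      rw [hv2]; rfl
    rw [this]; exact e1
  obtain ⟨L, hL', hpos⟩ := e4
  have hev : ∀ᶠ z in 𝓝 (ch i (y : Sph)), par i z ∈ dom false ∧ nu (par i z) ∈ dom false := by
    have h1 : ∀ᶠ z in 𝓝 (ch i (y : Sph)), par i z ∈ dom false := by
      refine ((isOpen_dom false).preimage (continuous_par i)).mem_nhds ?_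
      show par i (ch i (y : Sph)) ∈ dom false
      rw [par_ch i (hyi i)]; exact hyi false
    have h2 : ∀ᶠ z in 𝓝 (ch i (y : Sph)), nu (par i z) ∈ dom false := by
      refine ((isOpen_dom false).preimage hcont).mem_nhds ?_
      show nu (par i (ch i (y : Sph))) ∈ dom false
      rw [par_ch i (hyi i)]; exact hnj false
    exact h1.and h2
  refine opAt_of_hasFDerivAt (L := L) (hL'.congr_of_eventuallyEq ?_) hpos ?_
  · filter_upwards [hev] with z hz
    show ch j (nu (par i z)) = ch j (par false (ch false (nu (par false (ch false (par i z))))))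
    rw [par_ch false hz.1, par_ch false hz.2]
  · filter_upwards [hW.mem_nhds hcW] with z hz
    exact ContinuousAt.comp (f := fun z => nu (par i z)) (continuousAt_ch j hz)
      hcont.continuousAt

end Pool.Agent.NH62.Thu
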