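import Pool.Agent.NH62.Thu.Defs

set_option autoImplicit false

/-! Orientation preserving local homeomorphisms. -/

noncomputable section

namespace Pool.Agent.NH62.Thu

open OnePoint Set Filter Topology

theorem windsOnce_of_close {γ δ : ℝ → ℂ} (hγ : WindsOnce γ) (hγc : ContinuousOn γ (Icc 0 (2 * Real.pi)))
    (hδ : ContinuousOn δ (Icc 0 (2 * Real.pi))) (hγp : γ (2 * Real.pi) = γ 0)
    (hδp : δ (2 * Real.pi) = δ 0)
    (h : ∀ s ∈ Icc 0 (2 * Real.pi), ‖δ s - γ s‖ < ‖γ s‖) : WindsOnce δ := by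
  obtain ⟨a, ha, hap, hγa⟩ := hγ
  have hq : ∀ s ∈ Icc 0 (2 * Real.pi), δ s / γ s ∈ Complex.slitPlane := by
    intro s hs
    have h0 := (hγa s hs).1
    have h1 : δ s / γ s ∈ Metric.ball (1 : ℂ) 1 := by
      rw [mem_ball_iff_norm]
      have : δ s / γ s - 1 = (δ s - γ s) / γ s := by field_simp
      rw [this, norm_div, div_lt_one (norm_pos_iff.2 h0)]
      exact h s hs
    exact Complex.ball_one_subset_slitPlane h1
  refine ⟨fun s => a s + (δ s / γ s).arg, ?_, ?_, ?_⟩
  · refine ha.add ?_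
    have hdiv : ContinuousOn (fun s => δ s / γ s) (Icc 0 (2 * Real.pi)) :=
      hδ.div hγc fun s hs => (hγa s hs).1
    intro s hs
    exact (Complex.continuousAt_arg (hq s hs)).comp_continuousWithinAt
      (f := fun s => δ s / γ s) (hdiv s hs)
  · simp only
    rw [hap, hγp, hδp]; ring
  · intro s hs
    have h0 := (hγa s hs).1
    have hδ0 : δ s ≠ 0 := by
      intro h1
      have h2 := h s hs
      rw [h1, zero_sub, norm_neg] at h2
      exact lt_irrefl _ h2
    refine ⟨hδ0, ?_⟩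
    have h1 : δ s / γ s = ‖δ s / γ s‖ * Complex.exp ((δ s / γ s).arg * Complex.I) :=
      (Complex.norm_mul_exp_arg_mul_I _).symm
    have h2 : δ s = γ s * (δ s / γ s) := by field_simp
    have h3 : ‖δ s‖ = ‖γ s‖ * ‖δ s / γ s‖ := by
      rw [norm_div]
      have := norm_pos_iff.2 h0
      field_simp
    have h5 : Complex.exp (((a s + (δ s / γ s).arg : ℝ) : ℂ) * Complex.I)
        = Complex.exp (a s * Complex.I) * Complex.exp ((δ s / γ s).arg * Complex.I) := by
      rw [← Complex.exp_add]; push_cast; ring_nf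
    rw [h3, h5, Complex.ofReal_mul]
    calc δ s = γ s * (δ s / γ s) := h2
      _ = (‖γ s‖ * Complex.exp (a s * Complex.I))
          * (‖δ s / γ s‖ * Complex.exp ((δ s / γ s).arg * Complex.I)) := by
          rw [← h1, ← (hγa s hs).2]
      _ = _ := by ring

/-- the standard circle -/
theorem windsOnce_circle (α : ℂ) (hα : α ≠ 0) (r : ℝ) (hr : 0 < r) :
    WindsOnce fun s => α * (r * Complex.exp (s * Complex.I)) := by
  refine ⟨fun s => α.arg + s, by fun_prop, by ring, fun s _ => ⟨?_, ?_⟩⟩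
  · have : (r : ℂ) ≠ 0 := by exact_mod_cast hr.ne'
    exact mul_ne_zero hα (mul_ne_zero this (Complex.exp_ne_zero _))
  · have h1 : ‖α * (r * Complex.exp (s * Complex.I))‖ = ‖α‖ * r := by
      rw [norm_mul, norm_mul, Complex.norm_exp_ofReal_mul_I, Complex.norm_real, mul_one,
        Real.norm_of_nonneg hr.le]
    rw [h1]
    conv_lhs => rw [← Complex.norm_mul_exp_arg_mul_I α]
    push_cast
    rw [add_mul, Complex.exp_add]
    ring

theorem exp_two_pi : Complex.exp (((2 * Real.pi : ℝ) : ℂ) * Complex.I) = 1 := by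
  push_cast
  exact Complex.exp_two_pi_mul_I

theorem circle_periodic (M : ℂ → ℂ) (p : ℂ) (r : ℝ) :
    M (p + r * Complex.exp (((2 * Real.pi : ℝ) : ℂ) * Complex.I)) - M p
      = M (p + r * Complex.exp (((0 : ℝ) : ℂ) * Complex.I)) - M p := by
  rw [exp_two_pi]; simp

/-- the determinant of a real-linear map of the plane -/
def det2 (L : ℂ →L[ℝ] ℂ) : ℝ := (L 1).re * (L Complex.I).im - (L 1).im * (L Complex.I).re

theorem lin_apply (L : ℂ →L[ℝ] ℂ) (v : ℂ) : L v = v.re * L 1 + v.im * L Complex.I := by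
  have h1 : v = v.re • (1 : ℂ) + v.im • Complex.I := by
    apply Complex.ext <;> simp
  conv_lhs => rw [h1]
  rw [map_add, _root_.map_smul, _root_.map_smul]
  simp

theorem det2_comp (L K : ℂ →L[ℝ] ℂ) : det2 (L.comp K) = det2 L * det2 K := by
  unfold det2
  have h1 : ∀ v, (L (K v)).re = (K v).re * (L 1).re + (K v).im * (L Complex.I).re := by
    intro v
    rw [lin_apply L (K v)]; simp
  have h2 : ∀ v, (L (K v)).im = (K v).re * (L 1).im + (K v).im * (L Complex.I).im := by
    intro v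
    rw [lin_apply L (K v)]; simp
  simp only [ContinuousLinearMap.comp_apply, h1, h2]
  ring

/-- A map with a real derivative of positive determinant preserves the orientation. -/
theorem opAt_of_hasFDerivAt {M : ℂ → ℂ} {p : ℂ} {L : ℂ →L[ℝ] ℂ} (h : HasFDerivAt M L p)
    (hL : 0 < det2 L) (hM : ∀ᶠ x in 𝓝 p, ContinuousAt M x) : OPAt M p := by
  -- `L v = α v + β conj v`
  set α : ℂ := (L 1 - Complex.I * L Complex.I) / 2 with hα
  set β : ℂ := (L 1 + Complex.I * L Complex.I) / 2 with hβ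
  have hLv : ∀ v : ℂ, L v = α * v + β * (starRingEnd ℂ) v := by
    intro v
    rw [lin_apply L v, hα, hβ]
    have e1 : (v.re : ℂ) = (v + (starRingEnd ℂ) v) / 2 := by
      rw [Complex.add_conj]; push_cast; ring
    have e2 : (v.im : ℂ) = (v - (starRingEnd ℂ) v) / (2 * Complex.I) := by
      rw [Complex.sub_conj]; push_cast; field_simp
    rw [e1, e2]
    field_simp
    ring_nf
    rw [Complex.I_sq]
    ring
  have hαβ : ‖β‖ < ‖α‖ := by
    have h1 : Complex.normSq α - Complex.normSq β = det2 L := by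
      rw [hα, hβ, det2]
      simp only [Complex.normSq_apply, Complex.div_re, Complex.div_im, Complex.sub_re,
        Complex.sub_im, Complex.add_re, Complex.add_im, Complex.mul_re, Complex.mul_im,
        Complex.I_re, Complex.I_im]
      norm_num
      ring
    rw [Complex.normSq_eq_norm_sq, Complex.normSq_eq_norm_sq] at h1
    have h2 : ‖β‖ ^ 2 < ‖α‖ ^ 2 := by linarith
    exact lt_of_pow_lt_pow_left₀ 2 (norm_nonneg _) h2
  have hα0 : α ≠ 0 := by
    intro h0
    rw [h0, norm_zero] at hαβ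
    exact absurd hαβ (not_lt.2 (norm_nonneg _))
  have hε : 0 < ‖α‖ - ‖β‖ := by linarith
  have h1 := h.isLittleO.bound (half_pos hε)
  rw [Metric.eventually_nhds_iff] at h1
  obtain ⟨ρ, hρ, h1⟩ := h1
  rw [Metric.eventually_nhds_iff] at hM
  obtain ⟨ρ', hρ', hM⟩ := hM
  have h2 : ∀ᶠ r : ℝ in 𝓝[>] 0, r < min ρ ρ' :=
    eventually_nhdsWithin_of_eventually_nhds (gt_mem_nhds (lt_min hρ hρ'))
  filter_upwards [h2, self_mem_nhdsWithin] with r hr1 hr2
  have hr0 : 0 < r := hr2
  have hnorm : ∀ s : ℝ, ‖(r : ℂ) * Complex.exp (s * Complex.I)‖ = r := by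
    intro s
    rw [norm_mul, Complex.norm_exp_ofReal_mul_I, mul_one, Complex.norm_real,
      Real.norm_of_nonneg hr0.le]
  refine windsOnce_of_close (windsOnce_circle α hα0 r hr0) (by fun_prop) ?_ ?_ ?_ ?_
  · intro s _
    have h3 : ContinuousAt M (p + r * Complex.exp (s * Complex.I)) := by
      apply hM
      rw [dist_eq_norm, add_sub_cancel_left, hnorm]
      exact lt_of_lt_of_le hr1 (min_le_right _ _)
    refine ContinuousAt.continuousWithinAt ?_
    refine ContinuousAt.sub ?_ continuousAt_const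
    exact ContinuousAt.comp (f := fun s : ℝ => p + (r : ℂ) * Complex.exp (s * Complex.I)) h3
      (by fun_prop)
  · rw [exp_two_pi]; simp
  · exact circle_periodic M p r
  · intro s _
    have h3 := h1 (y := p + r * Complex.exp (s * Complex.I)) (by
      rw [dist_eq_norm, add_sub_cancel_left, hnorm]
      exact lt_of_lt_of_le hr1 (min_le_left _ _))
    rw [add_sub_cancel_left, hLv, hnorm] at h3
    set v : ℂ := (r : ℂ) * Complex.exp (s * Complex.I) with hv
    have h4 : ‖v‖ = r := hnorm s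
    have h5 : M (p + v) - M p - α * v = (M (p + v) - M p - (α * v + β * (starRingEnd ℂ) v))
        + β * (starRingEnd ℂ) v := by ring
    rw [h5]
    calc _ ≤ ‖M (p + v) - M p - (α * v + β * (starRingEnd ℂ) v)‖ + ‖β * (starRingEnd ℂ) v‖ :=
          norm_add_le _ _
      _ ≤ (‖α‖ - ‖β‖) / 2 * r + ‖β‖ * r := by
          refine add_le_add h3 ?_
          rw [norm_mul, RCLike.norm_conj, h4]
      _ < ‖α * v‖ := by
          rw [norm_mul, h4]
          nlinarith

/-- complex differentiable maps with nonzero derivative preserve the orientation -/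
theorem opAt_of_hasDerivAt {M : ℂ → ℂ} {p : ℂ} {c : ℂ} (h : HasDerivAt M c p) (hc : c ≠ 0)
    (hM : ∀ᶠ x in 𝓝 p, ContinuousAt M x) : OPAt M p := by
  have h1 : HasFDerivAt M ((ContinuousLinearMap.toSpanSingleton ℂ c).restrictScalars ℝ) p :=
    h.hasFDerivAt.restrictScalars ℝ
  refine opAt_of_hasFDerivAt h1 ?_ hM
  unfold det2
  simp only [ContinuousLinearMap.coe_restrictScalars', ContinuousLinearMap.toSpanSingleton_apply,
    smul_eq_mul, one_mul, Complex.mul_re, Complex.mul_im, Complex.I_re, Complex.I_im]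
  have : 0 < Complex.normSq c := Complex.normSq_pos.2 hc
  rw [Complex.normSq_apply] at this
  linarith

/-- the family of loops -/
def loop (M : ℂ → ℂ) (q : ℂ × ℝ) (s : ℝ) : ℂ :=
  M (q.1 + q.2 * Complex.exp (s * Complex.I)) - M q.1

/-- Local constancy of the winding. -/
theorem winds_locally_const {M : ℂ → ℂ} {W : Set ℂ} (hW : IsOpen W) (hM : ContinuousOn M W)
    (hinj : InjOn M W) (q₀ : ℂ × ℝ) (hr : 0 < q₀.2) (hq : Metric.closedBall q₀.1 q₀.2 ⊆ W) :
    ∀ᶠ q in 𝓝 q₀, (WindsOnce (loop M q) ↔ WindsOnce (loop M q₀)) := by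
  have hc : q₀.1 ∈ W := hq (Metric.mem_closedBall_self hr.le)
  have hnorm : ∀ s : ℝ, ‖(q₀.2 : ℂ) * Complex.exp (s * Complex.I)‖ = q₀.2 := by
    intro s
    rw [norm_mul, Complex.norm_exp_ofReal_mul_I, mul_one, Complex.norm_real,
      Real.norm_of_nonneg hr.le]
  have hcirc : ∀ s : ℝ, q₀.1 + q₀.2 * Complex.exp (s * Complex.I) ∈ W := by
    intro s
    apply hq
    rw [Metric.mem_closedBall, dist_eq_norm, add_sub_cancel_left, hnorm]
  have hcontAt : ∀ x ∈ W, ContinuousAt M x := fun x hx => hM.continuousAt (hW.mem_nhds hx)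
  -- joint continuity of the loops
  have hjc : ∀ s : ℝ, ContinuousAt (fun z : (ℂ × ℝ) × ℝ => loop M z.1 z.2) (q₀, s) := by
    intro s
    unfold loop
    refine ContinuousAt.sub ?_ ?_
    · exact ContinuousAt.comp (f := fun z : (ℂ × ℝ) × ℝ =>
        z.1.1 + (z.1.2 : ℂ) * Complex.exp (z.2 * Complex.I)) (hcontAt _ (hcirc s)) (by fun_prop)
    · exact ContinuousAt.comp (f := fun z : (ℂ × ℝ) × ℝ => z.1.1) (hcontAt _ hc) (by fun_prop)
  have hloopc : Continuous (loop M q₀) := by
    rw [continuous_iff_continuousAt]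
    intro s
    exact ContinuousAt.comp (f := fun s : ℝ => (q₀, s)) (hjc s) (by fun_prop)
  have hne : ∀ s : ℝ, loop M q₀ s ≠ 0 := by
    intro s h0
    have h1 : M (q₀.1 + q₀.2 * Complex.exp (s * Complex.I)) = M q₀.1 := sub_eq_zero.1 h0
    have h2 := hinj (hcirc s) hc h1
    have h3 := hnorm s
    have h4 : (q₀.2 : ℂ) * Complex.exp (s * Complex.I) = 0 := by
      have := h2
      rw [add_eq_left] at this
      exact this
    rw [h4, norm_zero] at h3
    linarith
  -- positive lower bound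
  obtain ⟨s₁, -, hs₁⟩ := (isCompact_Icc (a := (0 : ℝ)) (b := 2 * Real.pi)).exists_isMinOn
    ⟨0, by constructor <;> positivity⟩ hloopc.norm.continuousOn
  set m := ‖loop M q₀ s₁‖ with hm
  have hmpos : 0 < m := norm_pos_iff.2 (hne s₁)
  have hmle : ∀ s ∈ Icc (0 : ℝ) (2 * Real.pi), m ≤ ‖loop M q₀ s‖ := fun s hs => hs₁ hs
  have hclose : ∀ᶠ q in 𝓝 q₀, ∀ s ∈ Icc (0 : ℝ) (2 * Real.pi),
      ContinuousAt (fun z : (ℂ × ℝ) × ℝ => loop M z.1 z.2) (q, s) ∧
        ‖loop M q s - loop M q₀ s‖ < m / 2 := by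
    refine isCompact_Icc.eventually_forall_of_forall_eventually (x₀ := q₀)
      (P := fun q s => ContinuousAt (fun z : (ℂ × ℝ) × ℝ => loop M z.1 z.2) (q, s) ∧
        ‖loop M q s - loop M q₀ s‖ < m / 2) fun s _ => ?_
    have h1 : ∀ᶠ z : (ℂ × ℝ) × ℝ in 𝓝 (q₀, s), ‖loop M z.1 z.2 - loop M q₀ z.2‖ < m / 2 := by
      have h2 : ContinuousAt (fun z : (ℂ × ℝ) × ℝ => ‖loop M z.1 z.2 - loop M q₀ z.2‖) (q₀, s) :=
        ((hjc s).sub (hloopc.continuousAt.comp continuousAt_snd)).norm
      have h3 : ‖loop M (q₀, s).1 (q₀, s).2 - loop M q₀ (q₀, s).2‖ < m / 2 := by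
        simp only [sub_self, norm_zero]; positivity
      exact h2.eventually (gt_mem_nhds h3)
    have h4 : ∀ᶠ z : (ℂ × ℝ) × ℝ in 𝓝 (q₀, s),
        ContinuousAt (fun z : (ℂ × ℝ) × ℝ => loop M z.1 z.2) z := by
      have e1 : ∀ᶠ z : (ℂ × ℝ) × ℝ in 𝓝 (q₀, s),
          z.1.1 + (z.1.2 : ℂ) * Complex.exp (z.2 * Complex.I) ∈ W := by
        have hcc : ContinuousAt (fun z : (ℂ × ℝ) × ℝ =>
          z.1.1 + (z.1.2 : ℂ) * Complex.exp (z.2 * Complex.I)) (q₀, s) := by fun_prop
        exact hcc.eventually (hW.mem_nhds (hcirc s))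
      have e2 : ∀ᶠ z : (ℂ × ℝ) × ℝ in 𝓝 (q₀, s), z.1.1 ∈ W := by
        have hcc : ContinuousAt (fun z : (ℂ × ℝ) × ℝ => z.1.1) (q₀, s) := by fun_prop
        exact hcc.eventually (hW.mem_nhds hc)
      filter_upwards [e1, e2] with z hz1 hz2
      unfold loop
      refine ContinuousAt.sub ?_ ?_
      · exact ContinuousAt.comp (f := fun z : (ℂ × ℝ) × ℝ =>
          z.1.1 + (z.1.2 : ℂ) * Complex.exp (z.2 * Complex.I)) (hcontAt _ hz1) (by fun_prop)
      · exact ContinuousAt.comp (f := fun z : (ℂ × ℝ) × ℝ => z.1.1) (hcontAt _ hz2) (by fun_prop)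
    filter_upwards [h1, h4] with z hz1 hz4 using ⟨hz4, hz1⟩
  filter_upwards [hclose] with q hq'
  have hqc : ContinuousOn (loop M q) (Icc 0 (2 * Real.pi)) := by
    intro s hs
    refine ContinuousAt.continuousWithinAt ?_
    exact ContinuousAt.comp (f := fun s : ℝ => (q, s)) (hq' s hs).1 (by fun_prop)
  have hper : ∀ q : ℂ × ℝ, loop M q (2 * Real.pi) = loop M q 0 := fun q =>
    circle_periodic M q.1 q.2
  constructor
  · intro h
    refine windsOnce_of_close h hqc hloopc.continuousOn (hper q) (hper q₀) fun s hs => ?_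
    have h1 := (hq' s hs).2
    have h2 := hmle s hs
    have h3 : ‖loop M q₀ s‖ ≤ ‖loop M q s‖ + ‖loop M q s - loop M q₀ s‖ := by
      have : loop M q₀ s = loop M q s - (loop M q s - loop M q₀ s) := by ring
      calc ‖loop M q₀ s‖ = ‖loop M q s - (loop M q s - loop M q₀ s)‖ := by rw [← this]
        _ ≤ _ := norm_sub_le _ _
    rw [norm_sub_rev]
    linarith
  · intro h
    refine windsOnce_of_close h hloopc.continuousOn hqc (hper q₀) (hper q) fun s hs => ?_
    have h1 := (hq' s hs).2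
    have h2 := hmle s hs
    linarith

/-- The winding number does not depend on the radius. -/
theorem winds_radius {M : ℂ → ℂ} {W : Set ℂ} (hW : IsOpen W) (hM : ContinuousOn M W)
    (hinj : InjOn M W) (c : ℂ) {r₁ r₂ : ℝ} (h1 : 0 < r₁) (h12 : r₁ ≤ r₂)
    (hq : Metric.closedBall c r₂ ⊆ W) :
    WindsOnce (loop M (c, r₁)) ↔ WindsOnce (loop M (c, r₂)) := by
  refine (isPreconnected_Icc (a := r₁) (b := r₂)).induction₂
    (fun r r' => (WindsOnce (loop M (c, r)) ↔ WindsOnce (loop M (c, r')))) ?_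
    (fun x y z _ _ _ h h' => h.trans h') (fun x y _ _ h => h.symm)
    (left_mem_Icc.2 h12) (right_mem_Icc.2 h12)
  intro r hr
  refine eventually_nhdsWithin_of_eventually_nhds ?_
  have h2 := winds_locally_const hW hM hinj (c, r) (lt_of_lt_of_le h1 hr.1)
    ((Metric.closedBall_subset_closedBall hr.2).trans hq)
  have h3 : ContinuousAt (fun r' : ℝ => ((c, r') : ℂ × ℝ)) r := by fun_prop
  filter_upwards [h3.eventually h2] with r' hr' using hr'.symm

theorem opAt_iff {M : ℂ → ℂ} {W : Set ℂ} (hW : IsOpen W) (hM : ContinuousOn M W)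
    (hinj : InjOn M W) (c : ℂ) {r : ℝ} (hr : 0 < r) (hq : Metric.closedBall c r ⊆ W) :
    OPAt M c ↔ WindsOnce (loop M (c, r)) := by
  constructor
  · intro h
    have h1 : ∀ᶠ r' : ℝ in 𝓝[>] 0, r' < r :=
      eventually_nhdsWithin_of_eventually_nhds (gt_mem_nhds hr)
    obtain ⟨r', hr1, hr2, hr3⟩ := (h.and (h1.and self_mem_nhdsWithin)).exists
    exact (winds_radius hW hM hinj c hr3 hr2.le hq).1 hr1
  · intro h
    have h1 : ∀ᶠ r' : ℝ in 𝓝[>] 0, r' < r :=
      eventually_nhdsWithin_of_eventually_nhds (gt_mem_nhds hr)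
    filter_upwards [h1, self_mem_nhdsWithin] with r' hr2 hr3
    exact (winds_radius hW hM hinj c hr3 hr2.le hq).2 h

/-- Orientation is constant on connected open sets. -/
theorem opAt_of_opAt {M : ℂ → ℂ} {W : Set ℂ} (hW : IsOpen W) (hWc : IsPreconnected W)
    (hM : ContinuousOn M W) (hinj : InjOn M W) {c c' : ℂ} (hc : c ∈ W) (hc' : c' ∈ W)
    (h : OPAt M c) : OPAt M c' := by
  refine (hWc.induction₂ (fun x y => (OPAt M x ↔ OPAt M y)) ?_
    (fun x y z _ _ _ h h' => h.trans h') (fun x y _ _ h => h.symm) hc hc').1 h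
  intro x hx
  refine eventually_nhdsWithin_of_eventually_nhds ?_
  obtain ⟨ρ, hρ, hball⟩ := Metric.isOpen_iff.1 hW x hx
  have hr : 0 < ρ / 3 := by positivity
  have hq : Metric.closedBall x (ρ / 3) ⊆ W := fun y hy => hball (by
    rw [Metric.mem_ball]; rw [Metric.mem_closedBall] at hy; linarith)
  have h2 := winds_locally_const hW hM hinj (x, ρ / 3) hr hq
  have h3 : ContinuousAt (fun y : ℂ => ((y, ρ / 3) : ℂ × ℝ)) x := by fun_prop
  filter_upwards [h3.eventually h2, Metric.ball_mem_nhds x hr] with y hy hy2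
  have hqy : Metric.closedBall y (ρ / 3) ⊆ W := fun z hz => hball (by
    rw [Metric.mem_ball] at hy2 ⊢; rw [Metric.mem_closedBall] at hz
    have := dist_triangle z y x
    linarith)
  rw [opAt_iff hW hM hinj x hr hq, opAt_iff hW hM hinj y hr hqy]
  exact hy.symm

end Pool.Agent.NH62.Thu
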