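import Pool.Agent.NH62.Thu.Charts

set_option autoImplicit false

/-! The rational map `(z³ + z⁻³) / 2`, the quotient of the sphere by a dihedral group. -/

noncomputable section

namespace Pool.Agent.NH62.Thu

open OnePoint Set Filter Topology

/-- the primitive cube root of unity `(-1 + i √3) / 2` -/
def om : ℂ := ⟨-1 / 2, Real.sqrt 3 / 2⟩

theorem om_sq_add : om ^ 2 + om + 1 = 0 := by
  have h3 : Real.sqrt 3 * Real.sqrt 3 = 3 := Real.mul_self_sqrt (by norm_num)
  apply Complex.ext
  · simp only [om, pow_two, Complex.add_re, Complex.mul_re, Complex.one_re, Complex.zero_re]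
    nlinarith
  · simp only [om, pow_two, Complex.add_im, Complex.mul_im, Complex.one_im, Complex.zero_im]
    ring

theorem om_cube : om ^ 3 = 1 := by
  have h := om_sq_add
  have : om ^ 3 - 1 = (om - 1) * (om ^ 2 + om + 1) := by ring
  rw [h, mul_zero] at this
  exact sub_eq_zero.1 this

theorem om_ne_zero : om ≠ 0 := by
  intro h
  have := om_cube
  rw [h] at this
  norm_num at this

theorem cube_eq {z w : ℂ} (h : w ^ 3 = z ^ 3) : w = z ∨ w = om * z ∨ w = om ^ 2 * z := by
  have h1 : (w - z) * (w - om * z) * (w - om ^ 2 * z) = 0 := by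
    have e : (w - z) * (w - om * z) * (w - om ^ 2 * z)
        = w ^ 3 - (om ^ 2 + om + 1) * w ^ 2 * z + (om ^ 3 + om ^ 2 + om) * w * z ^ 2
          - om ^ 3 * z ^ 3 := by ring
    rw [e, om_cube, om_sq_add, h]
    have : (1 : ℂ) + om ^ 2 + om = 0 := by linear_combination om_sq_add
    rw [this]; ring
  rcases mul_eq_zero.1 h1 with h2 | h2
  · rcases mul_eq_zero.1 h2 with h3 | h3
    · exact Or.inl (sub_eq_zero.1 h3)
    · exact Or.inr (Or.inl (sub_eq_zero.1 h3))
  · exact Or.inr (Or.inr (sub_eq_zero.1 h2))

/-- the rational function -/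
def rr (z : ℂ) : ℂ := (z ^ 3 + (z ^ 3)⁻¹) / 2

/-- its reciprocal -/
def uu (z : ℂ) : ℂ := 2 * z ^ 3 / (1 + z ^ 6)

/-- the quotient map -/
def q (x : Sph) : Sph := x.elim ∞ (fun z => if z = 0 then ∞ else ((rr z : ℂ) : Sph))

theorem q_infty : q ∞ = ∞ := rfl
theorem q_zero : q ((0 : ℂ) : Sph) = ∞ := by simp [q]
theorem q_coe {z : ℂ} (hz : z ≠ 0) : q (z : Sph) = ((rr z : ℂ) : Sph) := by simp [q, hz]

/-- the rotation -/
def rot (x : Sph) : Sph := x.elim ∞ (fun z => ((om * z : ℂ) : Sph))

theorem rot_infty : rot ∞ = ∞ := rfl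
theorem rot_coe (z : ℂ) : rot (z : Sph) = ((om * z : ℂ) : Sph) := rfl

theorem q_rot (x : Sph) : q (rot x) = q x := by
  induction x using OnePoint.rec with
  | infty => rfl
  | coe z =>
    rw [rot_coe]
    by_cases hz : z = 0
    · subst hz; simp
    · rw [q_coe hz, q_coe (mul_ne_zero om_ne_zero hz)]
      congr 1
      unfold rr
      rw [mul_pow, om_cube, one_mul]

theorem q_inv (x : Sph) : q (inv x) = q x := by
  induction x using OnePoint.rec with
  | infty => rw [inv_infty, q_zero, q_infty]
  | coe z =>
    by_cases hz : z = 0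
    · subst hz; rw [inv_zero, q_zero, q_infty]
    · rw [inv_coe_ne hz, q_coe hz, q_coe (inv_ne_zero hz)]
      congr 1
      unfold rr
      rw [inv_pow, _root_.inv_inv]; ring

theorem q_eq {x y : Sph} (h : q x = q y) :
    (y = x ∨ y = rot x ∨ y = rot (rot x)) ∨ (y = inv x ∨ y = rot (inv x) ∨ y = rot (rot (inv x))) := by
  have key : ∀ z : ℂ, z ≠ 0 → q (z : Sph) ≠ ∞ := fun z hz => by
    rw [q_coe hz]; exact coe_ne_infty _
  induction x using OnePoint.rec with
  | infty =>
    induction y using OnePoint.rec with
    | infty => exact Or.inl (Or.inl rfl)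
    | coe w =>
      by_cases hw : w = 0
      · subst hw; exact Or.inr (Or.inl rfl)
      · exact absurd h.symm (key w hw)
  | coe z =>
    by_cases hz : z = 0
    · subst hz
      induction y using OnePoint.rec with
      | infty => exact Or.inr (Or.inl inv_zero.symm)
      | coe w =>
        by_cases hw : w = 0
        · subst hw; exact Or.inl (Or.inl rfl)
        · rw [q_zero] at h; exact absurd h.symm (key w hw)
    · induction y using OnePoint.rec with
      | infty => exact absurd h (key z hz)
      | coe w =>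
        by_cases hw : w = 0
        · subst hw; rw [q_zero] at h; exact absurd h (key z hz)
        · rw [q_coe hz, q_coe hw] at h
          have h1 : rr z = rr w := OnePoint.coe_injective h
          have hz3 : z ^ 3 ≠ 0 := pow_ne_zero 3 hz
          have hw3 : w ^ 3 ≠ 0 := pow_ne_zero 3 hw
          have h2 : (w ^ 3 - z ^ 3) * (z ^ 3 * w ^ 3 - 1) = 0 := by
            unfold rr at h1
            field_simp at h1
            linear_combination -h1
          rcases mul_eq_zero.1 h2 with h3 | h3
          · left
            rcases cube_eq (sub_eq_zero.1 h3) with h4 | h4 | h4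
            · exact Or.inl (by rw [h4])
            · exact Or.inr (Or.inl (by rw [h4, rot_coe]))
            · refine Or.inr (Or.inr ?_)
              rw [h4, rot_coe, rot_coe]; congr 1; ring
          · right
            have h5 : w ^ 3 = (z⁻¹) ^ 3 := by
              rw [inv_pow]
              field_simp
              linear_combination h3
            rw [inv_coe_ne hz]
            rcases cube_eq h5 with h4 | h4 | h4
            · exact Or.inl (by rw [h4])
            · exact Or.inr (Or.inl (by rw [h4, rot_coe]))
            · refine Or.inr (Or.inr ?_)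
              rw [h4, rot_coe, rot_coe]; congr 1; ring

theorem q_surjective : Function.Surjective q := by
  intro y
  induction y using OnePoint.rec with
  | infty => exact ⟨∞, rfl⟩
  | coe c =>
    obtain ⟨s, hs⟩ := IsAlgClosed.exists_pow_nat_eq (c ^ 2 - 1) (n := 2) (by norm_num)
    have hv : (c + s) * (c - s) = 1 := by linear_combination -hs
    have hv0 : c + s ≠ 0 := by
      intro h0
      rw [h0, zero_mul] at hv
      exact zero_ne_one hv
    obtain ⟨z, hz⟩ := IsAlgClosed.exists_pow_nat_eq (c + s) (n := 3) (by norm_num)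
    have hz0 : z ≠ 0 := by
      intro h0
      rw [h0] at hz
      exact hv0 (by rw [← hz]; norm_num)
    refine ⟨(z : Sph), ?_⟩
    rw [q_coe hz0]
    congr 1
    unfold rr
    rw [hz]
    have : (c + s)⁻¹ = c - s := inv_eq_of_mul_eq_one_right hv
    rw [this]; ring

theorem one_add_pow_ne {z : ℂ} (hz : ‖z‖ < 1) : 1 + z ^ 6 ≠ 0 := by
  intro h
  have h1 : z ^ 6 = -1 := by linear_combination h
  have h2 : ‖z‖ ^ 6 = 1 := by
    rw [← norm_pow, h1, norm_neg, norm_one]
  have h3 : ‖z‖ ^ 6 < 1 := pow_lt_one₀ (norm_nonneg _) hz (by norm_num)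
  linarith

theorem q_eq_inv_uu {z : ℂ} (hz : ‖z‖ < 1) : q (z : Sph) = inv ((uu z : ℂ) : Sph) := by
  by_cases h0 : z = 0
  · subst h0
    rw [q_zero]
    simp [uu]
  · have h1 := one_add_pow_ne hz
    have h3 : z ^ 3 ≠ 0 := pow_ne_zero 3 h0
    have hu : uu z ≠ 0 := by
      unfold uu
      exact div_ne_zero (mul_ne_zero two_ne_zero h3) h1
    rw [q_coe h0, inv_coe_ne hu]
    congr 1
    unfold rr uu
    field_simp
    ring

theorem continuousAt_uu {z : ℂ} (hz : ‖z‖ < 1) : ContinuousAt uu z := by
  unfold uu
  exact ContinuousAt.div (by fun_prop) (by fun_prop) (one_add_pow_ne hz)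

theorem q_continuousAt_zero : ContinuousAt q ((0 : ℂ) : Sph) := by
  rw [OnePoint.continuousAt_coe]
  have h1 : ContinuousAt (fun z : ℂ => inv ((uu z : ℂ) : Sph)) 0 := by
    refine continuous_inv.continuousAt.comp (OnePoint.continuous_coe.continuousAt.comp ?_)
    exact continuousAt_uu (by simp)
  refine h1.congr ?_
  filter_upwards [Metric.ball_mem_nhds (0 : ℂ) one_pos] with z hz
  rw [Function.comp_apply, q_eq_inv_uu (by simpa using hz)]

theorem continuous_q : Continuous q := by
  rw [continuous_iff_continuousAt]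
  intro x
  induction x using OnePoint.rec with
  | infty =>
    have h1 : q = q ∘ inv := funext fun x => (q_inv x).symm
    rw [h1]
    refine ContinuousAt.comp ?_ continuous_inv.continuousAt
    rw [inv_infty]; exact q_continuousAt_zero
  | coe z =>
    by_cases hz : z = 0
    · subst hz; exact q_continuousAt_zero
    · rw [OnePoint.continuousAt_coe]
      have h1 : ContinuousAt (fun z : ℂ => ((rr z : ℂ) : Sph)) z := by
        refine OnePoint.continuous_coe.continuousAt.comp ?_
        unfold rr
        have h3 : z ^ 3 ≠ 0 := pow_ne_zero 3 hz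
        exact ((continuousAt_id.pow 3).add ((continuousAt_id.pow 3).inv₀ h3)).div_const 2
      refine h1.congr ?_
      filter_upwards [isOpen_ne.mem_nhds hz] with w hw
      rw [Function.comp_apply, q_coe hw]

end Pool.Agent.NH62.Thu
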