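import Pool.Agent.NH62.Thu.Fmap

set_option autoImplicit false

/-! The barycentric subdivision map is a Thurston map. -/

noncomputable section

namespace Pool.Agent.NH62.Thu

open OnePoint Set Filter Topology

theorem localDegree_of_locQ {p : Sph} {d : ℕ} (h : LocQ p d) : LocalDegree ff p d := by
  obtain ⟨j, φ, hφ, hp, hφ0, hqj, hx⟩ := h
  let ψ : OpenPartialHomeomorph Sph ℂ :=
    (nuH.toOpenPartialHomeomorph.trans (chH j)).trans
      (Homeomorph.addRight (-(ch j (q p)))).toOpenPartialHomeomorph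
  have hψ : ∀ y, ψ y = ch j (nu y) + -(ch j (q p)) := fun y => rfl
  have hsrc : ∀ y, y ∈ ψ.source ↔ nu y ∈ dom j := by
    intro y
    simp only [ψ, OpenPartialHomeomorph.trans_source, Homeomorph.toOpenPartialHomeomorph_source,
      preimage_univ, inter_univ, univ_inter]
    rfl
  refine ⟨φ, ψ, hφ, ?_, hp, hφ0, ?_, ?_, ?_⟩
  · intro y hy i hi
    have h1 := nu_op i j hi ((hsrc y).1 hy)
    unfold OPAt at h1 ⊢
    filter_upwards [h1] with r hr
    have : (fun s : ℝ => (ψ ∘ par i) (ch i y + r * Complex.exp (s * Complex.I)) - (ψ ∘ par i) (ch i y))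
        = fun s : ℝ => (ch j ∘ nu ∘ par i) (ch i y + r * Complex.exp (s * Complex.I))
          - (ch j ∘ nu ∘ par i) (ch i y) := by
      funext s
      simp only [Function.comp_apply, hψ]
      ring
    rw [this]; exact hr
  · rw [hsrc, nu_ff]; exact hqj
  · rw [hψ, nu_ff]; ring
  · intro x hxs
    obtain ⟨h1, h2⟩ := hx x hxs
    refine ⟨?_, ?_⟩
    · rw [hsrc, nu_ff]; exact h1
    · rw [hψ, nu_ff, ← h2]; ring

theorem ff_branched : IsBranchedCovering ff := by
  refine ⟨continuous_ff, fun p => ?_⟩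
  rcases locQ_all p with ⟨-, h⟩ | ⟨d, hd, h⟩
  · exact ⟨1, le_rfl, localDegree_of_locQ h⟩
  · exact ⟨d, hd, localDegree_of_locQ h⟩

/-- Two preimages near a critical point. -/
theorem two_preimages {f : Sph → Sph} {p : Sph} {d : ℕ} (hd : 2 ≤ d) (h : LocalDegree f p d)
    {U : Set Sph} (hU : U ∈ 𝓝 p) : ∃ x ∈ U, ∃ y ∈ U, x ≠ y ∧ f x = f y := by
  obtain ⟨φ, ψ, -, -, hp, hφ0, hfp, hψ0, hx⟩ := h
  have hcont : ContinuousAt φ.symm 0 := by
    have := φ.continuousAt_symm (φ.map_source hp)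
    rwa [hφ0] at this
  have hsymm0 : φ.symm 0 = p := by rw [← hφ0]; exact φ.left_inv hp
  have h0t : (0 : ℂ) ∈ φ.target := by rw [← hφ0]; exact φ.map_source hp
  have hV : φ.symm ⁻¹' U ∩ φ.target ∈ 𝓝 (0 : ℂ) := by
    refine inter_mem ?_ (φ.open_target.mem_nhds h0t)
    refine hcont ?_
    rw [hsymm0]; exact hU
  obtain ⟨r, hr, hball⟩ := Metric.mem_nhds_iff.1 hV
  set ζ : ℂ := Complex.exp (2 * Real.pi * Complex.I / d) with hζ
  have hprim : IsPrimitiveRoot ζ d := Complex.isPrimitiveRoot_exp d (by omega)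
  have hζ1 : ζ ≠ 1 := hprim.ne_one (by omega)
  have hζn : ‖ζ‖ = 1 := hprim.norm'_eq_one (by omega)
  set w : ℂ := ((r / 2 : ℝ) : ℂ) with hw
  have hwn : ‖w‖ = r / 2 := by rw [hw, Complex.norm_real, Real.norm_of_nonneg (by positivity)]
  have hw0 : w ≠ 0 := by rw [← norm_pos_iff, hwn]; positivity
  have hw1 : w ∈ Metric.ball (0 : ℂ) r := by
    rw [mem_ball_zero_iff, hwn]; linarith
  have hw2 : ζ * w ∈ Metric.ball (0 : ℂ) r := by
    rw [mem_ball_zero_iff, norm_mul, hζn, hwn]; linarith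
  refine ⟨φ.symm w, (hball hw1).1, φ.symm (ζ * w), (hball hw2).1, ?_, ?_⟩
  · intro h
    have h1 := congrArg φ h
    rw [φ.right_inv (hball hw1).2, φ.right_inv (hball hw2).2] at h1
    apply hζ1
    have : (ζ - 1) * w = 0 := by linear_combination -h1
    rcases mul_eq_zero.1 this with h2 | h2
    · exact sub_eq_zero.1 h2
    · exact absurd h2 hw0
  · obtain ⟨a1, a2⟩ := hx _ (φ.map_target (hball hw1).2)
    obtain ⟨b1, b2⟩ := hx _ (φ.map_target (hball hw2).2)
    refine ψ.injOn a1 b1 ?_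
    rw [a2, b2, φ.right_inv (hball hw1).2, φ.right_inv (hball hw2).2, mul_pow, hprim.pow_eq_one,
      one_mul]

theorem crit_subset : crit ff ⊆ Sing := by
  rintro p ⟨d, hd, hdeg⟩
  rcases locQ_all p with ⟨-, h⟩ | h
  · exfalso
    obtain ⟨j, φ, hφ, hp, hφ0, hqj, hx⟩ := h
    obtain ⟨x, hxU, y, hyU, hne, he⟩ := two_preimages hd hdeg (φ.open_source.mem_nhds hp)
    apply hne
    have h1 := (hx x hxU).2
    have h2 := (hx y hyU).2
    rw [q_of_ff he, h2, pow_one, pow_one] at h1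
    exact (φ.injOn hyU hxU h1).symm
  · by_contra hns
    -- use the other alternative: outside `Sing` the local degree is one
    obtain ⟨z, rfl⟩ : ∃ z : ℂ, p = (z : Sph) := by
      induction p using OnePoint.rec with
      | infty => exact absurd (Or.inl rfl) hns
      | coe z => exact ⟨z, rfl⟩
    have hz0 : z ≠ 0 := fun h => hns (Or.inr ⟨z, rfl, Or.inl h⟩)
    have hz6 : z ^ 6 ≠ 1 := fun h => hns (Or.inr ⟨z, rfl, Or.inr h⟩)
    obtain ⟨j, φ, hφ, hp, hφ0, hqj, hx⟩ := locQ_generic hz0 hz6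
    obtain ⟨x, hxU, y, hyU, hne, he⟩ := two_preimages hd hdeg (φ.open_source.mem_nhds hp)
    apply hne
    have h1 := (hx x hxU).2
    have h2 := (hx y hyU).2
    rw [q_of_ff he, h2, pow_one, pow_one] at h1
    exact (φ.injOn hyU hxU h1).symm

theorem Xi_one : Xi ((1 : ℂ) : Sph) = (1, 0, 0, 0) := by
  rw [Xi_coe]
  have hm : mm 1 = 1 / 2 := by
    unfold mm X0 X1 X2
    simp only [Complex.one_re, Complex.one_im, mul_zero, add_zero, sub_zero]
    norm_num
  have h1 : (‖(1 : ℂ)‖ : ℝ) ≤ 1 := by simp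
  unfold xi
  rw [hm, (gt_le h1).1, (gt_le h1).2]
  unfold X0 X1 X2
  simp only [Complex.one_re, Complex.one_im, norm_one]
  ext <;> norm_num

theorem Xi_neg_one : Xi ((-1 : ℂ) : Sph) = (0, 1 / 2, 1 / 2, 0) := by
  rw [Xi_coe]
  have hm : mm (-1) = 1 := by
    unfold mm X0 X1 X2
    simp only [Complex.neg_re, Complex.neg_im, Complex.one_re, Complex.one_im, neg_zero, mul_zero,
      add_zero, sub_zero]
    norm_num
  have h1 : (‖(-1 : ℂ)‖ : ℝ) ≤ 1 := by simp
  unfold xi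
  rw [hm, (gt_le h1).1, (gt_le h1).2]
  unfold X0 X1 X2
  simp only [Complex.neg_re, Complex.neg_im, Complex.one_re, Complex.one_im, norm_neg, norm_one]
  ext <;> norm_num

theorem bary_one : bary (1, 0, 0, 0) = (1, 0, 0, 0) := by
  unfold bary nM nA nB nC md mx mn vd
  norm_num

theorem bary_mid : bary (0, 1 / 2, 1 / 2, 0) = (0, 1, 0, 0) := by
  unfold bary nM nA nB nC md mx mn vd
  norm_num

theorem bary_center (t : ℝ) : bary (1 / 3, 1 / 3, 1 / 3, t) = (0, 0, 1, 0) := by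
  unfold bary nM nA nB nC md mx mn vd
  norm_num

theorem ff_one : ff ((1 : ℂ) : Sph) = ((1 : ℂ) : Sph) := by
  apply Xi_injective
  rw [Xi_ff, Xi_one, bary_one]

theorem Xi_om : Xi ((om : ℂ) : Sph) = (0, 1, 0, 0) := by
  have : ((om : ℂ) : Sph) = rot ((1 : ℂ) : Sph) := by rw [rot_coe, mul_one]
  rw [this, Xi_rot, Xi_one]; rfl

theorem Xi_om2 : Xi ((om ^ 2 : ℂ) : Sph) = (0, 0, 1, 0) := by
  have : ((om ^ 2 : ℂ) : Sph) = rot ((om : ℂ) : Sph) := by rw [rot_coe, pow_two]
  rw [this, Xi_rot, Xi_om]; rfl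

/-- the postcritical set is contained in this set -/
def PP : Set Sph := {((1 : ℂ) : Sph), ((om : ℂ) : Sph), ((om ^ 2 : ℂ) : Sph)}

theorem ff_PP {x : Sph} (hx : x ∈ PP) : ff x ∈ PP := by
  have h1 : ((1 : ℂ) : Sph) ∈ PP := Or.inl rfl
  rcases hx with rfl | rfl | rfl
  · rw [ff_one]; exact h1
  · have : ((om : ℂ) : Sph) = rot ((1 : ℂ) : Sph) := by rw [rot_coe, mul_one]
    rw [this, ff_rot, ff_one]; exact h1
  · have : ((om ^ 2 : ℂ) : Sph) = rot (rot ((1 : ℂ) : Sph)) := by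
      rw [rot_coe, rot_coe, mul_one, pow_two]
    rw [this, ff_rot, ff_rot, ff_one]; exact h1

theorem ff_rr_of {z w : ℂ} (h : z ^ 3 = w ^ 3) : ff (z : Sph) = ff (w : Sph) := by
  rcases cube_eq h with h | h | h
  · rw [h]
  · rw [h, ← rot_coe, ff_rot]
  · have : ((om ^ 2 * w : ℂ) : Sph) = rot (rot (w : Sph)) := by
      rw [rot_coe, rot_coe]; congr 1; ring
    rw [h, this, ff_rot, ff_rot]

theorem ff_Sing {x : Sph} (hx : x ∈ Sing) : ff x ∈ PP := by
  have hinf : ff ∞ ∈ PP := by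
    have : ff ∞ = ((om ^ 2 : ℂ) : Sph) := by
      apply Xi_injective
      rw [Xi_ff, Xi_infty, bary_center, Xi_om2]
    rw [this]; exact Or.inr (Or.inr rfl)
  rcases hx with rfl | ⟨z, rfl, rfl | hz⟩
  · exact hinf
  · have : ((0 : ℂ) : Sph) = inv ∞ := rfl
    rw [this, ff_inv]; exact hinf
  · have h1 : (z ^ 3 - 1) * (z ^ 3 + 1) = 0 := by linear_combination hz
    rcases mul_eq_zero.1 h1 with h2 | h2
    · rw [ff_rr_of (w := 1) (by linear_combination h2), ff_one]
      exact Or.inl rfl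
    · rw [ff_rr_of (w := -1) (by linear_combination h2)]
      have : ff ((-1 : ℂ) : Sph) = ((om : ℂ) : Sph) := by
        apply Xi_injective
        rw [Xi_ff, Xi_neg_one, bary_mid, Xi_om]
      rw [this]; exact Or.inr (Or.inl rfl)

theorem post_subset : post ff ⊆ PP := by
  rintro y ⟨n, hn, c, hc, rfl⟩
  obtain ⟨m, rfl⟩ : ∃ m, n = m + 1 := ⟨n - 1, by omega⟩
  rw [Function.iterate_succ_apply]
  have h0 : ff c ∈ PP := ff_Sing (crit_subset hc)
  induction m with
  | zero => exact h0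
  | succ m ih =>
    rw [Function.iterate_succ_apply']
    exact ff_PP (ih (by omega))

theorem PP_finite : PP.Finite := by
  unfold PP; simp

theorem ff_not_injective : ¬ Function.Injective ff := by
  intro h
  have h1 : ff (inv ∞) = ff ∞ := ff_inv ∞
  have h2 := h h1
  rw [inv_infty] at h2
  exact coe_ne_infty _ h2

theorem ff_thurston : IsThurston ff :=
  ⟨ff_branched, ff_not_injective, PP_finite.subset post_subset⟩

end Pool.Agent.NH62.Thu
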