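import Mathlib

set_option autoImplicit false

/-!
The double of a triangle in barycentric coordinates, and the map given by the barycentric
subdivision.
-/

noncomputable section

namespace Pool.Agent.NH62.Thu

open Set Filter Topology

/-- quadruples: three barycentric coordinates and a height -/
abbrev Quad : Type := ℝ × ℝ × ℝ × ℝ

/-- the largest coordinate -/
def mx (p : Quad) : ℝ := max (max p.1 p.2.1) p.2.2.1
/-- the smallest coordinate -/
def mn (p : Quad) : ℝ := min (min p.1 p.2.1) p.2.2.1
/-- the middle coordinate -/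
def md (p : Quad) : ℝ := p.1 + p.2.1 + p.2.2.1 - mx p - mn p
/-- the product of the differences -/
def vd (p : Quad) : ℝ := (p.1 - p.2.1) * (p.2.1 - p.2.2.1) * (p.1 - p.2.2.1)

/-- The double of a triangle. -/
def Tri : Set Quad := {p | p.1 + p.2.1 + p.2.2.1 = 1 ∧ |p.2.2.2| = mn p}

theorem sorted (p : Quad) : md p ≤ mx p ∧ mn p ≤ md p := by
  obtain ⟨a, b, c, t⟩ := p
  simp only [md, mx, mn]
  rcases le_total a b with h1 | h1 <;> rcases le_total b c with h2 | h2 <;>
    rcases le_total a c with h3 | h3 <;>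
    simp only [h1, h2, h3, max_eq_left, max_eq_right, min_eq_left, min_eq_right] <;>
    constructor <;> linarith

theorem vd_zero (p : Quad) (h : vd p = 0) : mx p = md p ∨ md p = mn p := by
  obtain ⟨a, b, c, t⟩ := p
  simp only [vd] at h
  simp only [md, mx, mn]
  have h' : a = b ∨ b = c ∨ a = c := by
    rcases mul_eq_zero.1 h with h1 | h1
    · rcases mul_eq_zero.1 h1 with h2 | h2
      · exact Or.inl (sub_eq_zero.1 h2)
      · exact Or.inr (Or.inl (sub_eq_zero.1 h2))
    · exact Or.inr (Or.inr (sub_eq_zero.1 h1))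
  rcases h' with h' | h' | h' <;> subst h'
  · rcases le_total a c with h3 | h3 <;>
      simp only [max_self, min_self, h3, max_eq_left, max_eq_right, min_eq_left, min_eq_right]
    · right; ring
    · left; ring
  · rcases le_total a b with h3 | h3 <;>
      simp only [max_assoc, min_assoc, max_self, min_self, h3, max_eq_left, max_eq_right, min_eq_left, min_eq_right]
    · left; ring
    · right; ring
  · rcases le_total a b with h3 | h3 <;>
      simp only [max_self, min_self, h3, max_eq_left, max_eq_right, min_eq_left, min_eq_right]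
    · right; ring
    · left; ring

/-- first new coordinate -/
def nA (p : Quad) : ℝ := mx p - md p
/-- second new coordinate -/
def nB (p : Quad) : ℝ := 2 * (md p - mn p)
/-- third new coordinate -/
def nC (p : Quad) : ℝ := 3 * mn p
/-- the new height, up to sign -/
def nM (p : Quad) : ℝ := min (min (nA p) (nB p)) (nC p)

/-- The barycentric subdivision map. -/
def bary (p : Quad) : Quad :=
  (nA p, nB p, nC p, if p.2.2.2 * vd p ≤ 0 then -(nM p) else nM p)

theorem mn_bary (p : Quad) : mn (bary p) = nM p := rfl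

theorem mn_nonneg {p : Quad} (hp : p ∈ Tri) : 0 ≤ mn p := by
  rw [← hp.2]; exact abs_nonneg _

theorem nM_nonneg {p : Quad} (hp : p ∈ Tri) : 0 ≤ nM p := by
  have h1 := sorted p
  have h2 := mn_nonneg hp
  refine le_min (le_min ?_ ?_) ?_
  · unfold nA; linarith [h1.1]
  · unfold nB; linarith [h1.2]
  · unfold nC; linarith

theorem nM_zero {p : Quad} (hp : p ∈ Tri) (h : p.2.2.2 * vd p = 0) : nM p = 0 := by
  refine le_antisymm ?_ (nM_nonneg hp)
  rcases mul_eq_zero.1 h with h1 | h1
  · have h2 : mn p = 0 := by rw [← hp.2, h1, abs_zero]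
    refine (min_le_right _ _).trans ?_
    unfold nC; rw [h2]; simp
  · rcases vd_zero p h1 with h2 | h2
    · refine (min_le_left _ _).trans ((min_le_left _ _).trans ?_)
      unfold nA; rw [h2]; simp
    · refine (min_le_left _ _).trans ((min_le_right _ _).trans ?_)
      unfold nB; rw [h2]; simp

theorem bary_mem {p : Quad} (hp : p ∈ Tri) : bary p ∈ Tri := by
  constructor
  · show nA p + nB p + nC p = 1
    unfold nA nB nC
    have h1 : md p = p.1 + p.2.1 + p.2.2.1 - mx p - mn p := rfl
    have h2 := hp.1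
    linarith
  · rw [mn_bary]
    show |if p.2.2.2 * vd p ≤ 0 then -(nM p) else nM p| = nM p
    split_ifs
    · rw [abs_neg, abs_of_nonneg (nM_nonneg hp)]
    · rw [abs_of_nonneg (nM_nonneg hp)]

theorem continuous_mx : Continuous mx := by unfold mx; fun_prop
theorem continuous_mn : Continuous mn := by unfold mn; fun_prop
theorem continuous_md : Continuous md := by
  unfold md
  exact (by fun_prop : Continuous fun p : Quad => p.1 + p.2.1 + p.2.2.1).sub continuous_mx |>.sub continuous_mn
theorem continuous_vd : Continuous vd := by unfold vd; fun_prop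
theorem continuous_nA : Continuous nA := continuous_mx.sub continuous_md
theorem continuous_nB : Continuous nB := (continuous_md.sub continuous_mn).const_mul 2
theorem continuous_nC : Continuous nC := continuous_mn.const_mul 3
theorem continuous_nM : Continuous nM := (continuous_nA.min continuous_nB).min continuous_nC

theorem continuous_bary : Continuous fun p : Tri => bary p.1 := by
  unfold bary
  have hv : Continuous fun p : Tri => (p : Quad) := continuous_subtype_val
  have ht : Continuous fun p : Tri => (p : Quad).2.2.2 := by fun_prop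
  refine (continuous_nA.comp hv).prodMk ((continuous_nB.comp hv).prodMk
    ((continuous_nC.comp hv).prodMk ?_))
  refine Continuous.if_le (continuous_nM.comp hv).neg (continuous_nM.comp hv)
    (ht.mul (continuous_vd.comp hv)) continuous_const ?_
  intro p hp
  have := nM_zero p.2 hp
  simp [this]

/-- cyclic permutation of the coordinates -/
def cyc (p : Quad) : Quad := (p.2.2.1, p.1, p.2.1, p.2.2.2)
/-- transposition of two coordinates together with the exchange of the faces -/
def tau (p : Quad) : Quad := (p.1, p.2.2.1, p.2.1, -p.2.2.2)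

theorem mx_cyc (p : Quad) : mx (cyc p) = mx p := by
  show max (max p.2.2.1 p.1) p.2.1 = max (max p.1 p.2.1) p.2.2.1
  rw [max_assoc, max_comm]

theorem mn_cyc (p : Quad) : mn (cyc p) = mn p := by
  show min (min p.2.2.1 p.1) p.2.1 = min (min p.1 p.2.1) p.2.2.1
  rw [min_assoc, min_comm]

theorem mx_tau (p : Quad) : mx (tau p) = mx p := by
  simp only [mx, tau]; rw [max_assoc, max_comm p.2.2.1, ← max_assoc]

theorem mn_tau (p : Quad) : mn (tau p) = mn p := by
  simp only [mn, tau]; rw [min_assoc, min_comm p.2.2.1, ← min_assoc]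

theorem md_cyc (p : Quad) : md (cyc p) = md p := by
  unfold md; rw [mx_cyc, mn_cyc]; simp only [cyc]; ring

theorem md_tau (p : Quad) : md (tau p) = md p := by
  unfold md; rw [mx_tau, mn_tau]; simp only [tau]; ring

theorem bary_cyc (p : Quad) : bary (cyc p) = bary p := by
  have hv : vd (cyc p) = vd p := by simp only [vd, cyc]; ring
  have ht : (cyc p).2.2.2 = p.2.2.2 := rfl
  unfold bary nM nA nB nC
  rw [mx_cyc, mn_cyc, md_cyc, hv, ht]

theorem bary_tau (p : Quad) : bary (tau p) = bary p := by
  have hv : (tau p).2.2.2 * vd (tau p) = p.2.2.2 * vd p := by simp only [vd, tau]; ring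
  unfold bary nM nA nB nC
  rw [mx_tau, mn_tau, md_tau, hv]

theorem cyc_mem {p : Quad} (hp : p ∈ Tri) : cyc p ∈ Tri :=
  ⟨by have := hp.1; simp only [cyc]; linarith, by rw [mn_cyc]; exact hp.2⟩

theorem tau_mem {p : Quad} (hp : p ∈ Tri) : tau p ∈ Tri :=
  ⟨by have := hp.1; simp only [tau]; linarith, by
    rw [mn_tau]; simp only [tau]; rw [abs_neg]; exact hp.2⟩

/-- sorted points -/
def Srt (p : Quad) : Prop := p.2.1 ≤ p.1 ∧ p.2.2.1 ≤ p.2.1

theorem srt_vals {p : Quad} (h : Srt p) : mx p = p.1 ∧ md p = p.2.1 ∧ mn p = p.2.2.1 := by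
  obtain ⟨h1, h2⟩ := h
  have e1 : mx p = p.1 := by
    unfold mx; rw [max_eq_left h1, max_eq_left (h2.trans h1)]
  have e2 : mn p = p.2.2.1 := by
    unfold mn; rw [min_eq_right h1, min_eq_right h2]
  refine ⟨e1, ?_, e2⟩
  unfold md; rw [e1, e2]; ring

/-- every point can be sorted by the group -/
theorem exists_srt (p : Quad) : Srt p ∨ Srt (cyc p) ∨ Srt (cyc (cyc p)) ∨ Srt (tau p) ∨
    Srt (cyc (tau p)) ∨ Srt (cyc (cyc (tau p))) := by
  obtain ⟨a, b, c, t⟩ := p
  simp only [Srt, cyc, tau]
  rcases le_total a b with h1 | h1 <;> rcases le_total b c with h2 | h2 <;>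
    rcases le_total a c with h3 | h3 <;> simp [h1, h2, h3]

/-- the fibres of the map on sorted points -/
theorem bary_eq {p p' : Quad} (hp : p ∈ Tri) (hp' : p' ∈ Tri) (hs : Srt p) (hs' : Srt p')
    (h : bary p = bary p') : p' = p ∨ p' = tau p ∨ p' = cyc (tau p) := by
  obtain ⟨e1, e2, e3⟩ := srt_vals hs
  obtain ⟨f1, f2, f3⟩ := srt_vals hs'
  have hA : nA p = nA p' := congrArg (fun q : Quad => q.1) h
  have hB : nB p = nB p' := congrArg (fun q : Quad => q.2.1) h
  have hC : nC p = nC p' := congrArg (fun q : Quad => q.2.2.1) h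
  have hT : (if p.2.2.2 * vd p ≤ 0 then -(nM p) else nM p)
      = (if p'.2.2.2 * vd p' ≤ 0 then -(nM p') else nM p') := congrArg (fun q : Quad => q.2.2.2) h
  have hM : nM p = nM p' := by unfold nM; rw [hA, hB, hC]
  unfold nA at hA
  unfold nB at hB
  unfold nC at hC
  rw [e1, e2, f1, f2] at hA
  rw [e2, e3, f2, f3] at hB
  rw [e3, f3] at hC
  have hc : p.2.2.1 = p'.2.2.1 := by linarith
  have hb : p.2.1 = p'.2.1 := by linarith
  have ha : p.1 = p'.1 := by linarith
  have habs : |p.2.2.2| = |p'.2.2.2| := by rw [hp.2, hp'.2, e3, f3, hc]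
  have hvd : vd p = vd p' := by unfold vd; rw [ha, hb, hc]
  rcases abs_eq_abs.1 habs with ht | ht
  · left
    ext <;> simp [ha, hb, hc, ht]
  · -- opposite heights
    have hvnn : 0 ≤ vd p := by
      unfold vd
      obtain ⟨s1, s2⟩ := hs
      have s3 : p.2.2.1 ≤ p.1 := s2.trans s1
      exact mul_nonneg (mul_nonneg (by linarith) (by linarith)) (by linarith)
    by_cases ht0 : p.2.2.2 = 0
    · left
      have : p'.2.2.2 = 0 := by rw [ht0] at ht; linarith
      ext <;> simp [ha, hb, hc, ht0, this]
    by_cases hv0 : vd p = 0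
    · right
      rcases vd_zero p hv0 with h3 | h3
      · right
        rw [e1, e2] at h3
        have ht' : p'.2.2.2 = -p.2.2.2 := by linarith
        unfold cyc tau
        ext <;> simp [← ha, ← hb, ← hc, ht', h3]
      · left
        rw [e2, e3] at h3
        have ht' : p'.2.2.2 = -p.2.2.2 := by linarith
        unfold tau
        ext <;> simp [← ha, ← hb, ← hc, ht', h3]
    · exfalso
      have hvpos : 0 < vd p := lt_of_le_of_ne hvnn (Ne.symm hv0)
      have hMpos : 0 < nM p := by
        have hd1 : p.1 - p.2.1 ≠ 0 := fun h0 => hv0 (by unfold vd; rw [h0]; ring)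
        have hd2 : p.2.1 - p.2.2.1 ≠ 0 := fun h0 => hv0 (by unfold vd; rw [h0]; ring)
        have g1 : 0 < p.1 - p.2.1 := lt_of_le_of_ne (by linarith [hs.1]) (Ne.symm hd1)
        have g2 : 0 < p.2.1 - p.2.2.1 := lt_of_le_of_ne (by linarith [hs.2]) (Ne.symm hd2)
        have g3 : 0 < p.2.2.1 := by
          rw [← e3, ← hp.2]; exact abs_pos.2 ht0
        unfold nM nA nB nC
        rw [e1, e2, e3]
        refine lt_min (lt_min g1 (by linarith)) (by linarith)
      rw [← hvd, ← hM] at hT
      rcases lt_or_gt_of_ne ht0 with hneg | hpos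
      · have hle : p.2.2.2 * vd p ≤ 0 := (mul_neg_of_neg_of_pos hneg hvpos).le
        have hgt : ¬ p'.2.2.2 * vd p ≤ 0 := by
          have : 0 < p'.2.2.2 := by linarith
          exact not_le.2 (mul_pos this hvpos)
        rw [if_pos hle, if_neg hgt] at hT
        linarith
      · have hle : ¬ p.2.2.2 * vd p ≤ 0 := not_le.2 (mul_pos hpos hvpos)
        have hgt : p'.2.2.2 * vd p ≤ 0 := by
          have : p'.2.2.2 < 0 := by linarith
          exact (mul_neg_of_neg_of_pos this hvpos).le
        rw [if_neg hle, if_pos hgt] at hT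
        linarith

/-- a section of the map -/
def sec (p : Quad) : Quad :=
  (p.1 + p.2.1 / 2 + p.2.2.1 / 3, p.2.1 / 2 + p.2.2.1 / 3, p.2.2.1 / 3,
    if p.2.2.2 ≤ 0 then -(p.2.2.1 / 3) else p.2.2.1 / 3)

theorem coord_nonneg {p : Quad} (hp : p ∈ Tri) : 0 ≤ p.1 ∧ 0 ≤ p.2.1 ∧ 0 ≤ p.2.2.1 := by
  have h := mn_nonneg hp
  unfold mn at h
  exact ⟨h.trans ((min_le_left _ _).trans (min_le_left _ _)),
    h.trans ((min_le_left _ _).trans (min_le_right _ _)), h.trans (min_le_right _ _)⟩

theorem sec_srt {p : Quad} (hp : p ∈ Tri) : Srt (sec p) := by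
  obtain ⟨h1, h2, h3⟩ := coord_nonneg hp
  simp only [Srt, sec]
  constructor <;> linarith

theorem sec_mem {p : Quad} (hp : p ∈ Tri) : sec p ∈ Tri := by
  obtain ⟨h1, h2, h3⟩ := coord_nonneg hp
  refine ⟨?_, ?_⟩
  · have := hp.1
    simp only [sec]; linarith
  · rw [(srt_vals (sec_srt hp)).2.2]
    simp only [sec]
    split_ifs
    · rw [abs_neg, abs_of_nonneg (by positivity)]
    · rw [abs_of_nonneg (by positivity)]

theorem bary_sec {p : Quad} (hp : p ∈ Tri) : bary (sec p) = p := by
  obtain ⟨h1, h2, h3⟩ := coord_nonneg hp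
  obtain ⟨e1, e2, e3⟩ := srt_vals (sec_srt hp)
  have gA : nA (sec p) = p.1 := by unfold nA; rw [e1, e2]; simp only [sec]; ring
  have gB : nB (sec p) = p.2.1 := by unfold nB; rw [e2, e3]; simp only [sec]; ring
  have gC : nC (sec p) = p.2.2.1 := by unfold nC; rw [e3]; simp only [sec]; ring
  have gM : nM (sec p) = |p.2.2.2| := by unfold nM; rw [gA, gB, gC, hp.2]; rfl
  have gV : vd (sec p) = p.1 * (p.2.1 / 2) * (p.1 + p.2.1 / 2) := by
    simp only [vd, sec]; ring
  unfold bary
  rw [gA, gB, gC, gM]
  have key : (if (sec p).2.2.2 * vd (sec p) ≤ 0 then -|p.2.2.2| else |p.2.2.2|) = p.2.2.2 := by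
    by_cases ht : p.2.2.2 = 0
    · rw [ht]; simp
    · have hpos : 0 < mn p := by rw [← hp.2]; exact abs_pos.2 ht
      have g1 : 0 < p.1 := lt_of_lt_of_le hpos ((min_le_left _ _).trans (min_le_left _ _))
      have g2 : 0 < p.2.1 := lt_of_lt_of_le hpos ((min_le_left _ _).trans (min_le_right _ _))
      have g3 : 0 < p.2.2.1 := lt_of_lt_of_le hpos (min_le_right _ _)
      have gVpos : 0 < vd (sec p) := by rw [gV]; positivity
      rcases lt_or_gt_of_ne ht with hneg | hpos'
      · have : (sec p).2.2.2 = -(p.2.2.1 / 3) := by simp only [sec]; rw [if_pos hneg.le]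
        rw [this, if_pos, abs_of_neg hneg]
        · ring
        · have : 0 ≤ p.2.2.1 / 3 * vd (sec p) := by positivity
          linarith
      · have : (sec p).2.2.2 = p.2.2.1 / 3 := by simp only [sec]; rw [if_neg (not_le.2 hpos')]
        rw [this, if_neg, abs_of_pos hpos']
        exact not_le.2 (by positivity)
  rw [key]

end Pool.Agent.NH62.Thu
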