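import Pool.Agent.NH62.Thu.Quo
import Pool.Agent.NH62.Thu.Tri

set_option autoImplicit false

/-! The homeomorphism between the sphere and the double of the triangle. -/

noncomputable section

namespace Pool.Agent.NH62.Thu

open OnePoint Set Filter Topology

def X0 (z : ℂ) : ℝ := z.re
def X1 (z : ℂ) : ℝ := -z.re / 2 + Real.sqrt 3 / 2 * z.im
def X2 (z : ℂ) : ℝ := -z.re / 2 - Real.sqrt 3 / 2 * z.im
/-- minus the smallest of the three -/
def mm (z : ℂ) : ℝ := -(min (min (X0 z) (X1 z)) (X2 z))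

theorem s3 : Real.sqrt 3 * Real.sqrt 3 = 3 := Real.mul_self_sqrt (by norm_num)

theorem X_sum (z : ℂ) : X0 z + X1 z + X2 z = 0 := by unfold X0 X1 X2; ring

theorem X_sq (z : ℂ) : X0 z ^ 2 + X1 z ^ 2 + X2 z ^ 2 = 3 / 2 * ‖z‖ ^ 2 := by
  rw [← Complex.normSq_eq_norm_sq, Complex.normSq_apply]
  unfold X0 X1 X2
  linear_combination (z.im ^ 2 / 2) * s3

theorem X_ge (z : ℂ) : -mm z ≤ X0 z ∧ -mm z ≤ X1 z ∧ -mm z ≤ X2 z := by
  unfold mm
  rw [neg_neg]
  exact ⟨(min_le_left _ _).trans (min_le_left _ _), (min_le_left _ _).trans (min_le_right _ _),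
    min_le_right _ _⟩

theorem X_le (z : ℂ) : X0 z ≤ 2 * mm z ∧ X1 z ≤ 2 * mm z ∧ X2 z ≤ 2 * mm z := by
  obtain ⟨h0, h1, h2⟩ := X_ge z
  have h := X_sum z
  refine ⟨?_, ?_, ?_⟩ <;> linarith

theorem mm_nonneg (z : ℂ) : 0 ≤ mm z := by
  obtain ⟨h0, h1, h2⟩ := X_ge z
  have h := X_sum z
  linarith

theorem mm_ge (z : ℂ) : ‖z‖ / 2 ≤ mm z := by
  obtain ⟨h0, h1, h2⟩ := X_ge z
  obtain ⟨g0, g1, g2⟩ := X_le z
  have h := X_sum z
  have hs := X_sq z
  have e0 : 0 ≤ (X0 z + mm z) * (2 * mm z - X0 z) := mul_nonneg (by linarith) (by linarith)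
  have e1 : 0 ≤ (X1 z + mm z) * (2 * mm z - X1 z) := mul_nonneg (by linarith) (by linarith)
  have e2 : 0 ≤ (X2 z + mm z) * (2 * mm z - X2 z) := mul_nonneg (by linarith) (by linarith)
  have e3 : ‖z‖ ^ 2 ≤ (2 * mm z) ^ 2 := by nlinarith
  have e4 := abs_le_of_sq_le_sq' e3 (by linarith [mm_nonneg z])
  linarith [e4.2]

theorem mm_pos {z : ℂ} (hz : z ≠ 0) : 0 < mm z :=
  lt_of_lt_of_le (by have := norm_pos_iff.2 hz; linarith) (mm_ge z)

theorem mm_zero : mm 0 = 0 := by simp [mm, X0, X1, X2]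

theorem mm_attained (z : ℂ) : X0 z = -mm z ∨ X1 z = -mm z ∨ X2 z = -mm z := by
  unfold mm
  rw [neg_neg]
  rcases min_choice (min (X0 z) (X1 z)) (X2 z) with h | h
  · rcases min_choice (X0 z) (X1 z) with h' | h'
    · left; rw [h, h']
    · right; left; rw [h, h']
  · right; right; rw [h]

theorem X0_smul (k : ℝ) (z : ℂ) : X0 (k * z) = k * X0 z := by simp [X0]
theorem X1_smul (k : ℝ) (z : ℂ) : X1 (k * z) = k * X1 z := by simp [X1]; ring
theorem X2_smul (k : ℝ) (z : ℂ) : X2 (k * z) = k * X2 z := by simp [X2]; ring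
theorem mm_smul {k : ℝ} (hk : 0 ≤ k) (z : ℂ) : mm (k * z) = k * mm z := by
  unfold mm
  rw [X0_smul, X1_smul, X2_smul, ← mul_min_of_nonneg _ _ hk, ← mul_min_of_nonneg _ _ hk]; ring

theorem om_sq_eq : om ^ 2 = -1 - om := by linear_combination om_sq_add

theorem recon (z : ℂ) : (X0 z : ℂ) + X1 z * om + X2 z * om ^ 2 = 3 / 2 * z := by
  rw [om_sq_eq]
  have h3 := s3
  apply Complex.ext
  · simp only [om, X0, X1, X2, Complex.add_re, Complex.mul_re, Complex.ofReal_re, Complex.ofReal_im,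
      Complex.sub_re, Complex.neg_re, Complex.one_re, Complex.sub_im, Complex.neg_im, Complex.one_im]
    have : ((3 / 2 : ℂ)).re = 3 / 2 := by norm_num
    have h' : ((3 / 2 : ℂ)).im = 0 := by norm_num
    rw [this, h']; ring
  · simp only [om, X0, X1, X2, Complex.add_im, Complex.mul_im, Complex.ofReal_re, Complex.ofReal_im,
      Complex.sub_re, Complex.neg_re, Complex.one_re, Complex.sub_im, Complex.neg_im, Complex.one_im]
    have : ((3 / 2 : ℂ)).re = 3 / 2 := by norm_num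
    have h' : ((3 / 2 : ℂ)).im = 0 := by norm_num
    rw [this, h']
    linear_combination (z.im / 2) * h3

def gg (z : ℂ) : ℝ := min ‖z‖ 1 * (max ‖z‖ 1)⁻¹
def tt (z : ℂ) : ℝ := ((max ‖z‖ 1)⁻¹ - min ‖z‖ 1) / 3

theorem gt_le {z : ℂ} (h : ‖z‖ ≤ 1) : gg z = ‖z‖ ∧ tt z = (1 - ‖z‖) / 3 := by
  unfold gg tt
  rw [min_eq_left h, max_eq_right h]; simp

theorem gt_ge {z : ℂ} (h : 1 ≤ ‖z‖) : gg z = ‖z‖⁻¹ ∧ tt z = -(1 - ‖z‖⁻¹) / 3 := by
  unfold gg tt
  rw [min_eq_right h, max_eq_left h]; simp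

theorem gg_tt (z : ℂ) : gg z = 1 - 3 * |tt z| := by
  rcases le_total ‖z‖ 1 with h | h
  · obtain ⟨h1, h2⟩ := gt_le h
    rw [h1, h2, abs_of_nonneg (by linarith)]; ring
  · obtain ⟨h1, h2⟩ := gt_ge h
    have h3 : ‖z‖⁻¹ ≤ 1 := inv_le_one_of_one_le₀ h
    rw [h1, h2, abs_of_nonpos (by linarith)]; ring

theorem gg_nonneg (z : ℂ) : 0 ≤ gg z := by unfold gg; positivity

theorem gg_zero : gg 0 = 0 := by simp [gg]
theorem tt_zero : tt 0 = 1 / 3 := by simp [tt]

theorem gg_pos {z : ℂ} (hz : z ≠ 0) : 0 < gg z := by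
  have := norm_pos_iff.2 hz
  unfold gg; positivity

theorem continuous_gg : Continuous gg := by
  unfold gg
  refine (by fun_prop : Continuous fun z : ℂ => min ‖z‖ 1).mul ?_
  exact Continuous.inv₀ (by fun_prop) fun z => (lt_of_lt_of_le one_pos (le_max_right _ _)).ne'

theorem continuous_tt : Continuous tt := by
  unfold tt
  refine Continuous.div_const (Continuous.sub ?_ (by fun_prop)) _
  exact Continuous.inv₀ (by fun_prop) fun z => (lt_of_lt_of_le one_pos (le_max_right _ _)).ne'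

/-- the map on the plane -/
def xi (z : ℂ) : Quad :=
  (1 / 3 + gg z / 3 * (X0 z / mm z), 1 / 3 + gg z / 3 * (X1 z / mm z),
    1 / 3 + gg z / 3 * (X2 z / mm z), tt z)

/-- the map on the sphere -/
def Xi (x : Sph) : Quad := x.elim (1 / 3, 1 / 3, 1 / 3, -1 / 3) xi

theorem Xi_coe (z : ℂ) : Xi (z : Sph) = xi z := rfl
theorem Xi_infty : Xi ∞ = (1 / 3, 1 / 3, 1 / 3, -1 / 3) := rfl
theorem xi_zero : xi 0 = (1 / 3, 1 / 3, 1 / 3, 1 / 3) := by
  unfold xi; rw [gg_zero, tt_zero]; simp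

theorem min3_eq {a b c v : ℝ} (ha : v ≤ a) (hb : v ≤ b) (hc : v ≤ c)
    (h : a = v ∨ b = v ∨ c = v) : min (min a b) c = v := by
  refine le_antisymm ?_ (le_min (le_min ha hb) hc)
  rcases h with h | h | h
  · exact ((min_le_left _ _).trans (min_le_left _ _)).trans h.le
  · exact ((min_le_left _ _).trans (min_le_right _ _)).trans h.le
  · exact (min_le_right _ _).trans h.le

theorem mn_xi (z : ℂ) : mn (xi z) = (1 - gg z) / 3 := by
  by_cases hz : z = 0
  · subst hz; rw [xi_zero, gg_zero]; simp [mn]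
  have hm := mm_pos hz
  have hg := gg_nonneg z
  have key : ∀ x : ℝ, -mm z ≤ x → (1 - gg z) / 3 ≤ 1 / 3 + gg z / 3 * (x / mm z) := by
    intro x hx
    have h1 : -1 ≤ x / mm z := by rw [le_div_iff₀ hm]; linarith
    have h2 : gg z / 3 * (-1) ≤ gg z / 3 * (x / mm z) := mul_le_mul_of_nonneg_left h1 (by positivity)
    linarith
  have key2 : ∀ x : ℝ, x = -mm z → 1 / 3 + gg z / 3 * (x / mm z) = (1 - gg z) / 3 := by
    intro x hx
    rw [hx, neg_div, div_self hm.ne']; ring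
  obtain ⟨h0, h1, h2⟩ := X_ge z
  refine min3_eq (key _ h0) (key _ h1) (key _ h2) ?_
  rcases mm_attained z with h | h | h
  · exact Or.inl (key2 _ h)
  · exact Or.inr (Or.inl (key2 _ h))
  · exact Or.inr (Or.inr (key2 _ h))

theorem Xi_mem (x : Sph) : Xi x ∈ Tri := by
  induction x using OnePoint.rec with
  | infty =>
    rw [Xi_infty]
    constructor
    · norm_num
    · simp only [mn, min_self]; norm_num [abs_of_neg]
  | coe z =>
    rw [Xi_coe]
    constructor
    · simp only [xi]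
      have h := X_sum z
      have : gg z / 3 * (X0 z / mm z) + gg z / 3 * (X1 z / mm z) + gg z / 3 * (X2 z / mm z) = 0 := by
        have : gg z / 3 * (X0 z / mm z) + gg z / 3 * (X1 z / mm z) + gg z / 3 * (X2 z / mm z)
          = gg z / 3 * ((X0 z + X1 z + X2 z) / mm z) := by ring
        rw [this, h]; simp
      linarith
    · rw [mn_xi]
      show |tt z| = _
      rw [gg_tt]; ring

/-- the complex coordinate -/
def ww (p : Quad) : ℂ := p.1 + p.2.1 * om + p.2.2.1 * om ^ 2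
def rho (t : ℝ) : ℝ := if 0 ≤ t then 1 - 3 * t else (1 + 3 * t)⁻¹
/-- the inverse map -/
def zeta (p : Quad) : Sph :=
  if ww p = 0 then (if 0 ≤ p.2.2.2 then ((0 : ℂ) : Sph) else ∞)
  else (((rho p.2.2.2 / ‖ww p‖ : ℝ) * ww p : ℂ) : Sph)

theorem ww_re (p : Quad) : (ww p).re = p.1 - (p.2.1 + p.2.2.1) / 2 := by
  unfold ww
  rw [om_sq_eq]
  simp only [om, Complex.add_re, Complex.mul_re, Complex.ofReal_re, Complex.ofReal_im,
      Complex.sub_re, Complex.neg_re, Complex.one_re]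
  ring

theorem ww_im (p : Quad) : (ww p).im = Real.sqrt 3 / 2 * (p.2.1 - p.2.2.1) := by
  unfold ww
  rw [om_sq_eq]
  simp only [om, Complex.add_im, Complex.mul_im, Complex.ofReal_re, Complex.ofReal_im,
      Complex.sub_im, Complex.neg_im, Complex.one_im, Complex.sub_re, Complex.neg_re, Complex.one_re]
  ring

theorem X_ww {p : Quad} (h : p.1 + p.2.1 + p.2.2.1 = 1) :
    X0 (ww p) = (3 * p.1 - 1) / 2 ∧ X1 (ww p) = (3 * p.2.1 - 1) / 2 ∧
      X2 (ww p) = (3 * p.2.2.1 - 1) / 2 := by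
  unfold X0 X1 X2
  rw [ww_re, ww_im]
  have h3 := s3
  refine ⟨by linarith, ?_, ?_⟩
  · linear_combination ((p.2.1 - p.2.2.1) / 4) * h3 - h / 2
  · linear_combination (-(p.2.1 - p.2.2.1) / 4) * h3 - h / 2

theorem mm_ww {p : Quad} (h : p.1 + p.2.1 + p.2.2.1 = 1) : mm (ww p) = (1 - 3 * mn p) / 2 := by
  obtain ⟨h0, h1, h2⟩ := X_ww h
  unfold mm mn
  rw [h0, h1, h2]
  rcases le_total p.1 p.2.1 with g1 | g1 <;> rcases le_total p.2.1 p.2.2.1 with g2 | g2 <;>
    rcases le_total p.1 p.2.2.1 with g3 | g3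
  all_goals
    simp only [min_def]
    split_ifs <;> linarith

theorem rho_props {t : ℝ} (ht : |t| < 1 / 3) : 0 < rho t := by
  unfold rho
  rw [abs_lt] at ht
  split_ifs with h
  · linarith
  · exact inv_pos.2 (by linarith [ht.1])

theorem rho_gg {t : ℝ} (ht : |t| < 1 / 3) {z : ℂ} (hz : ‖z‖ = rho t) :
    gg z = 1 - 3 * |t| ∧ tt z = t := by
  have ht' := abs_lt.1 ht
  by_cases h : 0 ≤ t
  · have e : rho t = 1 - 3 * t := by unfold rho; rw [if_pos h]
    rw [e] at hz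
    obtain ⟨h1, h2⟩ := gt_le (z := z) (by rw [hz]; linarith)
    rw [h1, h2, hz, abs_of_nonneg h]
    exact ⟨rfl, by ring⟩
  · have h' : t < 0 := not_le.1 h
    have e : rho t = (1 + 3 * t)⁻¹ := by unfold rho; rw [if_neg h]
    rw [e] at hz
    have hp : 0 < 1 + 3 * t := by linarith [ht'.1]
    obtain ⟨h1, h2⟩ := gt_ge (z := z) (by rw [hz]; exact (one_le_inv₀ hp).2 (by linarith))
    rw [h1, h2, hz, abs_of_neg h', _root_.inv_inv]
    exact ⟨by ring, by ring⟩

theorem rho_tt {z : ℂ} (hz : z ≠ 0) : rho (tt z) = ‖z‖ := by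
  have hz' := norm_pos_iff.2 hz
  rcases le_or_gt ‖z‖ 1 with h | h
  · obtain ⟨h1, h2⟩ := gt_le h
    unfold rho
    rw [h2, if_pos (by linarith)]; ring
  · obtain ⟨h1, h2⟩ := gt_ge h.le
    have h3 : ‖z‖⁻¹ < 1 := inv_lt_one_of_one_lt₀ h
    unfold rho
    rw [h2, if_neg (by linarith)]
    have : 1 + 3 * (-(1 - ‖z‖⁻¹) / 3) = ‖z‖⁻¹ := by ring
    rw [this, _root_.inv_inv]

theorem Xi_zeta {p : Quad} (hp : p ∈ Tri) : Xi (zeta p) = p := by
  obtain ⟨h, hm⟩ := hp
  obtain ⟨e0, e1, e2⟩ := X_ww h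
  have e3 := mm_ww h
  rw [← hm] at e3
  by_cases hw : ww p = 0
  · rw [hw] at e0 e1 e2 e3
    have z0 : X0 0 = 0 := by simp [X0]
    have z1 : X1 0 = 0 := by simp [X1]
    have z2 : X2 0 = 0 := by simp [X2]
    rw [z0] at e0; rw [z1] at e1; rw [z2] at e2; rw [mm_zero] at e3
    have ht : |p.2.2.2| = 1 / 3 := by linarith
    unfold zeta
    rw [if_pos hw]
    by_cases h0 : 0 ≤ p.2.2.2
    · rw [if_pos h0, Xi_coe, xi_zero]
      rw [abs_of_nonneg h0] at ht
      ext <;> simp <;> linarith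
    · rw [if_neg h0, Xi_infty]
      rw [abs_of_neg (not_le.1 h0)] at ht
      ext <;> simp <;> linarith
  · have hmp := mm_pos hw
    have ht : |p.2.2.2| < 1 / 3 := by rw [e3] at hmp; linarith
    have hr := rho_props ht
    have hn := norm_pos_iff.2 hw
    have hk : 0 < rho p.2.2.2 / ‖ww p‖ := div_pos hr hn
    unfold zeta
    rw [if_neg hw, Xi_coe]
    unfold xi
    obtain ⟨hg, htt⟩ := rho_gg ht (z := ((rho p.2.2.2 / ‖ww p‖ : ℝ) * ww p : ℂ)) (by
      rw [norm_mul, Complex.norm_real, Real.norm_of_nonneg hk.le]; field_simp)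
    rw [hg, htt, X0_smul, X1_smul, X2_smul, mm_smul hk.le, e0, e1, e2, e3]
    have hne : 1 - 3 * |p.2.2.2| ≠ 0 := by
      have : 0 < 1 - 3 * |p.2.2.2| := by linarith
      exact this.ne'
    have hkne := hk.ne'
    have key : ∀ x : ℝ, 1 / 3 + (1 - 3 * |p.2.2.2|) / 3 *
        (rho p.2.2.2 / ‖ww p‖ * ((3 * x - 1) / 2) / (rho p.2.2.2 / ‖ww p‖ * ((1 - 3 * |p.2.2.2|) / 2)))
        = x := by
      intro x
      rw [mul_div_mul_left _ _ hkne]
      field_simp
      ring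
    rw [key, key, key]

theorem ww_xi {z : ℂ} : ww (xi z) = ((gg z / (2 * mm z) : ℝ) : ℂ) * z := by
  have h := recon z
  have h1 := om_sq_add
  unfold ww xi
  simp only
  push_cast
  have e : (1 : ℂ) / 3 + gg z / 3 * (X0 z / mm z) + (1 / 3 + gg z / 3 * (X1 z / mm z)) * om
      + (1 / 3 + gg z / 3 * (X2 z / mm z)) * om ^ 2
      = 1 / 3 * (om ^ 2 + om + 1) + gg z / 3 / mm z * ((X0 z : ℂ) + X1 z * om + X2 z * om ^ 2) := by
    ring
  rw [e, h, h1]
  ring

theorem zeta_Xi (x : Sph) : zeta (Xi x) = x := by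
  induction x using OnePoint.rec with
  | infty =>
    rw [Xi_infty]
    have hw : ww (1 / 3, 1 / 3, 1 / 3, -1 / 3) = 0 := by
      unfold ww
      push_cast
      linear_combination (1 / 3 : ℂ) * om_sq_add
    unfold zeta
    rw [if_pos hw, if_neg (by norm_num)]
  | coe z =>
    rw [Xi_coe]
    by_cases hz : z = 0
    · subst hz
      have hw : ww (xi 0) = 0 := by rw [ww_xi]; simp
      unfold zeta
      rw [if_pos hw, xi_zero, if_pos (by norm_num)]
    · have hg := gg_pos hz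
      have hm := mm_pos hz
      have hc : 0 < gg z / (2 * mm z) := by positivity
      have hn := norm_pos_iff.2 hz
      have hw : ww (xi z) ≠ 0 := by
        rw [ww_xi]
        exact mul_ne_zero (by exact_mod_cast hc.ne') hz
      unfold zeta
      rw [if_neg hw]
      congr 1
      have e : (xi z).2.2.2 = tt z := rfl
      rw [e, rho_tt hz, ww_xi, norm_mul, Complex.norm_real, Real.norm_of_nonneg hc.le, ← mul_assoc,
        ← Complex.ofReal_mul]
      have : ‖z‖ / (gg z / (2 * mm z) * ‖z‖) * (gg z / (2 * mm z)) = 1 := by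
        field_simp
      rw [this]; simp

theorem X_inv {z : ℂ} : X0 z⁻¹ = (‖z‖ ^ 2)⁻¹ * X0 z ∧ X1 z⁻¹ = (‖z‖ ^ 2)⁻¹ * X2 z ∧
    X2 z⁻¹ = (‖z‖ ^ 2)⁻¹ * X1 z := by
  unfold X0 X1 X2
  rw [Complex.inv_re, Complex.inv_im, Complex.normSq_eq_norm_sq]
  refine ⟨?_, ?_, ?_⟩ <;> ring

theorem mm_inv {z : ℂ} : mm z⁻¹ = (‖z‖ ^ 2)⁻¹ * mm z := by
  obtain ⟨h0, h1, h2⟩ := X_inv (z := z)
  have hk : (0 : ℝ) ≤ (‖z‖ ^ 2)⁻¹ := by positivity
  unfold mm
  rw [h0, h1, h2, ← mul_min_of_nonneg _ _ hk, ← mul_min_of_nonneg _ _ hk, min_assoc,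
    min_comm (X2 z), ← min_assoc]
  ring

theorem gt_inv {z : ℂ} (hz : z ≠ 0) : gg z⁻¹ = gg z ∧ tt z⁻¹ = -tt z := by
  have hn := norm_pos_iff.2 hz
  rcases le_total ‖z‖ 1 with h | h
  · have h' : 1 ≤ ‖z⁻¹‖ := by rw [norm_inv]; exact (one_le_inv₀ hn).2 h
    obtain ⟨a1, a2⟩ := gt_le h
    obtain ⟨b1, b2⟩ := gt_ge h'
    rw [a1, a2, b1, b2, norm_inv, _root_.inv_inv]
    exact ⟨rfl, by ring⟩
  · have h' : ‖z⁻¹‖ ≤ 1 := by rw [norm_inv]; exact inv_le_one_of_one_le₀ h
    obtain ⟨a1, a2⟩ := gt_ge h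
    obtain ⟨b1, b2⟩ := gt_le h'
    rw [a1, a2, b1, b2, norm_inv]
    exact ⟨rfl, by ring⟩

theorem Xi_inv (x : Sph) : Xi (inv x) = tau (Xi x) := by
  induction x using OnePoint.rec with
  | infty =>
    rw [inv_infty, Xi_coe, xi_zero, Xi_infty]
    unfold tau; ext <;> norm_num
  | coe z =>
    by_cases hz : z = 0
    · subst hz
      rw [inv_zero, Xi_coe, xi_zero, Xi_infty]
      unfold tau; ext <;> norm_num
    · rw [inv_coe_ne hz, Xi_coe, Xi_coe]
      obtain ⟨h0, h1, h2⟩ := X_inv (z := z)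
      obtain ⟨g1, g2⟩ := gt_inv hz
      have hk : (‖z‖ ^ 2)⁻¹ ≠ 0 := inv_ne_zero (pow_ne_zero 2 (norm_ne_zero_iff.2 hz))
      unfold xi tau
      simp only
      rw [h0, h1, h2, mm_inv, g1, g2, mul_div_mul_left _ _ hk, mul_div_mul_left _ _ hk,
        mul_div_mul_left _ _ hk]

theorem X_om (z : ℂ) : X0 (om * z) = X2 z ∧ X1 (om * z) = X0 z ∧ X2 (om * z) = X1 z := by
  have h3 := s3
  unfold X0 X1 X2
  simp only [Complex.mul_re, Complex.mul_im, om]
  refine ⟨by ring, ?_, ?_⟩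
  · linear_combination (z.re / 4) * h3
  · linear_combination (-z.re / 4) * h3

theorem norm_om : ‖om‖ = 1 := by
  have h : ‖om‖ ^ 3 = 1 := by rw [← norm_pow, om_cube, norm_one]
  exact (pow_eq_one_iff_of_nonneg (norm_nonneg _) (by norm_num)).1 h

theorem mm_om (z : ℂ) : mm (om * z) = mm z := by
  obtain ⟨h0, h1, h2⟩ := X_om z
  unfold mm
  rw [h0, h1, h2, min_assoc, min_comm]

theorem Xi_rot (x : Sph) : Xi (rot x) = cyc (Xi x) := by
  induction x using OnePoint.rec with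
  | infty => rfl
  | coe z =>
    rw [rot_coe, Xi_coe, Xi_coe]
    obtain ⟨h0, h1, h2⟩ := X_om z
    have hn : ‖om * z‖ = ‖z‖ := by rw [norm_mul, norm_om, one_mul]
    have hg : gg (om * z) = gg z := by unfold gg; rw [hn]
    have ht : tt (om * z) = tt z := by unfold tt; rw [hn]
    unfold xi cyc
    simp only
    rw [h0, h1, h2, mm_om, hg, ht]

theorem continuous_X : Continuous X0 ∧ Continuous X1 ∧ Continuous X2 := by
  unfold X0 X1 X2
  have h1 : Continuous fun z : ℂ => z.re := Complex.continuous_re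
  have h2 : Continuous fun z : ℂ => z.im := Complex.continuous_im
  refine ⟨h1, by fun_prop, by fun_prop⟩

theorem continuous_mm : Continuous mm := by
  obtain ⟨h0, h1, h2⟩ := continuous_X
  exact ((h0.min h1).min h2).neg

theorem continuous_frac {Y : ℂ → ℝ} (hY : Continuous Y) (h1 : ∀ z, -mm z ≤ Y z)
    (h2 : ∀ z, Y z ≤ 2 * mm z) : Continuous fun z => 1 / 3 + gg z / 3 * (Y z / mm z) := by
  rw [continuous_iff_continuousAt]
  intro z
  by_cases hz : z = 0
  · subst hz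
    refine ContinuousAt.const_add ?_ _
    have hb : ∀ z, |gg z / 3 * (Y z / mm z)| ≤ gg z := by
      intro z
      have hg := gg_nonneg z
      have hm := mm_nonneg z
      have h3 : |Y z / mm z| ≤ 2 := by
        rcases hm.eq_or_lt with h0 | h0
        · rw [← h0]; simp
        · rw [abs_div, abs_of_pos h0, div_le_iff₀ h0, abs_le]
          exact ⟨by linarith [h1 z], h2 z⟩
      rw [abs_mul, abs_of_nonneg (by positivity)]
      calc gg z / 3 * |Y z / mm z| ≤ gg z / 3 * 2 := mul_le_mul_of_nonneg_left h3 (by positivity)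
        _ ≤ gg z := by linarith
    have h0 : gg (0 : ℂ) / 3 * (Y 0 / mm 0) = 0 := by rw [gg_zero]; simp
    rw [ContinuousAt, h0]
    refine squeeze_zero_norm (fun z => ?_) (by
      have := continuous_gg.tendsto (0 : ℂ)
      rwa [gg_zero] at this)
    rw [Real.norm_eq_abs]; exact hb z
  · refine ContinuousAt.const_add (ContinuousAt.mul (continuous_gg.continuousAt.div_const 3) ?_) _
    exact hY.continuousAt.div continuous_mm.continuousAt (mm_pos hz).ne'

theorem continuous_xi : Continuous xi := by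
  obtain ⟨h0, h1, h2⟩ := continuous_X
  unfold xi
  refine (continuous_frac h0 (fun z => (X_ge z).1) (fun z => (X_le z).1)).prodMk
    ((continuous_frac h1 (fun z => (X_ge z).2.1) (fun z => (X_le z).2.1)).prodMk
    ((continuous_frac h2 (fun z => (X_ge z).2.2) (fun z => (X_le z).2.2)).prodMk continuous_tt))

theorem continuous_tau : Continuous tau := by unfold tau; fun_prop

theorem tau_tau (p : Quad) : tau (tau p) = p := by
  obtain ⟨a, b, c, t⟩ := p
  simp [tau]

theorem continuous_Xi : Continuous Xi := by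
  have hz : ∀ z : ℂ, ContinuousAt Xi (z : Sph) := by
    intro z
    rw [OnePoint.continuousAt_coe]
    exact continuous_xi.continuousAt
  rw [continuous_iff_continuousAt]
  intro x
  induction x using OnePoint.rec with
  | infty =>
    have h1 : Xi = fun x => tau (Xi (inv x)) := by
      funext x; rw [Xi_inv, tau_tau]
    rw [h1]
    have h2 : ContinuousAt (Xi ∘ inv) ∞ := by
      refine ContinuousAt.comp ?_ continuous_inv.continuousAt
      rw [inv_infty]; exact hz 0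
    exact continuous_tau.continuousAt.comp h2
  | coe z => exact hz z

/-- the homeomorphism -/
def XiE : Sph ≃ Tri where
  toFun x := ⟨Xi x, Xi_mem x⟩
  invFun p := zeta p
  left_inv x := zeta_Xi x
  right_inv p := Subtype.ext (Xi_zeta p.2)

/-- the homeomorphism -/
def XiH : Sph ≃ₜ Tri :=
  Continuous.homeoOfEquivCompactToT2 (f := XiE) (continuous_Xi.subtype_mk _)

theorem XiH_apply (x : Sph) : (XiH x : Quad) = Xi x := rfl
theorem XiH_symm_apply (p : Tri) : XiH.symm p = zeta p := rfl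

end Pool.Agent.NH62.Thu
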